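import Mathlib

open scoped ComplexConjugate BigOperators

noncomputable section

namespace Pool.Agent.Lib.MP_f84017_an

/-- A finite matrix with operator norm at most `C`. -/
def Contr {J I : Type*} [Fintype J] [Fintype I] (C : ℝ) (t : J → I → ℂ) : Prop :=
  ∀ ξ : I → ℂ, ∑ j, ‖∑ i, t j i * ξ i‖ ^ 2 ≤ C ^ 2 * ∑ i, ‖ξ i‖ ^ 2

section cs

variable {ι : Type*} (s : Finset ι)

lemma norm_sum_mul_sq_le (a b : ι → ℂ) :
    ‖∑ i ∈ s, a i * b i‖ ^ 2 ≤ (∑ i ∈ s, ‖a i‖ ^ 2) * ∑ i ∈ s, ‖b i‖ ^ 2 := by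
  have h1 : ‖∑ i ∈ s, a i * b i‖ ≤ ∑ i ∈ s, ‖a i‖ * ‖b i‖ := by
    refine (norm_sum_le _ _).trans (le_of_eq ?_)
    exact Finset.sum_congr rfl fun i _ => norm_mul _ _
  calc ‖∑ i ∈ s, a i * b i‖ ^ 2 ≤ (∑ i ∈ s, ‖a i‖ * ‖b i‖) ^ 2 := by
        gcongr
    _ ≤ _ := Finset.sum_mul_sq_le_sq_mul_sq s (fun i => ‖a i‖) (fun i => ‖b i‖)

/-- Weighted Cauchy-Schwarz. -/
lemma weighted_cs (ψ : ι → ℝ) (hψ : ∀ i ∈ s, 0 ≤ ψ i) (a b : ι → ℝ) :
    (∑ i ∈ s, ψ i * (a i * b i)) ^ 2 ≤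
      (∑ i ∈ s, ψ i * a i ^ 2) * ∑ i ∈ s, ψ i * b i ^ 2 := by
  have h := Finset.sum_mul_sq_le_sq_mul_sq s (fun i => Real.sqrt (ψ i) * a i)
    (fun i => Real.sqrt (ψ i) * b i)
  have e1 : ∑ i ∈ s, Real.sqrt (ψ i) * a i * (Real.sqrt (ψ i) * b i) =
      ∑ i ∈ s, ψ i * (a i * b i) := by
    apply Finset.sum_congr rfl
    intro i hi
    have := Real.mul_self_sqrt (hψ i hi)
    linear_combination (a i * b i) * this
  have e2 : ∀ c : ι → ℝ, ∑ i ∈ s, (Real.sqrt (ψ i) * c i) ^ 2 = ∑ i ∈ s, ψ i * c i ^ 2 := by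
    intro c
    apply Finset.sum_congr rfl
    intro i hi
    have := Real.mul_self_sqrt (hψ i hi)
    linear_combination (c i ^ 2) * this
  rw [e1, e2, e2] at h
  exact h

end cs

section contr

variable {J I : Type*} [Fintype J] [Fintype I]

lemma Contr.adj {C : ℝ} {t : J → I → ℂ} (h : Contr C t) :
    Contr C (fun i j => conj (t j i)) := by
  intro η
  set ξ : I → ℂ := fun i => ∑ j, conj (t j i) * η j with hξ
  show ∑ i, ‖ξ i‖ ^ 2 ≤ C ^ 2 * ∑ j, ‖η j‖ ^ 2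
  set S : ℝ := ∑ i, ‖ξ i‖ ^ 2 with hS
  set N : ℝ := ∑ j, ‖η j‖ ^ 2 with hN
  have hS0 : 0 ≤ S := Finset.sum_nonneg fun _ _ => by positivity
  have hN0 : 0 ≤ N := Finset.sum_nonneg fun _ _ => by positivity
  have h1 : (S : ℂ) = ∑ j, η j * conj (∑ i, t j i * ξ i) := by
    have e1 : (S : ℂ) = ∑ i, ξ i * conj (ξ i) := by
      rw [hS]
      push_cast
      apply Finset.sum_congr rfl
      intro i _
      rw [Complex.mul_conj, Complex.normSq_eq_norm_sq]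
      push_cast
      rfl
    rw [e1]
    have e2 : ∀ i, ξ i * conj (ξ i) = ∑ j, η j * (conj (t j i) * conj (ξ i)) := by
      intro i
      conv_lhs => rw [show ξ i = ∑ j, conj (t j i) * η j from rfl]
      rw [Finset.sum_mul]
      apply Finset.sum_congr rfl
      intro j _
      ring
    simp_rw [e2]
    rw [Finset.sum_comm]
    apply Finset.sum_congr rfl
    intro j _
    rw [map_sum, Finset.mul_sum]
    apply Finset.sum_congr rfl
    intro i _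
    rw [map_mul]
  have h2 : S ^ 2 ≤ N * (C ^ 2 * S) := by
    have e1 : S ^ 2 = ‖∑ j, η j * conj (∑ i, t j i * ξ i)‖ ^ 2 := by
      rw [← h1, Complex.norm_real, Real.norm_eq_abs, sq_abs]
    rw [e1]
    refine (norm_sum_mul_sq_le _ _ _).trans ?_
    apply mul_le_mul_of_nonneg_left _ hN0
    simp only [RCLike.norm_conj]
    exact h ξ
  rcases hS0.eq_or_lt with h0 | h0
  · rw [← h0]; positivity
  · have : S * S ≤ (C ^ 2 * N) * S := by nlinarith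
    exact le_of_mul_le_mul_right this h0

lemma Contr.col {C : ℝ} {t : J → I → ℂ} (h : Contr C t) (i : I) :
    ∑ j, ‖t j i‖ ^ 2 ≤ C ^ 2 := by
  classical
  have h1 := h (Pi.single i 1)
  have e1 : ∀ j, ∑ i', t j i' * (Pi.single i (1 : ℂ) : I → ℂ) i' = t j i := by
    intro j
    rw [Finset.sum_eq_single i]
    · simp
    · intro b _ hb
      rw [Pi.single_eq_of_ne hb, mul_zero]
    · simp
  have e2 : ∑ i', ‖(Pi.single i (1 : ℂ) : I → ℂ) i'‖ ^ 2 = 1 := by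
    rw [Finset.sum_eq_single i]
    · simp
    · intro b _ hb
      rw [Pi.single_eq_of_ne hb, norm_zero]
      norm_num
    · simp
  simp_rw [e1] at h1
  rwa [e2, mul_one] at h1

lemma Contr.row {C : ℝ} {t : J → I → ℂ} (h : Contr C t) (j : J) :
    ∑ i, ‖t j i‖ ^ 2 ≤ C ^ 2 := by
  have := h.adj.col j
  simpa using this

/-- `‖t B‖_HS ≤ C ‖B‖_HS`. -/
lemma Contr.hs {C : ℝ} {t : J → I → ℂ} (h : Contr C t) {L : Type*} [Fintype L] (B : I → L → ℂ) :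
    ∑ j, ∑ l, ‖∑ i, t j i * B i l‖ ^ 2 ≤ C ^ 2 * ∑ i, ∑ l, ‖B i l‖ ^ 2 := by
  rw [Finset.sum_comm, Finset.sum_comm (f := fun i l => ‖B i l‖ ^ 2), Finset.mul_sum]
  exact Finset.sum_le_sum fun l _ => h (fun i => B i l)

/-- `‖t^* B‖_HS ≤ C ‖B‖_HS`. -/
lemma Contr.hs_adj {C : ℝ} {t : J → I → ℂ} (h : Contr C t) {L : Type*} [Fintype L]
    (B : J → L → ℂ) :
    ∑ i, ∑ l, ‖∑ j, conj (t j i) * B j l‖ ^ 2 ≤ C ^ 2 * ∑ j, ∑ l, ‖B j l‖ ^ 2 :=
  h.adj.hs B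

/-- `‖B^* t‖_HS ≤ C ‖B‖_HS`. -/
lemma Contr.hs_adj' {C : ℝ} {t : J → I → ℂ} (h : Contr C t) {L : Type*} [Fintype L]
    (B : J → L → ℂ) :
    ∑ l, ∑ i, ‖∑ j, conj (B j l) * t j i‖ ^ 2 ≤ C ^ 2 * ∑ j, ∑ l, ‖B j l‖ ^ 2 := by
  have h1 := h.hs_adj B
  rw [Finset.sum_comm]
  refine le_trans (le_of_eq ?_) h1
  apply Finset.sum_congr rfl; intro i _
  apply Finset.sum_congr rfl; intro l _
  rw [← RCLike.norm_conj, map_sum]
  congr 2
  apply Finset.sum_congr rfl; intro j _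
  rw [map_mul, Complex.conj_conj, mul_comm]

end contr

section gram

variable {K A A' : Type*} [Fintype K] [Fintype A] [Fintype A']

/-- The weighted Gram matrix of a tuple of vectors. -/
def Gr (φ : A → ℝ) (W : K → A → ℂ) (c d : K) : ℂ := ∑ α, (φ α : ℂ) * (W c α * conj (W d α))

lemma norm_sq_sum_expand (a b : K → ℂ) :
    ((‖∑ c, a c * conj (b c)‖ ^ 2 : ℝ) : ℂ) =
      ∑ c, ∑ d, (a c * conj (a d)) * conj (b c * conj (b d)) := by
  have h1 : ((‖∑ c, a c * conj (b c)‖ ^ 2 : ℝ) : ℂ) =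
      (∑ c, a c * conj (b c)) * conj (∑ d, a d * conj (b d)) := by
    rw [Complex.mul_conj, Complex.normSq_eq_norm_sq]
  rw [h1, map_sum, Finset.sum_mul_sum]
  apply Finset.sum_congr rfl; intro c _
  apply Finset.sum_congr rfl; intro d _
  simp only [map_mul, Complex.conj_conj]
  ring

/-- The tensor identity. -/
lemma tensor_identity (φ : A → ℝ) (φ' : A' → ℝ) (W : K → A → ℂ) (P : K → A' → ℂ) :
    ∑ α, ∑ α', φ α * φ' α' * ‖∑ c, W c α * conj (P c α')‖ ^ 2 =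
      (∑ c, ∑ d, Gr φ W c d * conj (Gr φ' P c d)).re := by
  rw [← Complex.ofReal_re (∑ α, ∑ α', φ α * φ' α' * ‖∑ c, W c α * conj (P c α')‖ ^ 2)]
  congr 1
  push_cast
  have h1 : ∀ α α', ((φ α : ℂ) * (φ' α' : ℂ) * ((‖∑ c, W c α * conj (P c α')‖ : ℂ) ^ 2)) =
      ∑ c, ∑ d, ((φ α : ℂ) * (W c α * conj (W d α))) *
        conj ((φ' α' : ℂ) * (P c α' * conj (P d α'))) := by
    intro α α'
    have := norm_sq_sum_expand (fun c => W c α) (fun c => P c α')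
    push_cast at this
    rw [this, Finset.mul_sum]
    apply Finset.sum_congr rfl; intro c _
    rw [Finset.mul_sum]
    apply Finset.sum_congr rfl; intro d _
    simp only [map_mul, Complex.conj_ofReal]
    ring
  simp_rw [h1]
  have h2 : ∀ c d, Gr φ W c d * conj (Gr φ' P c d) =
      ∑ α, ∑ α', ((φ α : ℂ) * (W c α * conj (W d α))) *
        conj ((φ' α' : ℂ) * (P c α' * conj (P d α'))) := by
    intro c d
    rw [Gr, Gr, map_sum, Finset.sum_mul_sum]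
  simp_rw [h2]
  calc ∑ α, ∑ α', ∑ c, ∑ d, ((φ α : ℂ) * (W c α * conj (W d α))) *
        conj ((φ' α' : ℂ) * (P c α' * conj (P d α')))
      = ∑ α, ∑ c, ∑ α', ∑ d, ((φ α : ℂ) * (W c α * conj (W d α))) *
        conj ((φ' α' : ℂ) * (P c α' * conj (P d α'))) := by
        apply Finset.sum_congr rfl; intro α _
        rw [Finset.sum_comm]
    _ = ∑ c, ∑ α, ∑ d, ∑ α', ((φ α : ℂ) * (W c α * conj (W d α))) *
        conj ((φ' α' : ℂ) * (P c α' * conj (P d α'))) := by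
        rw [Finset.sum_comm]
        apply Finset.sum_congr rfl; intro c _
        apply Finset.sum_congr rfl; intro α _
        rw [Finset.sum_comm]
    _ = _ := by
        apply Finset.sum_congr rfl; intro c _
        rw [Finset.sum_comm]

/-- The trace of the weighted Gram matrix. -/
def Tr (φ : A → ℝ) (W : K → A → ℂ) : ℝ := ∑ α, φ α * ∑ c, ‖W c α‖ ^ 2

lemma Tr_nonneg {φ : A → ℝ} (hφ : ∀ α, 0 ≤ φ α) (W : K → A → ℂ) : 0 ≤ Tr φ W :=
  Finset.sum_nonneg fun α _ => mul_nonneg (hφ α) (Finset.sum_nonneg fun _ _ => by positivity)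

lemma Tr_eq (φ : A → ℝ) (W : K → A → ℂ) : ((Tr φ W : ℝ) : ℂ) = ∑ c, Gr φ W c c := by
  unfold Tr Gr
  push_cast
  rw [Finset.sum_comm]
  apply Finset.sum_congr rfl; intro α _
  rw [Finset.mul_sum]
  apply Finset.sum_congr rfl; intro c _
  rw [Complex.mul_conj, Complex.normSq_eq_norm_sq]
  push_cast
  rfl

omit [Fintype K] in
lemma Gr_diag (φ : A → ℝ) (W : K → A → ℂ) (c : K) :
    Gr φ W c c = ((∑ α, φ α * ‖W c α‖ ^ 2 : ℝ) : ℂ) := by
  unfold Gr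
  push_cast
  apply Finset.sum_congr rfl; intro α _
  rw [Complex.mul_conj, Complex.normSq_eq_norm_sq]
  push_cast
  rfl

lemma norm_Gr_le {φ ψ : A → ℝ} (h : ∀ α, |φ α| ≤ ψ α) (W : K → A → ℂ) (c d : K) :
    ‖Gr φ W c d‖ ≤ Tr ψ W := by
  classical
  have hψ : ∀ α, 0 ≤ ψ α := fun α => (abs_nonneg _).trans (h α)
  unfold Gr Tr
  refine (norm_sum_le _ _).trans (Finset.sum_le_sum fun α _ => ?_)
  rw [norm_mul, norm_mul, Complex.norm_real, RCLike.norm_conj, Real.norm_eq_abs]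
  apply mul_le_mul (h α) _ (by positivity) (hψ α)
  have h1 : ‖W c α‖ ^ 2 ≤ ∑ c, ‖W c α‖ ^ 2 :=
    Finset.single_le_sum (f := fun c => ‖W c α‖ ^ 2) (fun _ _ => by positivity) (Finset.mem_univ c)
  have h2 : ‖W d α‖ ^ 2 ≤ ∑ c, ‖W c α‖ ^ 2 :=
    Finset.single_le_sum (f := fun c => ‖W c α‖ ^ 2) (fun _ _ => by positivity) (Finset.mem_univ d)
  nlinarith [sq_nonneg (‖W c α‖ - ‖W d α‖)]

/-- Pointwise Cauchy-Schwarz bound. -/
lemma tensor_le (φ : A → ℝ) (φ' : A' → ℝ) (hφ : ∀ α, 0 ≤ φ α) (hφ' : ∀ α, 0 ≤ φ' α)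
    (W : K → A → ℂ) (P : K → A' → ℂ) :
    ∑ α, ∑ α', φ α * φ' α' * ‖∑ c, W c α * conj (P c α')‖ ^ 2 ≤ Tr φ W * Tr φ' P := by
  unfold Tr
  rw [Finset.sum_mul_sum]
  apply Finset.sum_le_sum; intro α _
  apply Finset.sum_le_sum; intro α' _
  have h1 := norm_sum_mul_sq_le Finset.univ (fun c => W c α) (fun c => conj (P c α'))
  simp only [RCLike.norm_conj] at h1
  calc φ α * φ' α' * ‖∑ c, W c α * conj (P c α')‖ ^ 2
      ≤ φ α * φ' α' * ((∑ c, ‖W c α‖ ^ 2) * ∑ c, ‖P c α'‖ ^ 2) :=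
        mul_le_mul_of_nonneg_left h1 (mul_nonneg (hφ α) (hφ' α'))
    _ = _ := by ring

/-- Closeness of Gram matrices. -/
lemma norm_Gr_sub_le {φ ψ : A → ℝ} (h : ∀ α, |φ α| ≤ ψ α) (W P : K → A → ℂ) {e : ℝ} (he : 0 ≤ e)
    (hW : Tr ψ W ≤ 1) (hP : Tr ψ P ≤ 1) (hWP : Tr ψ (fun c α => W c α - P c α) ≤ e) (c d : K) :
    ‖Gr φ W c d - Gr φ P c d‖ ≤ 2 * Real.sqrt e := by
  classical
  have hψ : ∀ α, 0 ≤ ψ α := fun α => (abs_nonneg _).trans (h α)
  have key : ∀ (a b : A → ℂ) (e : ℝ), 0 ≤ e → ∑ α, ψ α * ‖a α‖ ^ 2 ≤ e →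
      ∑ α, ψ α * ‖b α‖ ^ 2 ≤ 1 →
      ‖∑ α, (φ α : ℂ) * (a α * b α)‖ ≤ Real.sqrt e := by
    intro a b e he ha hb
    apply Real.le_sqrt_of_sq_le
    have h1 : ‖∑ α, (φ α : ℂ) * (a α * b α)‖ ≤ ∑ α, ψ α * (‖a α‖ * ‖b α‖) := by
      refine (norm_sum_le _ _).trans (Finset.sum_le_sum fun α _ => ?_)
      rw [norm_mul, norm_mul, Complex.norm_real, Real.norm_eq_abs]
      exact mul_le_mul_of_nonneg_right (h α) (by positivity)
    have h2 := weighted_cs Finset.univ ψ (fun α _ => hψ α) (fun α => ‖a α‖) (fun α => ‖b α‖)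
    have h3 : 0 ≤ ∑ α, ψ α * ‖b α‖ ^ 2 :=
      Finset.sum_nonneg fun α _ => mul_nonneg (hψ α) (by positivity)
    calc ‖∑ α, (φ α : ℂ) * (a α * b α)‖ ^ 2 ≤ (∑ α, ψ α * (‖a α‖ * ‖b α‖)) ^ 2 := by gcongr
      _ ≤ _ := h2
      _ ≤ e * 1 := mul_le_mul ha hb h3 he
      _ = e := mul_one e
  have hcomp : ∀ (V : K → A → ℂ) (c : K), ∑ α, ψ α * ‖V c α‖ ^ 2 ≤ Tr ψ V := by
    intro V c
    unfold Tr
    apply Finset.sum_le_sum; intro α _
    apply mul_le_mul_of_nonneg_left _ (hψ α)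
    exact Finset.single_le_sum (f := fun c => ‖V c α‖ ^ 2) (fun _ _ => by positivity)
      (Finset.mem_univ c)
  have e1 : Gr φ W c d - Gr φ P c d =
      ∑ α, (φ α : ℂ) * ((W c α - P c α) * conj (W d α)) +
      ∑ α, (φ α : ℂ) * ((conj (W d α - P d α)) * P c α) := by
    unfold Gr
    rw [← Finset.sum_sub_distrib, ← Finset.sum_add_distrib]
    apply Finset.sum_congr rfl; intro α _
    rw [map_sub]
    ring
  rw [e1]
  refine (norm_add_le _ _).trans ?_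
  have k1 := key (fun α => W c α - P c α) (fun α => conj (W d α)) e he
    ((hcomp (fun c α => W c α - P c α) c).trans hWP) (by
      simp only [RCLike.norm_conj]
      exact (hcomp W d).trans hW)
  have k2 := key (fun α => conj (W d α - P d α)) (fun α => P c α) e he
    (by
      simp only [RCLike.norm_conj]
      exact (hcomp (fun c α => W c α - P c α) d).trans hWP) ((hcomp P c).trans hP)
  linarith

end gram

end Pool.Agent.Lib.MP_f84017_an
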