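import Pool.Agent.Lib.MP_f84017_an.Schmidt

open scoped ComplexConjugate BigOperators

noncomputable section

set_option linter.unusedSectionVars false

namespace Pool.Agent.Lib.MP_f84017_an

variable {H : Type*} [NormedAddCommGroup H] [InnerProductSpace ℂ H]
  {H' : Type*} [NormedAddCommGroup H'] [InnerProductSpace ℂ H'] {n k m : ℕ}

lemma tuple_cs {A : Type*} [Fintype A] {φ : A → ℝ} (hφ : ∀ α, 0 ≤ φ α) (S T : Fin n → A → ℂ) :
    ‖∑ α, (φ α : ℂ) * ∑ a, S a α * T a α‖ ^ 2 ≤ Tr φ S * Tr φ T := by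
  have h1 : ‖∑ α, (φ α : ℂ) * ∑ a, S a α * T a α‖ ≤
      ∑ p : A × Fin n, φ p.1 * (‖S p.2 p.1‖ * ‖T p.2 p.1‖) := by
    rw [Fintype.sum_prod_type]
    refine (norm_sum_le _ _).trans (Finset.sum_le_sum fun α _ => ?_)
    rw [norm_mul, Complex.norm_real, Real.norm_eq_abs, abs_of_nonneg (hφ α)]
    simp only
    rw [← Finset.mul_sum]
    apply mul_le_mul_of_nonneg_left _ (hφ α)
    refine (norm_sum_le _ _).trans (Finset.sum_le_sum fun a _ => ?_)
    rw [norm_mul]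
  have h2 := weighted_cs Finset.univ (fun p : A × Fin n => φ p.1) (fun p _ => hφ p.1)
    (fun p => ‖S p.2 p.1‖) (fun p => ‖T p.2 p.1‖)
  have h3 : ∀ V : Fin n → A → ℂ, ∑ p : A × Fin n, φ p.1 * ‖V p.2 p.1‖ ^ 2 = Tr φ V := by
    intro V
    rw [Fintype.sum_prod_type]
    unfold Tr
    simp_rw [Finset.mul_sum]
  rw [h3, h3] at h2
  refine le_trans ?_ h2
  gcongr

lemma wts_scale {x : Fin k → ℝ} (hx : ∀ i, 0 ≤ x i) {M : ℝ} (hM : 0 < M)
    (hs : ∑ i, x i ^ 2 = M) : Wts (fun i => (Real.sqrt M)⁻¹ * x i) where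
  nonneg i := mul_nonneg (by positivity) (hx i)
  sum := by
    simp_rw [mul_pow]
    rw [← Finset.mul_sum, hs, inv_pow, Real.sq_sqrt hM.le, inv_mul_cancel₀ hM.ne']

/-- The main computation: normalised form of the pairing. -/
lemma pairing' {w' : Fin n → (H' →L[ℂ] H')} (s : Fin n → Fin k × Fin k → ℂ) (ξ : Fin k → H')
    (hM : 0 < ∑ i, ‖ξ i‖ ^ 2) (hN : 0 < ∑ j, ‖∑ i, (∑ a, s a (j, i) • w' a) (ξ i)‖ ^ 2) :
    ∃ (V U : Matrix (Fin k) (Fin k) ℂ) (f g : Fin k → H') (x y : Fin k → ℝ),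
    V * V.conjTranspose = 1 ∧ U.conjTranspose * U = 1 ∧ CF f ∧ CF g ∧ Wts x ∧ Wts y ∧
    ((Real.sqrt (∑ j, ‖∑ i, (∑ a, s a (j, i) • w' a) (ξ i)‖ ^ 2) : ℝ) : ℂ) =
      ((Real.sqrt (∑ i, ‖ξ i‖ ^ 2) : ℝ) : ℂ) *
        ∑ α : Fin k × Fin k, (wt y x α : ℂ) * ∑ a, twist V U s a α * compr w' f g a α := by
  obtain ⟨V, U, f, g, x, y, hV, hU, hf, hg, hx, hy, hxs, hys, heq⟩ := pairing (w := w') s ξ
  set M := ∑ i, ‖ξ i‖ ^ 2 with hMdef
  set N := ∑ j, ‖∑ i, (∑ a, s a (j, i) • w' a) (ξ i)‖ ^ 2 with hNdef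
  refine ⟨V, U, f, g, fun i => (Real.sqrt M)⁻¹ * x i, fun j => (Real.sqrt N)⁻¹ * y j, hV, hU,
    hf, hg, wts_scale hx hM hxs, wts_scale hy hN hys, ?_⟩
  have hsM : 0 < Real.sqrt M := Real.sqrt_pos.mpr hM
  have hsN : 0 < Real.sqrt N := Real.sqrt_pos.mpr hN
  have h1 : ∑ α : Fin k × Fin k, (wt (fun j => (Real.sqrt N)⁻¹ * y j)
      (fun i => (Real.sqrt M)⁻¹ * x i) α : ℂ) * ∑ a, twist V U s a α * compr w' f g a α =
      (((Real.sqrt N)⁻¹ * (Real.sqrt M)⁻¹ : ℝ) : ℂ) * (N : ℂ) := by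
    rw [heq, Finset.mul_sum]
    apply Finset.sum_congr rfl; intro α _
    unfold wt
    push_cast
    ring
  rw [h1, ← Complex.ofReal_mul, ← Complex.ofReal_mul]
  congr 1
  have h2 : N = Real.sqrt N * Real.sqrt N := (Real.mul_self_sqrt hN.le).symm
  rw [show Real.sqrt M * ((Real.sqrt N)⁻¹ * (Real.sqrt M)⁻¹ * N) =
    (Real.sqrt M * (Real.sqrt M)⁻¹) * ((Real.sqrt N)⁻¹ * N) by ring, mul_inv_cancel₀ hsM.ne',
    one_mul, inv_mul_eq_div, eq_div_iff hsN.ne']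
  exact h2.symm

/-- The completely bounded norm of the map between two good bases is at most `√n`. -/
lemma cb_bound {w : Fin n → (H →L[ℂ] H)} {w' : Fin n → (H' →L[ℂ] H')} (hw : GoodB w)
    (hw' : GoodA w') {s : Fin n → Fin k × Fin k → ℂ} {C : ℝ} (hC : 0 ≤ C)
    (h : BlockBound (fun j i => ∑ a, s a (j, i) • w a) C) :
    BlockBound (fun j i => ∑ a, s a (j, i) • w' a) (Real.sqrt n * C) := by
  intro ξ
  set M := ∑ i, ‖ξ i‖ ^ 2 with hMdef
  set N := ∑ j, ‖∑ i, (∑ a, s a (j, i) • w' a) (ξ i)‖ ^ 2 with hNdef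
  have hM0 : 0 ≤ M := Finset.sum_nonneg fun _ _ => by positivity
  have hN0 : 0 ≤ N := Finset.sum_nonneg fun _ _ => by positivity
  show N ≤ _
  rw [mul_pow, Real.sq_sqrt (Nat.cast_nonneg n)]
  rcases hN0.eq_or_lt with hN | hN
  · rw [← hN]; positivity
  rcases hM0.eq_or_lt with hM | hM
  · -- `ξ = 0`
    exfalso
    have h1 : ∀ i, ξ i = 0 := by
      intro i
      have h2 : ‖ξ i‖ ^ 2 ≤ M := Finset.single_le_sum (f := fun i => ‖ξ i‖ ^ 2)
        (fun _ _ => by positivity) (Finset.mem_univ i)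
      rw [← hM] at h2
      have h3 : ‖ξ i‖ = 0 := by
        have := sq_nonneg ‖ξ i‖
        exact pow_eq_zero_iff (two_ne_zero) |>.mp (le_antisymm h2 this)
      exact norm_eq_zero.mp h3
    have h4 : N = 0 := by
      rw [hNdef]
      simp [h1]
    linarith
  obtain ⟨V, U, f, g, x, y, hV, hU, hf, hg, hx, hy, heq⟩ := pairing' s ξ hM hN
  have h1 := tuple_cs (wt_nonneg hy.nonneg hx.nonneg) (twist V U s) (compr w' f g)
  have h2 := hw k (twist V U s) C hC (blockBound_twist hV hU h) x y hx hy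
  have h3 := hw' k f g x y hf hg hx hy
  have h4 : Tr (wt y x) (twist V U s) * Tr (wt y x) (compr w' f g) ≤ (n * C ^ 2) * 1 :=
    mul_le_mul h2 h3 (Tr_nonneg (wt_nonneg hy.nonneg hx.nonneg) _) (by positivity)
  have h5 : N = M * ‖∑ α : Fin k × Fin k, (wt y x α : ℂ) *
      ∑ a, twist V U s a α * compr w' f g a α‖ ^ 2 := by
    have e1 := congrArg (fun z : ℂ => ‖z‖ ^ 2) heq
    simp only [norm_mul, mul_pow, Complex.norm_real, Real.norm_eq_abs, sq_abs] at e1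
    rw [Real.sq_sqrt hN0, Real.sq_sqrt hM0] at e1
    exact e1
  rw [h5]
  calc M * _ ≤ M * (n * C ^ 2 * 1) := mul_le_mul_of_nonneg_left (h1.trans h4) hM0
    _ = _ := by ring

lemma BlockBound.smul_coeff {w : Fin n → (H →L[ℂ] H)} {s : Fin n → Fin k × Fin k → ℂ} {C : ℝ}
    (h : BlockBound (fun j i => ∑ a, s a (j, i) • w a) C) (c : ℝ) :
    BlockBound (fun j i => ∑ a, ((c : ℂ) * s a (j, i)) • w a) (c * C) := by
  intro ξ
  have h1 : ∀ j, ∑ i, (∑ a, ((c : ℂ) * s a (j, i)) • w a) (ξ i) =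
      (c : ℂ) • ∑ i, (∑ a, s a (j, i) • w a) (ξ i) := by
    intro j
    simp_rw [mul_smul, ← Finset.smul_sum, _root_.smul_apply, ← Finset.smul_sum]
  simp_rw [h1, norm_smul, mul_pow, Complex.norm_real, Real.norm_eq_abs, sq_abs]
  rw [← Finset.mul_sum, mul_assoc]
  exact mul_le_mul_of_nonneg_left (h ξ) (sq_nonneg c)

/-- If the map between good bases has almost maximal norm, there are near-extremal data. -/
lemma gap_datum (hn : 1 ≤ n) {w : Fin n → (H →L[ℂ] H)} {w' : Fin n → (H' →L[ℂ] H')}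
    (hw : GoodB w) (hw' : GoodA w') {s : Fin n → Fin k × Fin k → ℂ} {C : ℝ} (hC : 0 ≤ C)
    (h : BlockBound (fun j i => ∑ a, s a (j, i) • w a) C) {ε : ℝ}
    (hnot : ¬ BlockBound (fun j i => ∑ a, s a (j, i) • w' a) (Real.sqrt n * (1 - ε) * C)) :
    ∃ (s' : Fin n → Fin k × Fin k → ℂ) (x y : Fin k → ℝ) (f g : Fin k → H'),
      Wts x ∧ Wts y ∧ CF f ∧ CF g ∧
      BlockBound (fun j i => ∑ a, s' a (j, i) • w a) (1 / Real.sqrt n) ∧
      1 - ε < (∑ α : Fin k × Fin k, (wt y x α : ℂ) *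
        ∑ a, s' a α * compr w' f g a α).re := by
  have hn0 : (0 : ℝ) < n := by exact_mod_cast hn
  have hsn : 0 < Real.sqrt n := Real.sqrt_pos.mpr hn0
  have hcb := cb_bound hw hw' hC h
  unfold BlockBound at hnot
  push Not at hnot
  obtain ⟨ξ, hξ⟩ := hnot
  have hb := hcb ξ
  set M := ∑ i, ‖ξ i‖ ^ 2 with hMdef
  set N := ∑ j, ‖∑ i, (∑ a, s a (j, i) • w' a) (ξ i)‖ ^ 2 with hNdef
  have hM0 : 0 ≤ M := Finset.sum_nonneg fun _ _ => by positivity
  have hb' : N ≤ (Real.sqrt n * C) ^ 2 * M := hb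
  have hξ' : (Real.sqrt n * (1 - ε) * C) ^ 2 * M < N := hξ
  have hN : 0 < N := lt_of_le_of_lt (mul_nonneg (sq_nonneg _) hM0) hξ'
  have hM : 0 < M := by
    rcases hM0.eq_or_lt with h0 | h0
    · rw [← h0, mul_zero] at hb'; linarith
    · exact h0
  have hCpos : 0 < C := by
    rcases hC.eq_or_lt with h0 | h0
    · rw [← h0] at hb'; simp at hb'; linarith
    · exact h0
  obtain ⟨V, U, f, g, x, y, hV, hU, hf, hg, hx, hy, heq⟩ := pairing' s ξ hM hN
  set c : ℝ := (Real.sqrt n * C)⁻¹ with hc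
  have hcpos : 0 < c := by positivity
  refine ⟨fun a α => (c : ℂ) * twist V U s a α, x, y, f, g, hx, hy, hf, hg, ?_, ?_⟩
  · have h1 := (blockBound_twist hV hU h).smul_coeff c
    have h2 : c * C = 1 / Real.sqrt n := by
      rw [hc]; field_simp
    rw [h2] at h1
    exact h1
  · have h1 : ∑ α : Fin k × Fin k, (wt y x α : ℂ) *
        ∑ a, ((c : ℂ) * twist V U s a α) * compr w' f g a α =
        (c : ℂ) * ∑ α : Fin k × Fin k, (wt y x α : ℂ) *
          ∑ a, twist V U s a α * compr w' f g a α := by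
      rw [Finset.mul_sum]
      apply Finset.sum_congr rfl; intro α _
      rw [Finset.mul_sum, Finset.mul_sum, Finset.mul_sum]
      apply Finset.sum_congr rfl; intro a _
      ring
    rw [h1]
    have hsM : 0 < Real.sqrt M := Real.sqrt_pos.mpr hM
    have hsN : 0 < Real.sqrt N := Real.sqrt_pos.mpr hN
    have h2 : ∑ α : Fin k × Fin k, (wt y x α : ℂ) *
          ∑ a, twist V U s a α * compr w' f g a α = ((Real.sqrt N / Real.sqrt M : ℝ) : ℂ) := by
      rw [Complex.ofReal_div, eq_div_iff (by exact_mod_cast hsM.ne'), mul_comm]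
      exact heq.symm
    rw [h2, ← Complex.ofReal_mul, Complex.ofReal_re]
    have h3 : Real.sqrt n * (1 - ε) * C * Real.sqrt M < Real.sqrt N := by
      apply Real.lt_sqrt_of_sq_lt
      rw [mul_pow, Real.sq_sqrt hM0]
      exact hξ'
    rw [hc, inv_mul_eq_div, div_div, lt_div_iff₀ (by positivity)]
    calc (1 - ε) * (Real.sqrt M * (Real.sqrt n * C)) =
        Real.sqrt n * (1 - ε) * C * Real.sqrt M := by ring
      _ < _ := h3

end Pool.Agent.Lib.MP_f84017_an
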