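import Mathlib

open scoped BigOperators ENNReal NNReal

noncomputable section

namespace Pool.Agent.Lib.MP_f84017_an

universe u

/-- `BlockBound T C`: the operator `(ξ_i) ↦ (∑ i, T j i (ξ i))_j` on the Hilbert space `H^k` (the
`ℓ²`-sum of `k` copies of `H`) given by the `k × k` matrix `T` of bounded operators on `H` has norm
at most `|C|`, that is, the norm of `T` in `M_k(B(H)) = B(H^k)` is at most `|C|`. -/
def BlockBound {H : Type*} [NormedAddCommGroup H] [InnerProductSpace ℂ H] {k : ℕ}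
    (T : Fin k → Fin k → (H →L[ℂ] H)) (C : ℝ) : Prop :=
  ∀ ξ : Fin k → H, ∑ j, ‖∑ i, T j i (ξ i)‖ ^ 2 ≤ C ^ 2 * ∑ i, ‖ξ i‖ ^ 2

variable {H H' : Type*} [NormedAddCommGroup H] [InnerProductSpace ℂ H] [NormedAddCommGroup H']
  [InnerProductSpace ℂ H'] {E : Submodule ℂ (H →L[ℂ] H)} {F : Submodule ℂ (H' →L[ℂ] H')}

/-- `CBBound u K`: for all `k` the map `M_k(E) → M_k(F)` induced by the linear map `u : E → F`
between the operator spaces `E ⊆ B(H)` and `F ⊆ B(H')` has norm at most `K`. -/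
def CBBound (u : E →ₗ[ℂ] F) (K : ℝ≥0) : Prop :=
  ∀ (k : ℕ) (T : Fin k → Fin k → E) (C : ℝ≥0), BlockBound (fun j i => (T j i : H →L[ℂ] H)) C →
    BlockBound (fun j i => (u (T j i) : H' →L[ℂ] H')) (K * C)

/-- The completely bounded norm of `u`, the least (infimum) `K` with `CBBound u K`. -/
def cbNorm (u : E →ₗ[ℂ] F) : ℝ≥0∞ := ⨅ (K : ℝ≥0) (_ : CBBound u K), (K : ℝ≥0∞)

variable (E F) in
/-- The completely bounded Banach-Mazur distance of `E` and `F`: the infimum of
`‖u‖_cb ‖u⁻¹‖_cb` over all linear isomorphisms `u : E → F`. -/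
def dcbSub : ℝ≥0∞ := ⨅ u : E ≃ₗ[ℂ] F, cbNorm (u : E →ₗ[ℂ] F) * cbNorm (u.symm : F →ₗ[ℂ] E)

/-- An `n`-dimensional operator space, given as an `n`-dimensional subspace `E` of `B(H)` for a
complex Hilbert space `H`. -/
structure OpSpace (n : ℕ) where
  H : Type u
  instN : NormedAddCommGroup H
  instI : InnerProductSpace ℂ H
  complete : CompleteSpace H
  E : Submodule ℂ (H →L[ℂ] H)
  finrank_E : Module.finrank ℂ E = n

attribute [instance] OpSpace.instN OpSpace.instI

/-- The completely bounded Banach-Mazur distance `d_cb(A, B)` of two operator spaces. -/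
def dcb {n : ℕ} (A B : OpSpace.{u} n) : ℝ≥0∞ := dcbSub A.E B.E

end Pool.Agent.Lib.MP_f84017_an
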