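import Pool.Agent.Lib.MP_f84017_an.PairDef
import Pool.Agent.Lib.MP_f84017_an.Defs

open scoped ComplexConjugate BigOperators

noncomputable section

set_option linter.unusedSectionVars false

namespace Pool.Agent.Lib.MP_f84017_an

/-- weights -/
structure Wts {J : Type*} [Fintype J] (x : J → ℝ) : Prop where
  nonneg : ∀ i, 0 ≤ x i
  sum : ∑ i, x i ^ 2 ≤ 1

lemma Wts.prod {J J' : Type*} [Fintype J] [Fintype J'] {y : J → ℝ} {y' : J' → ℝ} (h : Wts y)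
    (h' : Wts y') : Wts (fun a : J × J' => y a.1 * y' a.2) where
  nonneg a := mul_nonneg (h.nonneg _) (h'.nonneg _)
  sum := by
    rw [Fintype.sum_prod_type]
    calc ∑ j, ∑ j', (y j * y' j') ^ 2 = (∑ j, y j ^ 2) * ∑ j', y' j' ^ 2 := by
          rw [Finset.sum_mul_sum]
          apply Finset.sum_congr rfl; intro j _
          apply Finset.sum_congr rfl; intro j' _
          ring
      _ ≤ 1 * 1 := mul_le_mul h.sum h'.sum (Finset.sum_nonneg fun _ _ => by positivity) zero_le_one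
      _ = 1 := one_mul 1

lemma Contr.wsum {J I : Type*} [Fintype J] [Fintype I] {C : ℝ} {t : J → I → ℂ} (h : Contr C t)
    {y : J → ℝ} {x : I → ℝ} (hy : Wts y) (hx : Wts x) :
    ∑ j, ∑ i, y j * x i * ‖t j i‖ ^ 2 ≤ C ^ 2 := by
  have h1 : ∑ j, ∑ i, y j ^ 2 * ‖t j i‖ ^ 2 ≤ C ^ 2 := by
    calc ∑ j, ∑ i, y j ^ 2 * ‖t j i‖ ^ 2 = ∑ j, y j ^ 2 * ∑ i, ‖t j i‖ ^ 2 := by
          simp_rw [Finset.mul_sum]
      _ ≤ ∑ j, y j ^ 2 * C ^ 2 := Finset.sum_le_sum fun j _ =>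
          mul_le_mul_of_nonneg_left (h.row j) (sq_nonneg _)
      _ = (∑ j, y j ^ 2) * C ^ 2 := by rw [Finset.sum_mul]
      _ ≤ 1 * C ^ 2 := mul_le_mul_of_nonneg_right hy.sum (sq_nonneg _)
      _ = _ := one_mul _
  have h2 : ∑ j, ∑ i, x i ^ 2 * ‖t j i‖ ^ 2 ≤ C ^ 2 := by
    rw [Finset.sum_comm]
    calc ∑ i, ∑ j, x i ^ 2 * ‖t j i‖ ^ 2 = ∑ i, x i ^ 2 * ∑ j, ‖t j i‖ ^ 2 := by
          simp_rw [Finset.mul_sum]
      _ ≤ ∑ i, x i ^ 2 * C ^ 2 := Finset.sum_le_sum fun i _ =>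
          mul_le_mul_of_nonneg_left (h.col i) (sq_nonneg _)
      _ = (∑ i, x i ^ 2) * C ^ 2 := by rw [Finset.sum_mul]
      _ ≤ 1 * C ^ 2 := mul_le_mul_of_nonneg_right hx.sum (sq_nonneg _)
      _ = _ := one_mul _
  have h3 : ∑ j, ∑ i, y j * x i * ‖t j i‖ ^ 2 ≤
      1 / 2 * ∑ j, ∑ i, y j ^ 2 * ‖t j i‖ ^ 2 + 1 / 2 * ∑ j, ∑ i, x i ^ 2 * ‖t j i‖ ^ 2 := by
    rw [Finset.mul_sum, Finset.mul_sum, ← Finset.sum_add_distrib]
    apply Finset.sum_le_sum; intro j _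
    rw [Finset.mul_sum, Finset.mul_sum, ← Finset.sum_add_distrib]
    apply Finset.sum_le_sum; intro i _
    have : y j * x i ≤ 1 / 2 * y j ^ 2 + 1 / 2 * x i ^ 2 := by nlinarith [sq_nonneg (y j - x i)]
    have := mul_le_mul_of_nonneg_right this (by positivity : (0 : ℝ) ≤ ‖t j i‖ ^ 2)
    linarith
  linarith

variable {H : Type*} [NormedAddCommGroup H] [InnerProductSpace ℂ H] {n k m : ℕ}

/-- contractive families of vectors -/
def CF (f : Fin k → H) : Prop := ∀ c : Fin k → ℂ, ‖∑ i, c i • f i‖ ^ 2 ≤ ∑ i, ‖c i‖ ^ 2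

lemma CF.bessel {g : Fin k → H} (hg : CF g) (η : H) :
    ∑ i, ‖inner ℂ (g i) η‖ ^ 2 ≤ ‖η‖ ^ 2 := by
  set c : Fin k → ℂ := fun i => inner ℂ (g i) η with hc
  set S : ℝ := ∑ i, ‖c i‖ ^ 2 with hS
  have hS0 : 0 ≤ S := Finset.sum_nonneg fun _ _ => by positivity
  have h1 : (S : ℂ) = inner ℂ (∑ i, c i • g i) η := by
    rw [sum_inner, hS]
    push_cast
    apply Finset.sum_congr rfl; intro i _
    rw [inner_smul_left]
    show _ = conj (c i) * c i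
    rw [mul_comm, Complex.mul_conj, Complex.normSq_eq_norm_sq]
    push_cast; rfl
  have h2 : S ≤ ‖∑ i, c i • g i‖ * ‖η‖ := by
    calc S = ‖(S : ℂ)‖ := by rw [Complex.norm_real, Real.norm_eq_abs, abs_of_nonneg hS0]
      _ ≤ _ := by rw [h1]; exact norm_inner_le_norm _ _
  have h3 : ‖∑ i, c i • g i‖ ^ 2 ≤ S := hg c
  have h4 : S ^ 2 ≤ S * ‖η‖ ^ 2 := by
    calc S ^ 2 ≤ (‖∑ i, c i • g i‖ * ‖η‖) ^ 2 := by gcongr
      _ = ‖∑ i, c i • g i‖ ^ 2 * ‖η‖ ^ 2 := by ring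
      _ ≤ S * ‖η‖ ^ 2 := mul_le_mul_of_nonneg_right h3 (by positivity)
  rcases hS0.eq_or_lt with h0 | h0
  · show S ≤ _
    rw [← h0]; positivity
  · have : S * S ≤ S * ‖η‖ ^ 2 := by nlinarith
    exact le_of_mul_le_mul_left this h0

/-- compressions of a tuple of operators -/
def compr (w : Fin n → (H →L[ℂ] H)) (f g : Fin k → H) (a : Fin n) (α : Fin k × Fin k) : ℂ :=
  inner ℂ (g α.1) (w a (f α.2))

lemma compr_contr (T : H →L[ℂ] H) {C : ℝ} (hT : ‖T‖ ≤ C) {f g : Fin k → H} (hf : CF f)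
    (hg : CF g) : Contr C (fun j i => inner ℂ (g j) (T (f i))) := by
  intro c
  have h1 : ∀ j, ∑ i, inner ℂ (g j) (T (f i)) * c i = inner ℂ (g j) (T (∑ i, c i • f i)) := by
    intro j
    rw [map_sum, inner_sum]
    apply Finset.sum_congr rfl; intro i _
    rw [map_smul, inner_smul_right, mul_comm]
  simp_rw [h1]
  refine (hg.bessel _).trans ?_
  have h2 : ‖T (∑ i, c i • f i)‖ ≤ C * ‖∑ i, c i • f i‖ :=
    (T.le_opNorm _).trans (mul_le_mul_of_nonneg_right hT (norm_nonneg _))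
  calc ‖T (∑ i, c i • f i)‖ ^ 2 ≤ (C * ‖∑ i, c i • f i‖) ^ 2 := by gcongr
    _ = C ^ 2 * ‖∑ i, c i • f i‖ ^ 2 := by ring
    _ ≤ _ := mul_le_mul_of_nonneg_left (hf c) (sq_nonneg _)

/-- The tensor with a compression. -/
lemma tensor_contr {w : Fin n → (H →L[ℂ] H)} {s : Fin n → Fin m × Fin m → ℂ} {C : ℝ}
    (h : BlockBound (fun j i => ∑ a, s a (j, i) • w a) C) {f g : Fin k → H} (hf : CF f)
    (hg : CF g) :
    Contr C (fun (J : Fin k × Fin m) (I : Fin k × Fin m) =>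
      ∑ a, compr w f g a (J.1, I.1) * s a (J.2, I.2)) := by
  intro c
  set ξ : Fin m → H := fun i => ∑ i', c (i', i) • f i' with hξ
  set η : Fin m → H := fun j => ∑ i, (∑ a, s a (j, i) • w a) (ξ i) with hη
  have h1 : ∑ j, ‖η j‖ ^ 2 ≤ C ^ 2 * ∑ i, ‖ξ i‖ ^ 2 := h ξ
  have h2 : ∑ i, ‖ξ i‖ ^ 2 ≤ ∑ i, ‖c i‖ ^ 2 := by
    rw [Fintype.sum_prod_type, Finset.sum_comm]
    exact Finset.sum_le_sum fun i _ => hf (fun i' => c (i', i))
  have h3 : ∀ J : Fin k × Fin m, ∑ I : Fin k × Fin m,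
      (∑ a, compr w f g a (J.1, I.1) * s a (J.2, I.2)) * c I = inner ℂ (g J.1) (η J.2) := by
    intro J
    simp only [hη, hξ, compr]
    rw [inner_sum, Fintype.sum_prod_type, Finset.sum_comm]
    apply Finset.sum_congr rfl; intro i _
    rw [map_sum, inner_sum]
    apply Finset.sum_congr rfl; intro i' _
    rw [map_smul, inner_smul_right, _root_.sum_apply, inner_sum, mul_comm]
    congr 1
    apply Finset.sum_congr rfl; intro a _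
    rw [_root_.smul_apply, inner_smul_right, mul_comm]
  simp_rw [h3]
  rw [Fintype.sum_prod_type, Finset.sum_comm]
  calc ∑ j, ∑ j', ‖inner ℂ (g j') (η j)‖ ^ 2 ≤ ∑ j, ‖η j‖ ^ 2 :=
        Finset.sum_le_sum fun j _ => hg.bessel _
    _ ≤ C ^ 2 * ∑ i, ‖ξ i‖ ^ 2 := h1
    _ ≤ _ := mul_le_mul_of_nonneg_left h2 (sq_nonneg _)

/-- Property (a'). -/
def GoodA (w : Fin n → (H →L[ℂ] H)) : Prop :=
  ∀ (k : ℕ) (f g : Fin k → H) (x y : Fin k → ℝ), CF f → CF g → Wts x → Wts y →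
    Tr (wt y x) (compr w f g) ≤ 1

/-- Property (b'). -/
def GoodB (w : Fin n → (H →L[ℂ] H)) : Prop :=
  ∀ (k : ℕ) (s : Fin n → Fin k × Fin k → ℂ) (C : ℝ), 0 ≤ C →
    BlockBound (fun j i => ∑ a, s a (j, i) • w a) C →
    ∀ x y : Fin k → ℝ, Wts x → Wts y → Tr (wt y x) s ≤ n * C ^ 2

lemma cf_single {v : H} (hv : ‖v‖ ≤ 1) : CF (fun _ : Fin 1 => v) := by
  intro c
  simp only [Fin.sum_univ_one]
  rw [norm_smul, mul_pow]
  have : ‖v‖ ^ 2 ≤ 1 := by nlinarith [norm_nonneg v]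
  nlinarith [sq_nonneg ‖c 0‖]

lemma wts_one : Wts (fun _ : Fin 1 => (1 : ℝ)) := ⟨fun _ => zero_le_one, by simp⟩

lemma GoodA.norm_le {w : Fin n → (H →L[ℂ] H)} (h : GoodA w) (a : Fin n) : ‖w a‖ ≤ 1 := by
  apply ContinuousLinearMap.opNorm_le_bound _ zero_le_one
  intro ξ
  rw [one_mul]
  rcases eq_or_ne ξ 0 with h0 | h0
  · rw [h0]; simp
  rcases eq_or_ne (w a ξ) 0 with h1 | h1
  · rw [h1]; simp
  have hξ : 0 < ‖ξ‖ := norm_pos_iff.mpr h0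
  have hη : 0 < ‖w a ξ‖ := norm_pos_iff.mpr h1
  have hn : ∀ v : H, v ≠ 0 → ‖(((‖v‖⁻¹ : ℝ)) : ℂ) • v‖ ≤ 1 := by
    intro v hv
    rw [norm_smul, Complex.norm_real, norm_inv, norm_norm,
      inv_mul_cancel₀ (norm_pos_iff.mpr hv).ne']
  have h2 := h 1 (fun _ => (((‖ξ‖⁻¹ : ℝ)) : ℂ) • ξ) (fun _ => (((‖w a ξ‖⁻¹ : ℝ)) : ℂ) • w a ξ)
    (fun _ => 1) (fun _ => 1) (cf_single (hn ξ h0)) (cf_single (hn _ h1)) wts_one wts_one
  have h3 : ‖compr w (fun _ : Fin 1 => (((‖ξ‖⁻¹ : ℝ)) : ℂ) • ξ)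
      (fun _ => (((‖w a ξ‖⁻¹ : ℝ)) : ℂ) • w a ξ) a (0, 0)‖ ^ 2 ≤ 1 := by
    refine le_trans ?_ h2
    unfold Tr wt
    rw [Fintype.sum_prod_type]
    simp only [Fin.sum_univ_one, one_mul]
    exact Finset.single_le_sum (f := fun c => ‖compr w (fun _ : Fin 1 => (((‖ξ‖⁻¹ : ℝ)) : ℂ) • ξ)
      (fun _ => (((‖w a ξ‖⁻¹ : ℝ)) : ℂ) • w a ξ) c (0, 0)‖ ^ 2) (fun _ _ => by positivity)
      (Finset.mem_univ a)
  have h4 : ‖compr w (fun _ : Fin 1 => (((‖ξ‖⁻¹ : ℝ)) : ℂ) • ξ)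
      (fun _ => (((‖w a ξ‖⁻¹ : ℝ)) : ℂ) • w a ξ) a (0, 0)‖ = ‖ξ‖⁻¹ * ‖w a ξ‖ := by
    unfold compr
    simp only
    rw [map_smul, inner_smul_left, inner_smul_right, norm_mul, norm_mul, RCLike.norm_conj,
      Complex.norm_real, Complex.norm_real, norm_inv, norm_norm, norm_inv, norm_norm,
      inner_self_eq_norm_sq_to_K, norm_pow]
    rw [RCLike.norm_ofReal, abs_norm]
    field_simp
  rw [h4] at h3
  have h5 : ‖ξ‖⁻¹ * ‖w a ξ‖ ≤ 1 := by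
    have h6 : (‖ξ‖⁻¹ * ‖w a ξ‖) ^ 2 ≤ 1 ^ 2 := by rw [one_pow]; exact h3
    exact le_of_sq_le_sq h6 zero_le_one
  have h7 := mul_le_mul_of_nonneg_left h5 hξ.le
  rwa [← mul_assoc, mul_inv_cancel₀ hξ.ne', one_mul, mul_one] at h7

end Pool.Agent.Lib.MP_f84017_an
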