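import Pool.Agent.Lib.MP_f84017_an.Compress

open scoped ComplexConjugate BigOperators ComplexOrder

noncomputable section

set_option linter.unusedSectionVars false

namespace Pool.Agent.Lib.MP_f84017_an

variable {H : Type*} [NormedAddCommGroup H] [InnerProductSpace ℂ H] {n k m : ℕ}

/-- linear combinations of a tuple -/
def lin (V : Fin n → (H →L[ℂ] H)) (B : Fin n → Fin n → ℂ) (a : Fin n) : H →L[ℂ] H :=
  ∑ b, B a b • V b

lemma compr_lin (V : Fin n → (H →L[ℂ] H)) (B : Fin n → Fin n → ℂ) (f g : Fin k → H) (a : Fin n)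
    (α : Fin k × Fin k) : compr (lin V B) f g a α = ∑ b, B a b * compr V f g b α := by
  unfold compr lin
  rw [_root_.sum_apply, inner_sum]
  apply Finset.sum_congr rfl; intro b _
  rw [_root_.smul_apply, inner_smul_right]

lemma lin_lin (V : Fin n → (H →L[ℂ] H)) (B K : Fin n → Fin n → ℂ) :
    lin (lin V B) K = lin V (fun a c => ∑ b, K a b * B b c) := by
  funext a
  unfold lin
  simp_rw [Finset.smul_sum, smul_smul, Finset.sum_smul]
  rw [Finset.sum_comm]

/-- A determinant inequality. -/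
lemma trace_le_of_det {M : Matrix (Fin n) (Fin n) ℂ}
    (h : ∀ t : ℝ, 0 < t → t ≤ 1 → ((1 + (t : ℂ) • M).det).re ≤ 1) : M.trace.re ≤ 0 := by
  set q : Polynomial ℂ := (Matrix.det (1 + (Polynomial.X : Polynomial ℂ) •
    M.map Polynomial.C)).divX.divX with hq
  have h1 : ∀ t : ℝ, 0 < t → t ≤ 1 → M.trace.re + t * (q.eval (t : ℂ)).re ≤ 0 := by
    intro t ht ht1
    have h2 := h t ht ht1
    rw [Matrix.det_one_add_smul] at h2
    have h3 : (1 + M.trace * (t : ℂ) + q.eval (t : ℂ) * (t : ℂ) ^ 2).re =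
        1 + t * M.trace.re + t ^ 2 * (q.eval (t : ℂ)).re := by
      rw [mul_comm M.trace, mul_comm (q.eval (t : ℂ)), ← Complex.ofReal_pow, Complex.add_re,
        Complex.add_re, Complex.re_ofReal_mul, Complex.re_ofReal_mul, Complex.one_re]
    rw [← hq, h3] at h2
    have h4 : t * (M.trace.re + t * (q.eval (t : ℂ)).re) ≤ 0 := by nlinarith
    by_contra h5
    push Not at h5
    nlinarith [mul_pos ht h5]
  have h2 : Filter.Tendsto (fun t : ℝ => M.trace.re + t * (q.eval (t : ℂ)).re)
      (nhdsWithin 0 (Set.Ioi 0)) (nhds (M.trace.re + 0 * (q.eval ((0 : ℝ) : ℂ)).re)) := by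
    apply tendsto_nhdsWithin_of_tendsto_nhds
    have : Continuous (fun t : ℝ => M.trace.re + t * (q.eval (t : ℂ)).re) := by
      have c1 : Continuous (fun t : ℝ => q.eval (t : ℂ)) :=
        q.continuous.comp Complex.continuous_ofReal
      have c2 : Continuous (fun t : ℝ => (q.eval (t : ℂ)).re) := Complex.continuous_re.comp c1
      fun_prop
    exact this.tendsto 0
  rw [zero_mul, add_zero] at h2
  refine le_of_tendsto h2 ?_
  filter_upwards [Ioo_mem_nhdsGT (zero_lt_one' ℝ)] with t ht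
  exact h1 t ht.1 ht.2.le

/-- `∑_a |∑_b K_ab z_b|²` as a quadratic form. -/
lemma quad_form (K : Matrix (Fin n) (Fin n) ℂ) (z : Fin n → ℂ) :
    ((∑ a, ‖∑ b, K a b * z b‖ ^ 2 : ℝ) : ℂ) =
      ∑ b, ∑ c, (K.conjTranspose * K) b c * (conj (z b) * z c) := by
  have h1 : ∀ a, ((‖∑ b, K a b * z b‖ ^ 2 : ℝ) : ℂ) =
      ∑ b, ∑ c, (conj (K a b) * K a c) * (conj (z b) * z c) := by
    intro a
    have : ((‖∑ b, K a b * z b‖ ^ 2 : ℝ) : ℂ) =
        conj (∑ b, K a b * z b) * (∑ c, K a c * z c) := by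
      rw [mul_comm, Complex.mul_conj, Complex.normSq_eq_norm_sq]
    rw [this, map_sum, Finset.sum_mul_sum]
    apply Finset.sum_congr rfl; intro b _
    apply Finset.sum_congr rfl; intro c _
    rw [map_mul]; ring
  rw [Complex.ofReal_sum]
  simp_rw [h1]
  rw [Finset.sum_comm]
  apply Finset.sum_congr rfl; intro b _
  rw [Finset.sum_comm]
  apply Finset.sum_congr rfl; intro c _
  rw [Matrix.mul_apply, Finset.sum_mul]
  apply Finset.sum_congr rfl; intro a _
  rw [Matrix.conjTranspose_apply]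
  rfl

/-- The trace after a change of the tuple. -/
lemma Tr_change (K : Matrix (Fin n) (Fin n) ℂ) {A : Type*} [Fintype A] (φ : A → ℝ)
    (Z : Fin n → A → ℂ) :
    Tr φ (fun a α => ∑ b, K a b * Z b α) =
      (∑ b, ∑ c, (K.conjTranspose * K) b c * Gr φ Z c b).re := by
  have h1 : ((Tr φ (fun a α => ∑ b, K a b * Z b α) : ℝ) : ℂ) =
      ∑ b, ∑ c, (K.conjTranspose * K) b c * Gr φ Z c b := by
    unfold Tr Gr
    rw [Complex.ofReal_sum]
    have h2 : ∀ α, ((φ α * ∑ a, ‖∑ b, K a b * Z b α‖ ^ 2 : ℝ) : ℂ) =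
        ∑ b, ∑ c, (K.conjTranspose * K) b c * ((φ α : ℂ) * (Z c α * conj (Z b α))) := by
      intro α
      rw [Complex.ofReal_mul, quad_form K (fun b => Z b α), Finset.mul_sum]
      apply Finset.sum_congr rfl; intro b _
      rw [Finset.mul_sum]
      apply Finset.sum_congr rfl; intro c _
      ring
    simp_rw [h2]
    rw [Finset.sum_comm]
    apply Finset.sum_congr rfl; intro b _
    rw [Finset.sum_comm]
    apply Finset.sum_congr rfl; intro c _
    rw [Finset.mul_sum]
  rw [← h1, Complex.ofReal_re]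

open scoped MatrixOrder Matrix.Norms.L2Operator ComplexOrder in
lemma exists_factor {A : Matrix (Fin n) (Fin n) ℂ} (hA : A.PosSemidef) :
    ∃ K : Matrix (Fin n) (Fin n) ℂ, A = K.conjTranspose * K := by
  obtain ⟨B, hB⟩ := CStarAlgebra.nonneg_iff_eq_star_mul_self.mp hA.nonneg
  exact ⟨B, hB⟩

/-- If a tuple has property (a') and all tuples obtained from it by a matrix with property (a')
have determinant at most one, then it has property (b'), first for `C > 0`. -/
lemma goodB_of_max {w : Fin n → (H →L[ℂ] H)} (hw : GoodA w)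
    (hmax : ∀ K : Matrix (Fin n) (Fin n) ℂ, GoodA (lin w K) → ‖K.det‖ ≤ 1)
    (s : Fin n → Fin k × Fin k → ℂ) {C : ℝ} (hC : 0 < C)
    (hs : BlockBound (fun j i => ∑ a, s a (j, i) • w a) C) (x' y' : Fin k → ℝ) (hx' : Wts x')
    (hy' : Wts y') : Tr (wt y' x') s ≤ n * C ^ 2 := by
  classical
  -- the matrix `D`
  set R : Matrix (Fin k × Fin k) (Fin n) ℂ :=
    fun α c => ((Real.sqrt (wt y' x' α) * C⁻¹ : ℝ) : ℂ) * s c α with hR
  set D : Matrix (Fin n) (Fin n) ℂ := R.conjTranspose * R with hD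
  have hwt : ∀ α, 0 ≤ wt y' x' α := wt_nonneg hy'.nonneg hx'.nonneg
  have hDe : ∀ b c, D b c = ((C⁻¹ ^ 2 : ℝ) : ℂ) * Gr (wt y' x') s c b := by
    intro b c
    rw [hD, Matrix.mul_apply]
    unfold Gr
    rw [Finset.mul_sum]
    apply Finset.sum_congr rfl; intro α _
    rw [Matrix.conjTranspose_apply]
    simp only [hR]
    rw [show star (((Real.sqrt (wt y' x' α) * C⁻¹ : ℝ) : ℂ) * s b α) =
      ((Real.sqrt (wt y' x' α) * C⁻¹ : ℝ) : ℂ) * conj (s b α) by
        rw [← starRingEnd_apply, map_mul, Complex.conj_ofReal]]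
    have h1 : ((wt y' x' α : ℝ) : ℂ) = (Real.sqrt (wt y' x' α) : ℂ) * (Real.sqrt (wt y' x' α) : ℂ) := by
      rw [← Complex.ofReal_mul, Real.mul_self_sqrt (hwt α)]
    rw [h1]
    push_cast
    ring
  have hDpos : D.PosSemidef := Matrix.posSemidef_conjTranspose_mul_self R
  have hDtr : D.trace = ((C⁻¹ ^ 2 * Tr (wt y' x') s : ℝ) : ℂ) := by
    rw [Matrix.trace]
    simp only [Matrix.diag_apply, hDe]
    rw [← Finset.mul_sum, ← Tr_eq]
    push_cast; ring
  -- feasibility
  have hfeas : ∀ (k' : ℕ) (f g : Fin k' → H) (x y : Fin k' → ℝ), CF f → CF g → Wts x → Wts y →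
      (∑ b, ∑ c, D b c * Gr (wt y x) (compr w f g) c b).re ≤ 1 := by
    intro k' f g x y hf hg hx hy
    have h1 := tensor_identity (wt y x) (wt y' x') (compr w f g) (fun c α => conj (s c α))
    simp only [Complex.conj_conj] at h1
    have h2 : (∑ b, ∑ c, D b c * Gr (wt y x) (compr w f g) c b).re =
        C⁻¹ ^ 2 * (∑ c, ∑ d, Gr (wt y x) (compr w f g) c d *
          conj (Gr (wt y' x') (fun c α => conj (s c α)) c d)).re := by
      rw [← Complex.re_ofReal_mul, Finset.mul_sum, Finset.sum_comm]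
      congr 1
      apply Finset.sum_congr rfl; intro c _
      rw [Finset.mul_sum]
      apply Finset.sum_congr rfl; intro b _
      rw [hDe]
      have : conj (Gr (wt y' x') (fun c α => conj (s c α)) c b) = Gr (wt y' x') s c b := by
        unfold Gr
        rw [map_sum]
        apply Finset.sum_congr rfl; intro α _
        simp only [map_mul, Complex.conj_conj, Complex.conj_ofReal]
      rw [this]
      ring
    rw [h2, ← h1]
    have ht := (tensor_contr hs hf hg).wsum (hy.prod hy') (hx.prod hx')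
    have h3 : ∑ α : Fin k' × Fin k', ∑ α' : Fin k × Fin k, wt y x α * wt y' x' α' *
        ‖∑ c, compr w f g c α * s c α'‖ ^ 2 =
        ∑ j : Fin k' × Fin k, ∑ i : Fin k' × Fin k, y j.1 * y' j.2 * (x i.1 * x' i.2) *
          ‖∑ a, compr w f g a (j.1, i.1) * s a (j.2, i.2)‖ ^ 2 := by
      rw [sum_rows (fun α α' => wt y x α * wt y' x' α' * ‖∑ c, compr w f g c α * s c α'‖ ^ 2)]
      rw [Fintype.sum_prod_type]
      apply Finset.sum_congr rfl; intro j _
      apply Finset.sum_congr rfl; intro j' _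
      rw [Fintype.sum_prod_type]
      apply Finset.sum_congr rfl; intro i _
      apply Finset.sum_congr rfl; intro i' _
      unfold wt
      ring
    rw [h3]
    calc C⁻¹ ^ 2 * _ ≤ C⁻¹ ^ 2 * C ^ 2 := mul_le_mul_of_nonneg_left ht (by positivity)
      _ = 1 := by field_simp
  -- the determinant inequality
  have hdet : ∀ t : ℝ, 0 < t → t ≤ 1 → ((1 + (t : ℂ) • (D - 1)).det).re ≤ 1 := by
    intro t ht ht1
    have e1 : (1 : Matrix (Fin n) (Fin n) ℂ) + (t : ℂ) • (D - 1) =
        ((1 - t : ℝ) : ℂ) • (1 : Matrix (Fin n) (Fin n) ℂ) + (t : ℂ) • D := by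
      rw [smul_sub]
      push_cast
      rw [sub_smul, one_smul]
      abel
    have hpos : (((1 - t : ℝ) : ℂ) • (1 : Matrix (Fin n) (Fin n) ℂ) + (t : ℂ) • D).PosSemidef := by
      apply Matrix.PosSemidef.add
      · exact Matrix.PosSemidef.one.smul (by
          rw [Complex.zero_le_real]; linarith)
      · exact hDpos.smul (by rw [Complex.zero_le_real]; exact ht.le)
    obtain ⟨K, hK⟩ := exists_factor hpos
    have hKA : GoodA (lin w K) := by
      intro k' f g x y hf hg hx hy
      have h1 : compr (lin w K) f g = fun a α => ∑ b, K a b * compr w f g b α := by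
        funext a α
        exact compr_lin w K f g a α
      rw [h1, Tr_change, ← hK]
      have h2 : (∑ b, ∑ c, (((1 - t : ℝ) : ℂ) • (1 : Matrix (Fin n) (Fin n) ℂ) +
          (t : ℂ) • D) b c * Gr (wt y x) (compr w f g) c b).re =
          (1 - t) * Tr (wt y x) (compr w f g) +
          t * (∑ b, ∑ c, D b c * Gr (wt y x) (compr w f g) c b).re := by
        have h3 : ∑ b, ∑ c, (((1 - t : ℝ) : ℂ) • (1 : Matrix (Fin n) (Fin n) ℂ) +
          (t : ℂ) • D) b c * Gr (wt y x) (compr w f g) c b =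
          ((1 - t : ℝ) : ℂ) * ∑ b, Gr (wt y x) (compr w f g) b b +
          (t : ℂ) * ∑ b, ∑ c, D b c * Gr (wt y x) (compr w f g) c b := by
          rw [Finset.mul_sum, Finset.mul_sum, ← Finset.sum_add_distrib]
          apply Finset.sum_congr rfl; intro b _
          simp only [Matrix.add_apply, Matrix.smul_apply, smul_eq_mul, add_mul]
          rw [Finset.sum_add_distrib, Finset.mul_sum]
          congr 1
          · rw [Finset.sum_eq_single b]
            · rw [Matrix.one_apply_eq, mul_one]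
            · intro c _ hc
              rw [Matrix.one_apply_ne hc.symm, mul_zero, zero_mul]
            · simp
          · apply Finset.sum_congr rfl; intro c _
            ring
        rw [h3, Complex.add_re, Complex.re_ofReal_mul, Complex.re_ofReal_mul, ← Tr_eq,
          Complex.ofReal_re]
      rw [h2]
      have h3 := hfeas k' f g x y hf hg hx hy
      have h4 := hw k' f g x y hf hg hx hy
      nlinarith [mul_le_mul_of_nonneg_left h3 ht.le,
        mul_le_mul_of_nonneg_left h4 (by linarith : (0 : ℝ) ≤ 1 - t)]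
    have h5 := hmax K hKA
    rw [e1, hK, Matrix.det_mul, Matrix.det_conjTranspose]
    have h6 : star K.det * K.det = ((‖K.det‖ ^ 2 : ℝ) : ℂ) := by
      rw [← starRingEnd_apply, mul_comm, Complex.mul_conj, Complex.normSq_eq_norm_sq]
    rw [h6, Complex.ofReal_re]
    nlinarith [norm_nonneg K.det]
  have h1 := trace_le_of_det hdet
  rw [Matrix.trace_sub, Matrix.trace_one, Complex.sub_re, hDtr, Complex.ofReal_re] at h1
  simp only [Fintype.card_fin, Complex.natCast_re] at h1
  have h2 : C⁻¹ ^ 2 * Tr (wt y' x') s ≤ n := by linarith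
  have h3 := mul_le_mul_of_nonneg_left h2 (sq_nonneg C)
  have h4 : C ^ 2 * (C⁻¹ ^ 2 * Tr (wt y' x') s) = Tr (wt y' x') s := by field_simp
  rw [h4] at h3
  linarith

end Pool.Agent.Lib.MP_f84017_an
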