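import Pool.Agent.Lib.MP_f84017_an.Defs
import Pool.Agent.Lib.MP_f84017_an.CBBound

open scoped ComplexConjugate BigOperators ENNReal

noncomputable section

set_option linter.unusedSectionVars false

namespace Pool.Agent.Lib.MP_f84017_an

variable {H : Type*} [NormedAddCommGroup H] [InnerProductSpace ℂ H]
  {H' : Type*} [NormedAddCommGroup H'] [InnerProductSpace ℂ H'] {n k m : ℕ}

/-- complete boundedness of a change of tuples -/
def CBTuple (w : Fin n → (H →L[ℂ] H)) (w' : Fin n → (H' →L[ℂ] H')) (K : ℝ) : Prop :=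
  ∀ (k : ℕ) (s : Fin n → Fin k × Fin k → ℂ) (C : ℝ), 0 ≤ C →
    BlockBound (fun j i => ∑ a, s a (j, i) • w a) C →
    BlockBound (fun j i => ∑ a, s a (j, i) • w' a) (K * C)

lemma cbNorm_le {E : Submodule ℂ (H →L[ℂ] H)} {F : Submodule ℂ (H' →L[ℂ] H')}
    (b : Module.Basis (Fin n) ℂ E) (b' : Module.Basis (Fin n) ℂ F) {K : ℝ} (hK : 0 ≤ K)
    (h : CBTuple (fun a => (b a : H →L[ℂ] H)) (fun a => (b' a : H' →L[ℂ] H')) K)
    (u : E →ₗ[ℂ] F) (hu : ∀ a, u (b a) = b' a) : cbNorm u ≤ ENNReal.ofReal K := by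
  unfold cbNorm
  refine iInf₂_le (K.toNNReal) ?_
  intro k T C hT
  set s : Fin n → Fin k × Fin k → ℂ := fun a α => b.repr (T α.1 α.2) a with hs
  have h1 : (fun j i => ∑ a, s a (j, i) • (b a : H →L[ℂ] H)) =
      fun j i => (T j i : H →L[ℂ] H) := by
    funext j i
    have := b.sum_repr (T j i)
    conv_rhs => rw [← this]
    rw [Submodule.coe_sum]
    rfl
  have h2 : (fun j i => ∑ a, s a (j, i) • (b' a : H' →L[ℂ] H')) =
      fun j i => (u (T j i) : H' →L[ℂ] H') := by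
    funext j i
    have := b.sum_repr (T j i)
    conv_rhs => rw [← this]
    rw [map_sum, Submodule.coe_sum]
    apply Finset.sum_congr rfl; intro a _
    rw [map_smul, hu]
    rfl
  have h3 := h k s C C.2 (by rw [h1]; exact hT)
  rw [h2] at h3
  rw [Real.coe_toNNReal K hK]
  exact h3

lemma exists_gap (A B : OpSpace n) (b : Module.Basis (Fin n) ℂ A.E)
    (b' : Module.Basis (Fin n) ℂ B.E)
    (hbA : GoodA (fun a => (b a : A.H →L[ℂ] A.H)))
    (hb'B : GoodB (fun a => (b' a : B.H →L[ℂ] B.H)))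
    {ε : ℝ} (hε : ε ≤ 1)
    (hd : ENNReal.ofReal (n * (1 - ε)) < dcb A B) :
    ∃ (k : ℕ) (s : Fin n → Fin k × Fin k → ℂ) (C : ℝ), 0 ≤ C ∧
      BlockBound (fun j i => ∑ a, s a (j, i) • (b a : A.H →L[ℂ] A.H)) C ∧
      ¬ BlockBound (fun j i => ∑ a, s a (j, i) • (b' a : B.H →L[ℂ] B.H))
        (Real.sqrt n * (1 - ε) * C) := by
  by_contra hcon
  push Not at hcon
  set u : A.E ≃ₗ[ℂ] B.E := b.equiv b' (Equiv.refl _) with hu
  have h1 : cbNorm (u : A.E →ₗ[ℂ] B.E) ≤ ENNReal.ofReal (Real.sqrt n * (1 - ε)) := by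
    apply cbNorm_le b b' (mul_nonneg (Real.sqrt_nonneg _) (by linarith))
    · intro k s C hC hB
      exact hcon k s C hC hB
    · intro a
      simp [hu]
  have h2 : cbNorm (u.symm : B.E →ₗ[ℂ] A.E) ≤ ENNReal.ofReal (Real.sqrt n) := by
    apply cbNorm_le b' b (Real.sqrt_nonneg _)
    · intro k s C hC hB
      exact cb_bound hb'B hbA hC hB
    · intro a
      simp [hu]
  have h3 : dcb A B ≤ ENNReal.ofReal (Real.sqrt n * (1 - ε)) * ENNReal.ofReal (Real.sqrt n) :=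
    (iInf_le _ u).trans (mul_le_mul' h1 h2)
  rw [← ENNReal.ofReal_mul (mul_nonneg (Real.sqrt_nonneg _) (by linarith))] at h3
  have h4 : Real.sqrt n * (1 - ε) * Real.sqrt n = n * (1 - ε) := by
    have := Real.mul_self_sqrt (Nat.cast_nonneg (α := ℝ) n)
    linear_combination (1 - ε) * this
  rw [h4] at h3
  exact absurd hd (not_lt.mpr h3)

/-- The coefficient matrices are contractions. -/
lemma coeff_contr (hn : 1 ≤ n) {w : Fin n → (H →L[ℂ] H)} (hw : GoodB w)
    {s : Fin n → Fin k × Fin k → ℂ}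
    (h : BlockBound (fun j i => ∑ a, s a (j, i) • w a) (1 / Real.sqrt n)) (a : Fin n) :
    Contr 1 (fun j i => s a (j, i)) := by
  intro ξ
  have hn0 : (0 : ℝ) < n := by exact_mod_cast hn
  set C : ℝ := 1 / Real.sqrt n with hC
  have hC2 : n * C ^ 2 = 1 := by
    rw [hC, div_pow, Real.sq_sqrt hn0.le, one_pow]
    field_simp
  have hC0 : 0 ≤ C := by positivity
  set η : Fin k → ℂ := fun j => ∑ i, s a (j, i) * ξ i with hη
  show ∑ j, ‖η j‖ ^ 2 ≤ _
  rw [one_pow, one_mul]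
  set N := ∑ j, ‖η j‖ ^ 2 with hN
  set M := ∑ i, ‖ξ i‖ ^ 2 with hM
  have hN0 : 0 ≤ N := Finset.sum_nonneg fun _ _ => by positivity
  have hM0 : 0 ≤ M := Finset.sum_nonneg fun _ _ => by positivity
  -- the one-by-one compression
  set σ : Fin n → ℂ := fun c => ∑ j, conj (η j) * ∑ i, s c (j, i) * ξ i with hσ
  have hσa : σ a = (N : ℂ) := by
    simp only [hσ, hN]
    push_cast
    apply Finset.sum_congr rfl; intro j _
    rw [mul_comm]
    show η j * conj (η j) = _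
    rw [Complex.mul_conj, Complex.normSq_eq_norm_sq]
    push_cast; rfl
  have hbb : BlockBound (fun (_ _ : Fin 1) => ∑ c, σ c • w c) (C * Real.sqrt (N * M)) := by
    intro ζ
    simp only [Fin.sum_univ_one]
    set z := ζ 0 with hz
    have h1 := h (fun i => ξ i • z)
    set out : Fin k → H := fun j => ∑ i, (∑ c, s c (j, i) • w c) (ξ i • z) with hout
    have h2 : (∑ c, σ c • w c) z = ∑ j, conj (η j) • out j := by
      simp only [hσ, hout, _root_.sum_apply, _root_.smul_apply, map_smul, Finset.smul_sum,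
        smul_smul, Finset.sum_smul, Finset.mul_sum]
      rw [Finset.sum_comm]
      apply Finset.sum_congr rfl; intro j _
      rw [Finset.sum_comm]
      apply Finset.sum_congr rfl; intro i _
      apply Finset.sum_congr rfl; intro c _
      congr 1
      ring
    have h3 : ‖∑ j, conj (η j) • out j‖ ^ 2 ≤ N * ∑ j, ‖out j‖ ^ 2 := by
      have e1 : ‖∑ j, conj (η j) • out j‖ ≤ ∑ j, ‖η j‖ * ‖out j‖ := by
        refine (norm_sum_le _ _).trans (Finset.sum_le_sum fun j _ => ?_)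
        rw [norm_smul, RCLike.norm_conj]
      calc ‖∑ j, conj (η j) • out j‖ ^ 2 ≤ (∑ j, ‖η j‖ * ‖out j‖) ^ 2 := by gcongr
        _ ≤ _ := Finset.sum_mul_sq_le_sq_mul_sq Finset.univ (fun j => ‖η j‖) (fun j => ‖out j‖)
    have h4 : ∑ i, ‖ξ i • z‖ ^ 2 = M * ‖z‖ ^ 2 := by
      rw [hM, Finset.sum_mul]
      apply Finset.sum_congr rfl; intro i _
      rw [norm_smul, mul_pow]
    rw [h2]
    calc ‖∑ j, conj (η j) • out j‖ ^ 2 ≤ N * ∑ j, ‖out j‖ ^ 2 := h3
      _ ≤ N * (C ^ 2 * ∑ i, ‖ξ i • z‖ ^ 2) := mul_le_mul_of_nonneg_left h1 hN0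
      _ = (C * Real.sqrt (N * M)) ^ 2 * ‖z‖ ^ 2 := by
          rw [h4, mul_pow, Real.sq_sqrt (mul_nonneg hN0 hM0)]
          ring
  have h5 := hw 1 (fun c _ => σ c) (C * Real.sqrt (N * M)) (by positivity) hbb (fun _ => 1)
    (fun _ => 1) wts_one wts_one
  have h6 : ‖σ a‖ ^ 2 ≤ Tr (wt (fun _ : Fin 1 => (1 : ℝ)) (fun _ : Fin 1 => (1 : ℝ)))
      (fun c (_ : Fin 1 × Fin 1) => σ c) := by
    unfold Tr wt
    rw [Fintype.sum_prod_type]
    simp only [Fin.sum_univ_one, one_mul]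
    exact Finset.single_le_sum (f := fun c => ‖σ c‖ ^ 2) (fun _ _ => by positivity)
      (Finset.mem_univ a)
  have h7 : N ^ 2 ≤ N * M := by
    have e1 : ‖σ a‖ ^ 2 = N ^ 2 := by
      rw [hσa, Complex.norm_real, Real.norm_eq_abs, sq_abs]
    rw [← e1]
    refine h6.trans (h5.trans (le_of_eq ?_))
    rw [mul_pow, Real.sq_sqrt (mul_nonneg hN0 hM0), ← mul_assoc, hC2, one_mul]
  rcases hN0.eq_or_lt with h0 | h0
  · rw [← h0]; exact hM0
  · have : N * N ≤ N * M := by nlinarith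
    exact le_of_mul_le_mul_left this h0

lemma Contr.conj {J I : Type*} [Fintype J] [Fintype I] {C : ℝ} {t : J → I → ℂ} (h : Contr C t) :
    Contr C (fun j i => (starRingEnd ℂ) (t j i)) := by
  intro ξ
  have h1 := h (fun i => (starRingEnd ℂ) (ξ i))
  simp only [RCLike.norm_conj] at h1
  refine le_trans (le_of_eq ?_) h1
  apply Finset.sum_congr rfl; intro j _
  rw [← RCLike.norm_conj, map_sum]
  congr 2
  apply Finset.sum_congr rfl; intro i _
  rw [map_mul, Complex.conj_conj]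

lemma Contr.entry {J I : Type*} [Fintype J] [Fintype I] {t : J → I → ℂ} (h : Contr 1 t) (j : J)
    (i : I) : ‖t j i‖ ≤ 1 := by
  have h1 := h.row j
  have h2 : ‖t j i‖ ^ 2 ≤ ∑ i, ‖t j i‖ ^ 2 :=
    Finset.single_le_sum (f := fun i => ‖t j i‖ ^ 2) (fun _ _ => by positivity) (Finset.mem_univ i)
  have h3 : ‖t j i‖ ^ 2 ≤ 1 ^ 2 := h2.trans h1
  exact le_of_sq_le_sq h3 zero_le_one

end Pool.Agent.Lib.MP_f84017_an
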