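import Pool.Agent.Lib.MP_f84017_an.MMat

open scoped ComplexConjugate BigOperators

noncomputable section

set_option linter.unusedSectionVars false

namespace Pool.Agent.Lib.MP_f84017_an

variable {n : ℕ} {J I J' I' : Type*} [Fintype J] [Fintype I] [Fintype J'] [Fintype I']

lemma Mm_self (y : J → ℝ) (W : Fin n → J × I → ℂ) (u : Fin n × Fin n) :
    Mm y W u u = ((∑ q, ‖MM y W u q‖ ^ 2 : ℝ) : ℂ) := by
  unfold Mm
  rw [Gr_diag]
  simp

/-- `tr M ≥ (tr L)²`. -/
lemma trM_ge (y : J → ℝ) (hy0 : ∀ j, 0 ≤ y j) (hy : ∑ j, y j ^ 2 ≤ 1) (W : Fin n → J × I → ℂ) :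
    (Tr (fun α : J × I => y α.1 ^ 2) W) ^ 2 ≤ (∑ u, Mm y W u u).re := by
  set r : J → ℝ := fun j => ∑ a, ∑ i, ‖W a (j, i)‖ ^ 2 with hr
  have h1 : Tr (fun α : J × I => y α.1 ^ 2) W = ∑ j, y j * (y j * r j) := by
    unfold Tr
    rw [Fintype.sum_prod_type]
    apply Finset.sum_congr rfl; intro j _
    simp only [hr]
    rw [← Finset.mul_sum, Finset.sum_comm]
    ring
  have h2 : (∑ j, y j * (y j * r j)) ^ 2 ≤ ∑ j, (y j * r j) ^ 2 := by
    have := Finset.sum_mul_sq_le_sq_mul_sq Finset.univ y (fun j => y j * r j)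
    refine this.trans ?_
    have h0 : 0 ≤ ∑ j, (y j * r j) ^ 2 := Finset.sum_nonneg fun _ _ => sq_nonneg _
    calc _ ≤ 1 * ∑ j, (y j * r j) ^ 2 := mul_le_mul_of_nonneg_right hy h0
      _ = _ := one_mul _
  -- the tensor identity over `J`
  set V : J → Fin n × I → ℂ := fun j p => (Real.sqrt (y j) : ℂ) * conj (W p.1 (j, p.2)) with hV
  have h3 : (∑ u, Mm y W u u).re = ∑ p, ∑ p', ‖∑ j, V j p * conj (V j p')‖ ^ 2 := by
    have e1 : ∀ p p', ∑ j, V j p * conj (V j p') = MM y W (p.1, p'.1) (p.2, p'.2) := by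
      intro p p'
      unfold MM
      apply Finset.sum_congr rfl; intro j _
      simp only [hV, map_mul, Complex.conj_conj, Complex.conj_ofReal]
      have hs : (Real.sqrt (y j) : ℂ) * (Real.sqrt (y j) : ℂ) = (y j : ℂ) := by
        rw [← Complex.ofReal_mul, Real.mul_self_sqrt (hy0 j)]
      rw [← hs]
      ring
    simp_rw [e1, Mm_self]
    rw [← Complex.ofReal_sum, Complex.ofReal_re, Fintype.sum_prod_type]
    simp_rw [Fintype.sum_prod_type (α₁ := I) (α₂ := I)]
    rw [Fintype.sum_prod_type (α₁ := Fin n) (α₂ := I)]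
    apply Finset.sum_congr rfl; intro a _
    simp_rw [Fintype.sum_prod_type (α₁ := Fin n) (α₂ := I)]
    rw [Finset.sum_comm]
  have h4 : ∑ p, ∑ p', ‖∑ j, V j p * conj (V j p')‖ ^ 2 =
      ∑ j, ∑ j', ‖Gr (fun _ => 1) V j j'‖ ^ 2 := by
    have e1 := tensor_identity (fun _ : Fin n × I => 1) (fun _ : Fin n × I => 1) V V
    simp only [one_mul] at e1
    rw [e1, Complex.re_sum]
    apply Finset.sum_congr rfl; intro j _
    rw [Complex.re_sum]
    apply Finset.sum_congr rfl; intro j' _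
    rw [Complex.mul_conj, Complex.normSq_eq_norm_sq, Complex.ofReal_re]
  have h5 : ∑ j, (y j * r j) ^ 2 ≤ ∑ j, ∑ j', ‖Gr (fun _ => 1) V j j'‖ ^ 2 := by
    apply Finset.sum_le_sum; intro j _
    have e1 : y j * r j = ‖Gr (fun _ => 1) V j j‖ := by
      rw [Gr_diag, Complex.norm_real, Real.norm_eq_abs, abs_of_nonneg
        (Finset.sum_nonneg fun _ _ => by positivity)]
      simp only [hr, hV, one_mul, norm_mul, RCLike.norm_conj, Complex.norm_real, Real.norm_eq_abs,
        mul_pow, sq_abs]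
      rw [Fintype.sum_prod_type, Finset.mul_sum]
      apply Finset.sum_congr rfl; intro a _
      rw [Finset.mul_sum]
      apply Finset.sum_congr rfl; intro i _
      rw [Real.sq_sqrt (hy0 j)]
    rw [e1]
    exact Finset.single_le_sum (f := fun j' => ‖Gr (fun _ => 1) V j j'‖ ^ 2)
      (fun _ _ => by positivity) (Finset.mem_univ j)
  rw [h1, h3, h4]
  exact h2.trans h5

/-- `⟨M δ, δ⟩ ≥ (tr G)²`. -/
lemma Mdd_ge (y : J → ℝ) (x : I → ℝ) (hx : ∑ i, x i ^ 2 ≤ 1) (W : Fin n → J × I → ℂ) :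
    (Tr (wt y x) W) ^ 2 ≤ (∑ a, ∑ c, Mm y W (a, a) (c, c)).re := by
  set r : I → ℝ := fun i => ∑ a, ∑ j, y j * ‖W a (j, i)‖ ^ 2 with hr
  have h1 : Tr (wt y x) W = ∑ i, x i * r i := by
    unfold Tr wt
    rw [Fintype.sum_prod_type, Finset.sum_comm]
    apply Finset.sum_congr rfl; intro i _
    simp only [hr]
    rw [Finset.sum_comm, Finset.mul_sum]
    apply Finset.sum_congr rfl; intro j _
    rw [← Finset.mul_sum]
    ring
  have h2 : (∑ i, x i * r i) ^ 2 ≤ ∑ i, r i ^ 2 := by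
    have := Finset.sum_mul_sq_le_sq_mul_sq Finset.univ x r
    refine this.trans ?_
    have h0 : 0 ≤ ∑ i, r i ^ 2 := Finset.sum_nonneg fun _ _ => sq_nonneg _
    calc _ ≤ 1 * ∑ i, r i ^ 2 := mul_le_mul_of_nonneg_right hx h0
      _ = _ := one_mul _
  have h3 : (∑ a, ∑ c, Mm y W (a, a) (c, c)).re = ∑ q, ‖∑ a, MM y W (a, a) q‖ ^ 2 := by
    rw [← Complex.ofReal_re (∑ q, ‖∑ a, MM y W (a, a) q‖ ^ 2)]
    congr 1
    simp_rw [Mm_eq]
    calc ∑ a, ∑ c, ∑ q, MM y W (a, a) q * conj (MM y W (c, c) q)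
        = ∑ a, ∑ q, ∑ c, MM y W (a, a) q * conj (MM y W (c, c) q) := by
          apply Finset.sum_congr rfl; intro a _
          rw [Finset.sum_comm]
      _ = ∑ q, ∑ a, ∑ c, MM y W (a, a) q * conj (MM y W (c, c) q) := by rw [Finset.sum_comm]
      _ = _ := by
          push_cast
          apply Finset.sum_congr rfl; intro q _
          have e1 : ((‖∑ a, MM y W (a, a) q‖ : ℂ) ^ 2) =
              (∑ a, MM y W (a, a) q) * conj (∑ a, MM y W (a, a) q) := by
            rw [Complex.mul_conj, Complex.normSq_eq_norm_sq]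
            push_cast
            rfl
          rw [e1, map_sum, Finset.sum_mul_sum]
  rw [h1, h3]
  refine h2.trans ?_
  have h4 : ∀ i, r i = ‖∑ a, MM y W (a, a) (i, i)‖ ∨ r i ^ 2 = ‖∑ a, MM y W (a, a) (i, i)‖ ^ 2 := by
    intro i
    right
    have e1 : ∑ a, MM y W (a, a) (i, i) = ((r i : ℝ) : ℂ) := by
      unfold MM
      simp only [hr]
      push_cast
      apply Finset.sum_congr rfl; intro a _
      apply Finset.sum_congr rfl; intro j _
      have : ((‖W a (j, i)‖ : ℂ) ^ 2) = W a (j, i) * conj (W a (j, i)) := by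
        rw [Complex.mul_conj, Complex.normSq_eq_norm_sq]
        push_cast
        rfl
      rw [this]
      ring
    rw [e1, Complex.norm_real, Real.norm_eq_abs, sq_abs]
  have h5 : ∀ i, r i ^ 2 = ‖∑ a, MM y W (a, a) (i, i)‖ ^ 2 := by
    intro i
    rcases h4 i with h | h
    · rw [h]
    · exact h
  simp_rw [h5]
  rw [Fintype.sum_prod_type]
  apply Finset.sum_le_sum; intro i _
  exact Finset.single_le_sum (f := fun l => ‖∑ a, MM y W (a, a) (i, l)‖ ^ 2)
    (fun _ _ => by positivity) (Finset.mem_univ i)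

/-- Cauchy-Schwarz against `δ δ^* + 1`. -/
lemma cs_final (M : Fin n × Fin n → Fin n × Fin n → ℂ) :
    ((∑ a, ∑ c, M (a, a) (c, c)).re + (∑ u, M u u).re) ^ 2 ≤
      (2 * n ^ 2 + 2 * n) * ∑ u, ∑ v, ‖M u v‖ ^ 2 := by
  classical
  set A : Fin n × Fin n → ℝ := fun u => if u.1 = u.2 then 1 else 0 with hA
  set B : Fin n × Fin n → Fin n × Fin n → ℝ := fun u v => if u = v then 1 else 0 with hB
  have h1 : (∑ a, ∑ c, M (a, a) (c, c)) + (∑ u, M u u) =
      ∑ p : (Fin n × Fin n) × (Fin n × Fin n),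
        ((A p.1 * A p.2 + B p.1 p.2 : ℝ) : ℂ) * M p.1 p.2 := by
    rw [Fintype.sum_prod_type (f := fun p : (Fin n × Fin n) × (Fin n × Fin n) =>
      ((A p.1 * A p.2 + B p.1 p.2 : ℝ) : ℂ) * M p.1 p.2)]
    have e1 : ∀ u, ∑ v, ((A u * A v + B u v : ℝ) : ℂ) * M u v =
        (A u : ℂ) * (∑ v, (A v : ℂ) * M u v) + M u u := by
      intro u
      have : ∀ v, ((A u * A v + B u v : ℝ) : ℂ) * M u v =
          (A u : ℂ) * ((A v : ℂ) * M u v) + (B u v : ℂ) * M u v := by
        intro v; push_cast; ring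
      simp_rw [this]
      rw [Finset.sum_add_distrib, ← Finset.mul_sum]
      congr 1
      rw [Finset.sum_eq_single u]
      · simp [hB]
      · intro v _ hv
        simp [hB, hv.symm]
      · simp
    rw [Finset.sum_congr rfl (fun u _ => e1 u)]
    rw [Finset.sum_add_distrib]
    congr 1
    have e2 : ∀ (F : Fin n × Fin n → ℂ), ∑ u, (A u : ℂ) * F u = ∑ a, F (a, a) := by
      intro F
      rw [Fintype.sum_prod_type]
      apply Finset.sum_congr rfl; intro a _
      rw [Finset.sum_eq_single a]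
      · simp [hA]
      · intro b _ hb
        simp [hA, hb.symm]
      · simp
    rw [e2]
    apply Finset.sum_congr rfl; intro a _
    rw [e2]
  rw [← Complex.add_re, h1]
  have h2 := norm_sum_mul_sq_le Finset.univ
    (fun p : (Fin n × Fin n) × (Fin n × Fin n) => ((A p.1 * A p.2 + B p.1 p.2 : ℝ) : ℂ))
    (fun p => M p.1 p.2)
  have h3 : ∑ p : (Fin n × Fin n) × (Fin n × Fin n),
      ‖((A p.1 * A p.2 + B p.1 p.2 : ℝ) : ℂ)‖ ^ 2 = 2 * n ^ 2 + 2 * n := by
    have e0 : ∀ p : (Fin n × Fin n) × (Fin n × Fin n),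
        ‖((A p.1 * A p.2 + B p.1 p.2 : ℝ) : ℂ)‖ ^ 2 =
          A p.1 * A p.2 + 2 * (A p.1 * B p.1 p.2) + B p.1 p.2 := by
      intro p
      rw [Complex.norm_real, Real.norm_eq_abs, sq_abs]
      simp only [hA, hB]
      rcases p with ⟨u, v⟩
      by_cases h : u = v
      · subst h
        by_cases h' : u.1 = u.2
        · simp [h']; norm_num
        · simp [h']
      · by_cases h' : u.1 = u.2
        · by_cases h'' : v.1 = v.2
          · simp [h, h', h'']
          · simp [h, h', h'']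
        · by_cases h'' : v.1 = v.2
          · simp [h, h', h'']
          · simp [h, h', h'']
    simp_rw [e0]
    rw [Fintype.sum_prod_type]
    have hsA : ∑ u, A u = n := by
      rw [Fintype.sum_prod_type]
      have : ∀ a : Fin n, ∑ b, A (a, b) = 1 := by
        intro a
        rw [Finset.sum_eq_single a]
        · simp [hA]
        · intro b _ hb
          simp [hA, hb.symm]
        · simp
      simp_rw [this]
      simp
    have hsB : ∀ u, ∑ v, B u v = 1 := by
      intro u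
      rw [Finset.sum_eq_single u]
      · simp [hB]
      · intro v _ hv
        simp [hB, hv.symm]
      · simp
    have e1 : ∀ u, ∑ v, (A u * A v + 2 * (A u * B u v) + B u v) = A u * n + 2 * A u + 1 := by
      intro u
      rw [Finset.sum_add_distrib, Finset.sum_add_distrib, ← Finset.mul_sum, hsA, ← Finset.mul_sum,
        ← Finset.mul_sum, hsB]
      ring
    rw [Finset.sum_congr rfl (fun u _ => e1 u)]
    rw [Finset.sum_add_distrib, Finset.sum_add_distrib, ← Finset.sum_mul, hsA, ← Finset.mul_sum,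
      hsA]
    simp only [Finset.sum_const, Finset.card_univ, Fintype.card_prod, Fintype.card_fin,
      nsmul_eq_mul, Nat.cast_mul]
    ring
  rw [h3, Fintype.sum_prod_type (f := fun p : (Fin n × Fin n) × (Fin n × Fin n) =>
    ‖M p.1 p.2‖ ^ 2)] at h2
  refine le_trans ?_ h2
  rw [← sq_abs]
  gcongr
  exact Complex.abs_re_le_norm _

end Pool.Agent.Lib.MP_f84017_an
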