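import Pool.Agent.Lib.MP_f84017_an.PairBounds

open scoped ComplexConjugate BigOperators

noncomputable section

set_option linter.unusedSectionVars false

namespace Pool.Agent.Lib.MP_f84017_an

variable {n : ℕ} {J I J' I' : Type*} [Fintype J] [Fintype I] [Fintype J'] [Fintype I']

/-- The products `W_a^* Y W_b`. -/
def MM (y : J → ℝ) (W : Fin n → J × I → ℂ) (u : Fin n × Fin n) (q : I × I) : ℂ :=
  ∑ j, conj (W u.1 (j, q.1)) * ((y j : ℂ) * W u.2 (j, q.2))

/-- The matrix `M`. -/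
def Mm (y : J → ℝ) (W : Fin n → J × I → ℂ) (u v : Fin n × Fin n) : ℂ :=
  Gr (fun _ => 1) (MM y W) u v

lemma Mm_eq (y : J → ℝ) (W : Fin n → J × I → ℂ) (u v : Fin n × Fin n) :
    Mm y W u v = ∑ q, MM y W u q * conj (MM y W v q) := by
  unfold Mm Gr
  simp

/-- The tensor contraction. -/
def tt (W : Fin n → J × I → ℂ) (P : Fin n → J' × I' → ℂ) (a : J × J') (b : I × I') : ℂ :=
  (Real.sqrt n : ℂ) * ∑ c, W c (a.1, b.1) * conj (P c (a.2, b.2))

lemma tt_product (y : J → ℝ) (y' : J' → ℝ) (W : Fin n → J × I → ℂ) (P : Fin n → J' × I' → ℂ)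
    (i l : I) (i' l' : I') :
    ∑ a : J × J', conj (tt W P a (i, i')) * (((y a.1 * y' a.2 : ℝ) : ℂ) * tt W P a (l, l')) =
      n * ∑ u, MM y W u (i, l) * conj (MM y' P u (i', l')) := by
  have hs : (Real.sqrt n : ℂ) * (Real.sqrt n : ℂ) = (n : ℂ) := by
    rw [← Complex.ofReal_mul, Real.mul_self_sqrt (Nat.cast_nonneg n), Complex.ofReal_natCast]
  rw [Fintype.sum_prod_type, Fintype.sum_prod_type, Finset.mul_sum]
  simp only [tt, MM, map_sum, map_mul, Complex.conj_ofReal, Complex.conj_conj]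
  have h1 : ∀ j j', (Real.sqrt n : ℂ) * (∑ c, conj (W c (j, i)) * P c (j', i')) *
      (((y j * y' j' : ℝ) : ℂ) * ((Real.sqrt n : ℂ) * ∑ c, W c (j, l) * conj (P c (j', l')))) =
      ∑ a, ∑ b, n * ((conj (W a (j, i)) * (y j * W b (j, l))) *
        (P a (j', i') * (y' j' * conj (P b (j', l'))))) := by
    intro j j'
    calc (Real.sqrt n : ℂ) * (∑ c, conj (W c (j, i)) * P c (j', i')) *
      (((y j * y' j' : ℝ) : ℂ) * ((Real.sqrt n : ℂ) * ∑ c, W c (j, l) * conj (P c (j', l'))))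
        = ((Real.sqrt n : ℂ) * (Real.sqrt n : ℂ)) * (y j * y' j') *
          ((∑ c, conj (W c (j, i)) * P c (j', i')) * ∑ c, W c (j, l) * conj (P c (j', l'))) := by
          push_cast; ring
      _ = _ := by
          rw [hs, Finset.sum_mul_sum, Finset.mul_sum]
          apply Finset.sum_congr rfl; intro a _
          rw [Finset.mul_sum]
          apply Finset.sum_congr rfl; intro b _
          ring
  simp_rw [h1]
  have h2 : ∀ a b, (n : ℂ) * ((∑ j, conj (W a (j, i)) * (y j * W b (j, l))) *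
      ∑ j', P a (j', i') * (y' j' * conj (P b (j', l')))) =
      ∑ j, ∑ j', n * ((conj (W a (j, i)) * (y j * W b (j, l))) *
        (P a (j', i') * (y' j' * conj (P b (j', l'))))) := by
    intro a b
    rw [Finset.sum_mul_sum, Finset.mul_sum]
    apply Finset.sum_congr rfl; intro j _
    rw [Finset.mul_sum]
  simp_rw [Finset.mul_sum (s := (Finset.univ : Finset (Fin n))), h2]
  calc ∑ j, ∑ j', ∑ a, ∑ b, (n : ℂ) * ((conj (W a (j, i)) * (y j * W b (j, l))) *
        (P a (j', i') * (y' j' * conj (P b (j', l')))))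
      = ∑ j, ∑ a, ∑ j', ∑ b, (n : ℂ) * ((conj (W a (j, i)) * (y j * W b (j, l))) *
        (P a (j', i') * (y' j' * conj (P b (j', l'))))) := by
        apply Finset.sum_congr rfl; intro j _
        rw [Finset.sum_comm]
    _ = ∑ a, ∑ j, ∑ b, ∑ j', (n : ℂ) * ((conj (W a (j, i)) * (y j * W b (j, l))) *
        (P a (j', i') * (y' j' * conj (P b (j', l'))))) := by
        rw [Finset.sum_comm]
        apply Finset.sum_congr rfl; intro a _
        apply Finset.sum_congr rfl; intro j _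
        rw [Finset.sum_comm]
    _ = _ := by
        apply Finset.sum_congr rfl; intro a _
        rw [Finset.sum_comm]

/-- `n² ⟨M^W, M^P⟩ ≤ 1`. -/
lemma M_le_one (y : J → ℝ) (y' : J' → ℝ) (W : Fin n → J × I → ℂ) (P : Fin n → J' × I' → ℂ)
    (hy : ∑ j, y j ^ 2 ≤ 1) (hy' : ∑ j, y' j ^ 2 ≤ 1) (ht : Contr 1 (tt W P)) :
    n ^ 2 * (∑ u, ∑ v, Mm y W u v * conj (Mm y' P u v)).re ≤ 1 := by
  have h1 := ht.hs_adj (fun a b => ((y a.1 * y' a.2 : ℝ) : ℂ) * tt W P a b)
  have h2 : ∑ a : J × J', ∑ b : I × I', ‖((y a.1 * y' a.2 : ℝ) : ℂ) * tt W P a b‖ ^ 2 ≤ 1 := by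
    calc ∑ a : J × J', ∑ b : I × I', ‖((y a.1 * y' a.2 : ℝ) : ℂ) * tt W P a b‖ ^ 2
        = ∑ a : J × J', (y a.1 * y' a.2) ^ 2 * ∑ b, ‖tt W P a b‖ ^ 2 := by
          apply Finset.sum_congr rfl; intro a _
          rw [Finset.mul_sum]
          apply Finset.sum_congr rfl; intro b _
          rw [norm_mul, mul_pow, Complex.norm_real, Real.norm_eq_abs, sq_abs]
      _ ≤ ∑ a : J × J', (y a.1 * y' a.2) ^ 2 * 1 := by
          apply Finset.sum_le_sum; intro a _
          apply mul_le_mul_of_nonneg_left _ (sq_nonneg _)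
          have := ht.row a
          simpa using this
      _ = (∑ j, y j ^ 2) * ∑ j', y' j' ^ 2 := by
          rw [Fintype.sum_prod_type, Finset.sum_mul_sum]
          apply Finset.sum_congr rfl; intro j _
          apply Finset.sum_congr rfl; intro j' _
          ring
      _ ≤ 1 * 1 := mul_le_mul hy hy' (Finset.sum_nonneg fun _ _ => by positivity) zero_le_one
      _ = 1 := one_mul 1
  have h3 : ∑ b : I × I', ∑ b' : I × I', ‖∑ a : J × J', conj (tt W P a b) *
      (((y a.1 * y' a.2 : ℝ) : ℂ) * tt W P a b')‖ ^ 2 =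
      n ^ 2 * (∑ u, ∑ v, Mm y W u v * conj (Mm y' P u v)).re := by
    unfold Mm
    rw [← tensor_identity]
    simp only [one_mul]
    have h4 : ∀ b b' : I × I', ‖∑ a : J × J', conj (tt W P a b) *
        (((y a.1 * y' a.2 : ℝ) : ℂ) * tt W P a b')‖ ^ 2 =
        n ^ 2 * ‖∑ u, MM y W u (b.1, b'.1) * conj (MM y' P u (b.2, b'.2))‖ ^ 2 := by
      intro b b'
      have := tt_product y y' W P b.1 b'.1 b.2 b'.2
      rw [this, norm_mul, mul_pow, Complex.norm_natCast]
    simp_rw [h4]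
    rw [Finset.mul_sum]
    simp_rw [Finset.mul_sum]
    rw [Fintype.sum_prod_type, Fintype.sum_prod_type]
    apply Finset.sum_congr rfl; intro i _
    simp_rw [Fintype.sum_prod_type (α₁ := I) (α₂ := I'), Fintype.sum_prod_type (α₁ := I') (α₂ := I')]
    rw [Finset.sum_comm]
  rw [← h3]
  refine h1.trans ?_
  rw [one_pow, one_mul]
  exact h2

end Pool.Agent.Lib.MP_f84017_an
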