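import Pool.Agent.Lib.MP_f84017_an.Sequence

open scoped ComplexConjugate BigOperators ENNReal

noncomputable section

set_option linter.unusedSectionVars false

namespace Pool.Agent.Lib.MP_f84017_an

universe u

section one

variable {H : Type*} [NormedAddCommGroup H] [InnerProductSpace ℂ H] {n k k' : ℕ}

/-- the weight of a datum -/
def dwt (d : Dat n k) : Fin k × Fin k → ℝ := wt d.2.2 d.2.1

/-- the conjugate coefficients of a datum -/
def dp (d : Dat n k) (a : Fin n) (α : Fin k × Fin k) : ℂ := conj (d.1 a α)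

lemma Tr_dp (d : Dat n k) : Tr (dwt d) (dp d) = Tr (dwt d) d.1 := by
  unfold Tr dp
  simp only [RCLike.norm_conj]

lemma Valid.tr_le (hn : 1 ≤ n) {w : Fin n → (H →L[ℂ] H)} (hB : GoodB w) {d : Dat n k}
    (h : Valid w d) : Tr (dwt d) d.1 ≤ 1 := by
  have hn0 : (0 : ℝ) < n := by exact_mod_cast hn
  have h1 := hB k d.1 (1 / Real.sqrt n) (by positivity) h.2.2 d.2.1 d.2.2 h.1 h.2.1
  have h2 : (n : ℝ) * (1 / Real.sqrt n) ^ 2 = 1 := by
    rw [div_pow, Real.sq_sqrt hn0.le, one_pow]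
    field_simp
  rw [h2] at h1
  exact h1

/-- Consequences of a match for the sizes. -/
lemma Match.consequences {w : Fin n → (H →L[ℂ] H)} (hA : GoodA w) {d : Dat n k}
    (hx : Wts d.2.1) (hy : Wts d.2.2) (htr : Tr (dwt d) d.1 ≤ 1) {e : ℝ} (he : e ≤ 1)
    (h : Match w d e) : ∃ f g : Fin k → H, CF f ∧ CF g ∧
      1 - e ≤ ∑ α, dwt d α * (∑ a, compr w f g a α * conj (dp d a α)).re ∧
      1 - 2 * e ≤ Tr (dwt d) (compr w f g) ∧ Tr (dwt d) (compr w f g) ≤ 1 ∧
      1 - 2 * e ≤ Tr (dwt d) d.1 := by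
  obtain ⟨f, g, hf, hg, hm⟩ := h
  have hφ : ∀ α, 0 ≤ dwt d α := wt_nonneg hy.nonneg hx.nonneg
  have h1 := tuple_cs hφ d.1 (compr w f g)
  have h2 : Tr (dwt d) (compr w f g) ≤ 1 := hA k f g d.2.1 d.2.2 hf hg hx hy
  have h3 : 0 ≤ Tr (dwt d) (compr w f g) := Tr_nonneg hφ _
  have h4 : 0 ≤ Tr (dwt d) d.1 := Tr_nonneg hφ _
  set z : ℂ := ∑ α, (dwt d α : ℂ) * ∑ a, d.1 a α * compr w f g a α with hz
  have hm' : 1 - e < z.re := hm
  have h5 : (1 - e) ^ 2 ≤ ‖z‖ ^ 2 := by
    have : 1 - e ≤ ‖z‖ := hm'.le.trans ((le_abs_self _).trans (Complex.abs_re_le_norm z))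
    have h0 : 0 ≤ 1 - e := by linarith
    gcongr
  have h6 : 1 - 2 * e ≤ (1 - e) ^ 2 := by nlinarith [sq_nonneg e]
  refine ⟨f, g, hf, hg, ?_, ?_, h2, ?_⟩
  · have h7 : ∑ α, dwt d α * (∑ a, compr w f g a α * conj (dp d a α)).re = z.re := by
      rw [hz, Complex.re_sum]
      apply Finset.sum_congr rfl; intro α _
      rw [Complex.re_ofReal_mul]
      congr 2
      apply Finset.sum_congr rfl; intro a _
      unfold dp
      rw [Complex.conj_conj, mul_comm]
    rw [h7]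
    exact hm'.le
  · have h8 : Tr (dwt d) d.1 * Tr (dwt d) (compr w f g) ≤ 1 * Tr (dwt d) (compr w f g) :=
      mul_le_mul_of_nonneg_right htr h3
    linarith
  · have h8 : Tr (dwt d) d.1 * Tr (dwt d) (compr w f g) ≤ Tr (dwt d) d.1 * 1 :=
      mul_le_mul_of_nonneg_left h2 h4
    linarith

/-- The pair of tuples obtained from a match. -/
lemma pair_of_match (hn : 1 ≤ n) {w : Fin n → (H →L[ℂ] H)} (hA : GoodA w) (hB : GoodB w)
    {d : Dat n k} {d' : Dat n k'} (hx : Wts d.2.1) (hy : Wts d.2.2) (htr : Tr (dwt d) d.1 ≤ 1)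
    (hV' : Valid w d') {ε : ℝ} (hε0 : 0 < ε) (hε : ε < 1) (hm : Match w d (ε / 2))
    (hlow : 1 - ε ≤ Tr (dwt d') d'.1)
    (hG : ∀ a b, ‖Gr (dwt d) (dp d) a b - Gr (dwt d') (dp d') a b‖ ≤ ε)
    (hGh : ∀ a b, ‖Gr (fun α => dwt d α * hh d.2.2 d.2.1 α) (dp d) a b -
      Gr (fun α => dwt d' α * hh d'.2.2 d'.2.1 α) (dp d') a b‖ ≤ ε) :
    ∃ W : Fin n → Fin k × Fin k → ℂ,
      PairHyp ε (5 * Real.sqrt ε) d.2.2 d.2.1 d'.2.2 d'.2.1 W (dp d') ∧
      1 - ε ≤ ∑ α, wt d.2.2 d.2.1 α * (∑ a, W a α * conj (dp d a α)).re ∧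
      Contr 1 (tt W (dp d')) ∧ ∀ a, Contr 1 (fun j i => W a (j, i)) := by
  have hn0 : (0 : ℝ) < n := by exact_mod_cast hn
  have hsn : Real.sqrt n ^ 2 = n := Real.sq_sqrt hn0.le
  obtain ⟨f, g, hf, hg, hov, hlo, hhi, -⟩ := hm.consequences hA hx hy htr (by linarith)
  have hφ : ∀ α, 0 ≤ dwt d α := wt_nonneg hy.nonneg hx.nonneg
  have hten := tensor_contr hV'.2.2 hf hg
  have htt : Contr 1 (tt (compr w f g) (dp d')) := by
    intro ξ
    have h1 := hten ξ
    have h2 : ∀ J, ∑ I, tt (compr w f g) (dp d') J I * ξ I = (Real.sqrt n : ℂ) *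
        ∑ I : Fin k × Fin k', (∑ a, compr w f g a (J.1, I.1) * d'.1 a (J.2, I.2)) * ξ I := by
      intro J
      rw [Finset.mul_sum]
      apply Finset.sum_congr rfl; intro I _
      unfold tt dp
      simp only [Complex.conj_conj]
      ring
    simp_rw [h2, norm_mul, mul_pow, Complex.norm_real, Real.norm_eq_abs, sq_abs]
    rw [← Finset.mul_sum, one_pow, one_mul, hsn]
    calc (n : ℝ) * _ ≤ n * ((1 / Real.sqrt n) ^ 2 * ∑ i, ‖ξ i‖ ^ 2) :=
          mul_le_mul_of_nonneg_left h1 hn0.le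
      _ = ∑ i, ‖ξ i‖ ^ 2 := by
          rw [div_pow, hsn]
          field_simp
  have hqq : ∀ (J : Fin k × Fin k') (I : Fin k × Fin k'),
      qq (compr w f g) (dp d') (J.1, I.1) (J.2, I.2) = ‖tt (compr w f g) (dp d') J I‖ ^ 2 := by
    intro J I
    unfold qq tt
    rw [norm_mul, mul_pow, Complex.norm_real, Real.norm_eq_abs, sq_abs, hsn]
  -- distance between `compr` and `dp d`
  have hdiff : Tr (dwt d) (fun a α => compr w f g a α - dp d a α) ≤ ε := by
    have h1 : Tr (dwt d) (fun a α => compr w f g a α - dp d a α) =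
        Tr (dwt d) (compr w f g) + Tr (dwt d) (dp d) -
          2 * ∑ α, dwt d α * (∑ a, compr w f g a α * conj (dp d a α)).re := by
      unfold Tr
      rw [Finset.mul_sum, ← Finset.sum_add_distrib, ← Finset.sum_sub_distrib]
      apply Finset.sum_congr rfl; intro α _
      have h2 : ∀ z w : ℂ, ‖z - w‖ ^ 2 = ‖z‖ ^ 2 + ‖w‖ ^ 2 - 2 * (z * conj w).re := by
        intro z w
        rw [← Complex.normSq_eq_norm_sq, ← Complex.normSq_eq_norm_sq, ← Complex.normSq_eq_norm_sq,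
          Complex.normSq_apply, Complex.normSq_apply, Complex.normSq_apply]
        simp only [Complex.sub_re, Complex.sub_im, Complex.mul_re, Complex.conj_re,
          Complex.conj_im]
        ring
      simp_rw [h2]
      rw [Finset.sum_sub_distrib, Finset.sum_add_distrib, Complex.re_sum, ← Finset.mul_sum]
      ring
    rw [h1, Tr_dp]
    linarith
  have hTrp : Tr (dwt d) (dp d) ≤ 1 := by rw [Tr_dp]; exact htr
  have hsq : ε ≤ Real.sqrt ε := by
    apply Real.le_sqrt_of_sq_le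
    nlinarith
  have hsq0 : 0 ≤ Real.sqrt ε := Real.sqrt_nonneg _
  have htr' := hV'.tr_le hn hB
  refine ⟨compr w f g, ?_, ?_, htt, ?_⟩
  · refine ⟨hn, hε0.le, by positivity, hy.nonneg, hx.nonneg, hV'.2.1.nonneg, hV'.1.nonneg,
      hy.sum, hx.sum, hV'.2.1.sum, hV'.1.sum, ?_, ?_, ?_, hhi, ?_, ?_, ?_, ?_⟩
    · intro j j'
      have h1 := htt.row (j, j')
      rw [Fintype.sum_prod_type, one_pow] at h1
      refine le_trans (le_of_eq ?_) h1
      apply Finset.sum_congr rfl; intro i _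
      apply Finset.sum_congr rfl; intro i' _
      exact hqq (j, j') (i, i')
    · intro i i'
      have h1 := htt.col (i, i')
      rw [Fintype.sum_prod_type, one_pow] at h1
      refine le_trans (le_of_eq ?_) h1
      apply Finset.sum_congr rfl; intro j _
      apply Finset.sum_congr rfl; intro j' _
      exact hqq (j, j') (i, i')
    · have : 1 - 2 * (ε / 2) = 1 - ε := by ring
      rw [this] at hlo
      exact hlo
    · have h1 := Tr_dp d'
      unfold dwt at h1 hlow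
      rw [h1]; exact hlow
    · have h1 := Tr_dp d'
      unfold dwt at h1 htr'
      rw [h1]; exact htr'
    · intro a b
      have h1 := norm_Gr_sub_le (φ := dwt d) (ψ := dwt d)
        (fun α => le_of_eq (abs_of_nonneg (hφ α))) (compr w f g) (dp d) hε0.le hhi hTrp hdiff a b
      have h2 := hG a b
      have h3 := norm_sub_le_norm_sub_add_norm_sub (Gr (dwt d) (compr w f g) a b)
        (Gr (dwt d) (dp d) a b) (Gr (dwt d') (dp d') a b)
      show ‖Gr (dwt d) (compr w f g) a b - Gr (dwt d') (dp d') a b‖ ≤ _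
      linarith
    · intro a b
      have h1 := norm_Gr_sub_le (φ := fun α => dwt d α * hh d.2.2 d.2.1 α) (ψ := dwt d)
        (fun α => by
          rw [abs_mul, abs_of_nonneg (hφ α)]
          exact mul_le_of_le_one_right (hφ α) (abs_hh_le_one hy.nonneg hx.nonneg α))
        (compr w f g) (dp d) hε0.le hhi hTrp hdiff a b
      have h2 := hGh a b
      have h3 := norm_sub_le_norm_sub_add_norm_sub
        (Gr (fun α => dwt d α * hh d.2.2 d.2.1 α) (compr w f g) a b)
        (Gr (fun α => dwt d α * hh d.2.2 d.2.1 α) (dp d) a b)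
        (Gr (fun α => dwt d' α * hh d'.2.2 d'.2.1 α) (dp d') a b)
      show ‖Gr (fun α => dwt d α * hh d.2.2 d.2.1 α) (compr w f g) a b -
        Gr (fun α => dwt d' α * hh d'.2.2 d'.2.1 α) (dp d') a b‖ ≤ _
      linarith
  · have h1 : 1 - ε ≤ 1 - ε / 2 := by linarith
    exact h1.trans hov
  · intro a
    exact compr_contr (w a) (hA.norm_le a) hf hg

end one

/-- The main theorem. -/
theorem separated_countable (n : ℕ) (hn : 2 ≤ n) : ∃ δ : ℝ, δ < n ∧
    ∀ S : Set (OpSpace.{u} n),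
      (∀ A ∈ S, ∀ B ∈ S, A ≠ B → ENNReal.ofReal δ < dcb A B) → S.Countable := by
  classical
  have hn1 : 1 ≤ n := by omega
  have hn0 : (0 : ℝ) < n := by exact_mod_cast hn1
  obtain ⟨ε, hε0, hε1, hf5, hf4, hmain⟩ := exists_eps (n := n) hn
  refine ⟨n * (1 - ε / 4), by nlinarith, ?_⟩
  intro S hsep'
  rw [← Set.countable_coe_iff]
  by_contra hι
  have hsep : ∀ i j : S, i ≠ j → ENNReal.ofReal (n * (1 - ε / 4)) < dcb i.1 j.1 :=
    fun i j hij => hsep' i.1 i.2 j.1 j.2 (fun h => hij (Subtype.ext h))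
  choose b hA hB using fun i : S => exists_good_basis i.1.E i.1.finrank_E hn1
  set w : ∀ i : S, Fin n → (i.1.H →L[ℂ] i.1.H) := fun i a => (b i a : i.1.H →L[ℂ] i.1.H) with hw
  have hgap : ∀ i j, i ≠ j → ∃ (k : ℕ) (d : Dat n k), Valid (w i) d ∧ Match (w j) d (ε / 4) := by
    intro i j hij
    obtain ⟨k, s, C, hC, h1, h2⟩ := exists_gap i.1 j.1 (b i) (b j) (hA i) (hB j)
      (ε := ε / 4) (by linarith) (hsep i j hij)
    obtain ⟨s', x, y, f, g, hx, hy, hf, hg, h3, h4⟩ := gap_datum hn1 (hB i) (hA j) hC h1 h2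
    exact ⟨k, (s', x, y), ⟨hx, hy, h3⟩, f, g, hf, hg, h4⟩
  obtain ⟨i, k, d, hV, hM⟩ := exists_sequence hn1 w hA hB (by positivity : 0 < ε / 4) hgap hι
  have hM' : ∀ t t', t < t' → Match (w (i t')) (d t) (ε / 2) := by
    intro t t' h
    have := hM t t' h
    rwa [show 2 * (ε / 4) = ε / 2 by ring] at this
  have htr : ∀ t, Tr (dwt (d t)) (d t).1 ≤ 1 := fun t => (hV t).tr_le hn1 (hB (i t))
  have hlow : ∀ t, 1 - ε ≤ Tr (dwt (d t)) (d t).1 := by
    intro t
    obtain ⟨f, g, -, -, -, -, -, h⟩ := (hM' t (t + 1) (Nat.lt_succ_self t)).consequences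
      (hA (i (t + 1))) (hV t).1 (hV t).2.1 (htr t) (by linarith)
    linarith
  have hcon : ∀ t a, Contr 1 (fun j i => dp (d t) a (j, i)) := fun t a =>
    (coeff_contr hn1 (hB (i t)) (hV t).2.2 a).conj
  -- the invariants
  set inv : ℕ → (Fin n → Fin n → ℂ) × (Fin n → Fin n → ℂ) ×
      (Fin n × Fin n → Fin n × Fin n → ℂ) := fun t =>
    (Gr (dwt (d t)) (dp (d t)),
      Gr (fun α => dwt (d t) α * hh (d t).2.2 (d t).2.1 α) (dp (d t)),
      Mm (d t).2.2 (dp (d t))) with hinv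
  have hφ : ∀ t α, 0 ≤ dwt (d t) α := fun t => wt_nonneg (hV t).2.1.nonneg (hV t).1.nonneg
  have hbd : ∀ t, inv t ∈ Metric.closedBall (0 : (Fin n → Fin n → ℂ) × (Fin n → Fin n → ℂ) ×
      (Fin n × Fin n → Fin n × Fin n → ℂ)) 1 := by
    intro t
    rw [mem_closedBall_zero_iff]
    refine max_le ?_ (max_le ?_ ?_)
    · rw [pi_norm_le_iff_of_nonneg zero_le_one]; intro a
      rw [pi_norm_le_iff_of_nonneg zero_le_one]; intro c
      refine (norm_Gr_le (fun α => le_of_eq (abs_of_nonneg (hφ t α))) _ a c).trans ?_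
      rw [Tr_dp]; exact htr t
    · rw [pi_norm_le_iff_of_nonneg zero_le_one]; intro a
      rw [pi_norm_le_iff_of_nonneg zero_le_one]; intro c
      refine (norm_Gr_le (ψ := dwt (d t)) (fun α => ?_) _ a c).trans ?_
      · rw [abs_mul, abs_of_nonneg (hφ t α)]
        exact mul_le_of_le_one_right (hφ t α)
          (abs_hh_le_one (hV t).2.1.nonneg (hV t).1.nonneg α)
      · rw [Tr_dp]; exact htr t
    · rw [pi_norm_le_iff_of_nonneg zero_le_one]; intro a
      rw [pi_norm_le_iff_of_nonneg zero_le_one]; intro c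
      exact Mm_norm_le _ (hV t).2.1.sum _ (hcon t) a c
  obtain ⟨l, -, φ, hφm, hlim⟩ := tendsto_subseq_of_bounded Metric.isBounded_closedBall hbd
  obtain ⟨N, hN⟩ := Metric.tendsto_atTop.mp hlim (ε / 2) (by positivity)
  have hclose : ∀ a c, N ≤ a → N ≤ c → dist (inv (φ a)) (inv (φ c)) ≤ ε := by
    intro a c ha hc
    have h1 := hN a ha
    have h2 := hN c hc
    have h3 := dist_triangle_right (inv (φ a)) (inv (φ c)) l
    simp only [Function.comp] at h1 h2
    linarith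
  have hG : ∀ t t', dist (inv t) (inv t') ≤ ε → ∀ a c,
      ‖Gr (dwt (d t)) (dp (d t)) a c - Gr (dwt (d t')) (dp (d t')) a c‖ ≤ ε := by
    intro t t' h a c
    have h1 : dist (inv t).1 (inv t').1 ≤ ε := (le_max_left _ _).trans h
    have h2 := (dist_le_pi_dist (inv t).1 (inv t').1 a).trans h1
    have h3 := (dist_le_pi_dist ((inv t).1 a) ((inv t').1 a) c).trans h2
    rwa [dist_eq_norm] at h3
  have hGh : ∀ t t', dist (inv t) (inv t') ≤ ε → ∀ a c,
      ‖Gr (fun α => dwt (d t) α * hh (d t).2.2 (d t).2.1 α) (dp (d t)) a c -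
        Gr (fun α => dwt (d t') α * hh (d t').2.2 (d t').2.1 α) (dp (d t')) a c‖ ≤ ε := by
    intro t t' h a c
    have h1 : dist (inv t).2.1 (inv t').2.1 ≤ ε :=
      ((le_max_left _ _).trans (le_max_right _ _)).trans h
    have h2 := (dist_le_pi_dist (inv t).2.1 (inv t').2.1 a).trans h1
    have h3 := (dist_le_pi_dist ((inv t).2.1 a) ((inv t').2.1 a) c).trans h2
    rwa [dist_eq_norm] at h3
  have hMM : ∀ t t', dist (inv t) (inv t') ≤ ε → ∀ a c,
      ‖Mm (d t).2.2 (dp (d t)) a c - Mm (d t').2.2 (dp (d t')) a c‖ ≤ ε := by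
    intro t t' h a c
    have h1 : dist (inv t).2.2 (inv t').2.2 ≤ ε :=
      ((le_max_right _ _).trans (le_max_right _ _)).trans h
    have h2 := (dist_le_pi_dist (inv t).2.2 (inv t').2.2 a).trans h1
    have h3 := (dist_le_pi_dist ((inv t).2.2 a) ((inv t').2.2 a) c).trans h2
    rwa [dist_eq_norm] at h3
  set t0 := φ N with ht0
  set t1 := φ (N + 1) with ht1
  set t2 := φ (N + 2) with ht2
  have h01 : t0 < t1 := hφm (by omega)
  have h12 : t1 < t2 := hφm (by omega)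
  have c01 : dist (inv t0) (inv t1) ≤ ε := hclose N (N + 1) le_rfl (by omega)
  have c12 : dist (inv t1) (inv t2) ≤ ε := hclose (N + 1) (N + 2) (by omega) (by omega)
  obtain ⟨W0, H01, -, -, -⟩ := pair_of_match hn1 (hA (i t1)) (hB (i t1)) (hV t0).1 (hV t0).2.1
    (htr t0) (hV t1) hε0 hε1 (hM' t0 t1 h01) (hlow t1) (hG t0 t1 c01) (hGh t0 t1 c01)
  obtain ⟨W1, H12, hov, htt, hW1⟩ := pair_of_match hn1 (hA (i t2)) (hB (i t2)) (hV t1).1
    (hV t1).2.1 (htr t1) (hV t2) hε0 hε1 (hM' t1 t2 h12) (hlow t2) (hG t1 t2 c12)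
    (hGh t1 t2 c12)
  have hfin := triple H01 H12 hov htt hW1 (hcon t1) hε0.le (hMM t1 t2 c12) hf5 hf4
    (by linarith)
  linarith

end Pool.Agent.Lib.MP_f84017_an
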