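import Pool.Agent.Lib.MP_f84017_an.PairGram

open scoped ComplexConjugate BigOperators

noncomputable section

namespace Pool.Agent.Lib.MP_f84017_an

variable {n : ℕ} {J I J' I' : Type*} [Fintype J] [Fintype I] [Fintype J'] [Fintype I']

lemma Tr_mono {A : Type*} [Fintype A] {φ ψ : A → ℝ} (h : ∀ α, φ α ≤ ψ α) (W : Fin n → A → ℂ) :
    Tr φ W ≤ Tr ψ W := by
  unfold Tr
  apply Finset.sum_le_sum; intro α _
  exact mul_le_mul_of_nonneg_right (h α) (Finset.sum_nonneg fun _ _ => by positivity)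

namespace PairHyp

variable {ε e1 : ℝ} {y : J → ℝ} {x : I → ℝ} {y' : J' → ℝ} {x' : I' → ℝ}
    {W : Fin n → J × I → ℂ} {P : Fin n → J' × I' → ℂ}

lemma f2_nonneg (H : PairHyp ε e1 y x y' x' W P) : 0 ≤ f2 n ε e1 := by
  unfold f2
  have := H.he1
  positivity

lemma f4_nonneg (H : PairHyp ε e1 y x y' x' W P) : 0 ≤ f4 n ε e1 := by
  unfold f4
  have h1 := H.he1
  have h2 := H.he
  have h3 := H.f2_nonneg
  positivity

lemma h_sq_le {α : J × I} (H : PairHyp ε e1 y x y' x' W P) :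
    wt y x α * hh y x α ^ 2 ≤ wt y x α := by
  have h1 := wt_nonneg H.y0 H.x0 α
  have h2 := abs_hh_le_one H.y0 H.x0 α
  apply mul_le_of_le_one_right h1
  rw [← sq_abs]
  nlinarith [abs_nonneg (hh y x α)]

/-- The traces of the Gram matrices weighted by `h²` are small. -/
lemma tau_add_le (H : PairHyp ε e1 y x y' x' W P) :
    Tr (fun α => wt y x α * hh y x α ^ 2) W + Tr (fun α => wt y' x' α * hh y' x' α ^ 2) P ≤
      f4 n ε e1 := by
  have hn0 : (0 : ℝ) < n := by exact_mod_cast H.hn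
  have he := H.he
  have he1 := H.he1
  set S := ∑ α, ∑ α', wt y x α * wt y' x' α' * qq W P α α' with hS
  have hS1 : 1 - 2 * ε - n ^ 3 * e1 ≤ S := H.S_ge
  -- the sum with `(h + h')²`
  have h1 : 4 * ∑ α, ∑ α', (wt y x α * wt y' x' α' * (hh y x α + hh y' x' α') ^ 2) *
      qq W P α α' ≤ 2 - 2 * S := by
    refine le_trans ?_ H.sum_diff
    rw [Finset.mul_sum]
    apply Finset.sum_le_sum; intro α _
    rw [Finset.mul_sum]
    apply Finset.sum_le_sum; intro α' _
    have := four_le (H.y0 α.1) (H.x0 α.2) (H.y0' α'.1) (H.x0' α'.2)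
    have h2 := mul_le_mul_of_nonneg_right this (qq_nonneg W P α α')
    unfold wt hh
    nlinarith [h2]
  have h2 : ∑ α, ∑ α', (wt y x α * wt y' x' α' * (hh y x α + hh y' x' α') ^ 2) *
      qq W P α α' =
      ∑ α, ∑ α', (wt y x α * hh y x α ^ 2) * wt y' x' α' * qq W P α α' +
      2 * ∑ α, ∑ α', (wt y x α * hh y x α) * (wt y' x' α' * hh y' x' α') * qq W P α α' +
      ∑ α, ∑ α', wt y x α * (wt y' x' α' * hh y' x' α' ^ 2) * qq W P α α' := by
    rw [Finset.mul_sum, ← Finset.sum_add_distrib, ← Finset.sum_add_distrib]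
    apply Finset.sum_congr rfl; intro α _
    rw [Finset.mul_sum, ← Finset.sum_add_distrib, ← Finset.sum_add_distrib]
    apply Finset.sum_congr rfl; intro α' _
    ring
  -- first term
  have h3 : Tr (fun α => wt y x α * hh y x α ^ 2) W - n ^ 3 * f2 n ε e1 * 1 ≤
      ∑ α, ∑ α', (wt y x α * hh y x α ^ 2) * wt y' x' α' * qq W P α α' := by
    rw [qq_sum_eq (fun α => wt y x α * hh y x α ^ 2) (wt y' x'), ← re_trace_Gr]
    refine re_sum_ge_trace H.hn _ _ zero_le_one (fun c d => ?_) H.gramP'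
    refine (norm_Gr_le (ψ := wt y x) (fun α => ?_) W c d).trans H.tW'
    rw [abs_of_nonneg (mul_nonneg (wt_nonneg H.y0 H.x0 α) (sq_nonneg _))]
    exact H.h_sq_le
  -- third term
  have h4 : Tr (fun α => wt y' x' α * hh y' x' α ^ 2) P - n ^ 3 * f2 n ε e1 * 1 ≤
      ∑ α, ∑ α', wt y x α * (wt y' x' α' * hh y' x' α' ^ 2) * qq W P α α' := by
    rw [qq_sum_eq (wt y x) (fun α => wt y' x' α * hh y' x' α ^ 2), ← re_trace_Gr]
    refine re_sum_ge_trace' H.hn _ _ zero_le_one (fun c d => ?_) H.gramW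
    refine (norm_Gr_le (ψ := wt y' x') (fun α => ?_) P c d).trans H.tP'
    rw [abs_of_nonneg (mul_nonneg (wt_nonneg H.y0' H.x0' α) (sq_nonneg _))]
    exact H.symm.h_sq_le
  -- second term
  have h5 : - (n ^ 3 * e1) ≤
      ∑ α, ∑ α', (wt y x α * hh y x α) * (wt y' x' α' * hh y' x' α') * qq W P α α' := by
    rw [qq_sum_eq (fun α => wt y x α * hh y x α) (fun α => wt y' x' α * hh y' x' α),
      re_sum_split' _ (Gr (fun α => wt y' x' α * hh y' x' α) P), re_sum_self]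
    have k1 := re_sum_abs_le (fun c d => Gr (fun α => wt y x α * hh y x α) W c d -
      Gr (fun α => wt y' x' α * hh y' x' α) P c d) (Gr (fun α => wt y' x' α * hh y' x' α) P)
      he1 H.hGh H.GhP_le
    have k2 := (abs_le.mp k1).1
    have k3 := mul_le_mul_of_nonneg_left k2 hn0.le
    have k4 : 0 ≤ ∑ c, ∑ d, ‖Gr (fun α => wt y' x' α * hh y' x' α) P c d‖ ^ 2 :=
      Finset.sum_nonneg fun _ _ => Finset.sum_nonneg fun _ _ => by positivity
    have k5 := mul_nonneg hn0.le k4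
    nlinarith [k3, k5]
  rw [h2] at h1
  have hf2 := H.f2_nonneg
  have hn3 : (0 : ℝ) ≤ n ^ 3 * e1 := by positivity
  unfold f4
  nlinarith [h1, h3, h4, h5]

lemma tauW (H : PairHyp ε e1 y x y' x' W P) :
    Tr (fun α => wt y x α * hh y x α ^ 2) W ≤ f4 n ε e1 := by
  have h1 := H.tau_add_le
  have h2 : 0 ≤ Tr (fun α => wt y' x' α * hh y' x' α ^ 2) P :=
    Tr_nonneg (fun α => mul_nonneg (wt_nonneg H.y0' H.x0' α) (sq_nonneg _)) P
  linarith

lemma sigmaW (H : PairHyp ε e1 y x y' x' W P) :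
    Tr (fun α => wt y x α * |hh y x α|) W ≤ Real.sqrt (f4 n ε e1) := by
  apply Real.le_sqrt_of_sq_le
  have h1 := weighted_cs Finset.univ (fun α => wt y x α * ∑ c, ‖W c α‖ ^ 2)
    (fun α _ => mul_nonneg (wt_nonneg H.y0 H.x0 α) (Finset.sum_nonneg fun _ _ => by positivity))
    (fun α => |hh y x α|) (fun _ => 1)
  have e1' : ∑ α, (wt y x α * ∑ c, ‖W c α‖ ^ 2) * (|hh y x α| * 1) =
      Tr (fun α => wt y x α * |hh y x α|) W := by
    unfold Tr
    apply Finset.sum_congr rfl; intro α _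
    ring
  have e2 : ∑ α, (wt y x α * ∑ c, ‖W c α‖ ^ 2) * |hh y x α| ^ 2 =
      Tr (fun α => wt y x α * hh y x α ^ 2) W := by
    unfold Tr
    apply Finset.sum_congr rfl; intro α _
    rw [sq_abs]
    ring
  have e3 : ∑ α, (wt y x α * ∑ c, ‖W c α‖ ^ 2) * (1 : ℝ) ^ 2 = Tr (wt y x) W := by
    unfold Tr
    apply Finset.sum_congr rfl; intro α _
    ring
  rw [e1', e2, e3] at h1
  have h2 := H.tauW
  have h3 := H.tW'
  have h4 : 0 ≤ Tr (wt y x) W := Tr_nonneg (wt_nonneg H.y0 H.x0) W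
  have h5 := H.f4_nonneg
  calc _ ≤ _ := h1
    _ ≤ f4 n ε e1 * 1 := mul_le_mul h2 h3 h4 h5
    _ = _ := mul_one _

/-- Row bound. -/
lemma rowW (H : PairHyp ε e1 y x y' x' W P) (j : J) :
    (∑ i, ∑ c, ‖W c (j, i)‖ ^ 2) * (1 - f5 n ε e1) ≤ 1 := by
  have hn0 : (0 : ℝ) < n := by exact_mod_cast H.hn
  set U : Fin n → I → ℂ := fun c i => W c (j, i) with hU
  set r : ℝ := ∑ i, ∑ c, ‖W c (j, i)‖ ^ 2 with hr
  have hr0 : 0 ≤ r := Finset.sum_nonneg fun _ _ => Finset.sum_nonneg fun _ _ => by positivity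
  have hTrU : Tr (fun _ => 1) U = r := by
    unfold Tr
    simp only [one_mul]
    rfl
  -- upper bound
  have h1 : ∑ i, ∑ α', (wt y' x' α' * (1 - 2 * |hh y' x' α'|)) * qq W P (j, i) α' ≤ 1 := by
    calc ∑ i, ∑ α', (wt y' x' α' * (1 - 2 * |hh y' x' α'|)) * qq W P (j, i) α'
        ≤ ∑ i, ∑ α', y' α'.1 ^ 2 * qq W P (j, i) α' := by
          apply Finset.sum_le_sum; intro i _
          apply Finset.sum_le_sum; intro α' _
          exact mul_le_mul_of_nonneg_right (sq_ge_left H.y0' H.x0' α') (qq_nonneg _ _ _ _)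
      _ = ∑ j', y' j' ^ 2 * ∑ i, ∑ i', qq W P (j, i) (j', i') := by
          simp_rw [Fintype.sum_prod_type]
          rw [Finset.sum_comm]
          apply Finset.sum_congr rfl; intro j' _
          simp_rw [Finset.mul_sum]
      _ ≤ ∑ j', y' j' ^ 2 * 1 := by
          apply Finset.sum_le_sum; intro j' _
          exact mul_le_mul_of_nonneg_left (H.rows j j') (by positivity)
      _ ≤ 1 := by
          simp only [mul_one]
          exact H.ys'
  have h2 : ∑ i, ∑ α', (wt y' x' α' * (1 - 2 * |hh y' x' α'|)) * qq W P (j, i) α' =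
      ∑ i, ∑ α', wt y' x' α' * qq W P (j, i) α' -
      2 * ∑ i, ∑ α', (wt y' x' α' * |hh y' x' α'|) * qq W P (j, i) α' := by
    rw [Finset.mul_sum, ← Finset.sum_sub_distrib]
    apply Finset.sum_congr rfl; intro α _
    rw [Finset.mul_sum, ← Finset.sum_sub_distrib]
    apply Finset.sum_congr rfl; intro α' _
    ring
  -- main term
  have h3 : r - n ^ 3 * f2 n ε e1 * r ≤ ∑ i, ∑ α', wt y' x' α' * qq W P (j, i) α' := by
    have k1 : ∑ i, ∑ α', wt y' x' α' * qq W P (j, i) α' =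
        n * (∑ c, ∑ d, Gr (fun _ : I => 1) U c d * conj (Gr (wt y' x') P c d)).re := by
      rw [← tensor_identity, Finset.mul_sum]
      apply Finset.sum_congr rfl; intro i _
      rw [Finset.mul_sum]
      apply Finset.sum_congr rfl; intro α' _
      unfold qq
      ring
    rw [k1]
    have k2 := re_sum_ge_trace H.hn (Gr (fun _ : I => 1) U) (Gr (wt y' x') P) hr0
      (fun c d => by
        rw [← hTrU]
        exact norm_Gr_le (fun α => by simp) U c d) H.gramP'
    rw [re_trace_Gr, hTrU] at k2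
    exact k2
  -- error term
  have h4 : ∑ i, ∑ α', (wt y' x' α' * |hh y' x' α'|) * qq W P (j, i) α' ≤
      n * (r * Real.sqrt (f4 n ε e1)) := by
    have k1 := tensor_le (fun _ : I => 1) (fun α => wt y' x' α * |hh y' x' α|)
      (fun _ => zero_le_one) (fun α => mul_nonneg (wt_nonneg H.y0' H.x0' α) (abs_nonneg _)) U P
    rw [hTrU] at k1
    have k2 := H.symm.sigmaW
    have k3 := mul_le_mul_of_nonneg_left k2 hr0
    have k4 := mul_le_mul_of_nonneg_left (k1.trans k3) hn0.le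
    refine le_trans (le_of_eq ?_) k4
    rw [Finset.mul_sum]
    apply Finset.sum_congr rfl; intro i _
    rw [Finset.mul_sum]
    apply Finset.sum_congr rfl; intro α' _
    unfold qq
    ring
  rw [h2] at h1
  unfold f5
  nlinarith [h1, h3, h4]

lemma colW (H : PairHyp ε e1 y x y' x' W P) (i : I) :
    (∑ j, ∑ c, ‖W c (j, i)‖ ^ 2) * (1 - f5 n ε e1) ≤ 1 := H.transpose.rowW i

lemma rowP (H : PairHyp ε e1 y x y' x' W P) (j : J') :
    (∑ i, ∑ c, ‖P c (j, i)‖ ^ 2) * (1 - f5 n ε e1) ≤ 1 := H.symm.rowW j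

lemma colP (H : PairHyp ε e1 y x y' x' W P) (i : I') :
    (∑ j, ∑ c, ‖P c (j, i)‖ ^ 2) * (1 - f5 n ε e1) ≤ 1 := H.symm.colW i

lemma f5_nonneg (H : PairHyp ε e1 y x y' x' W P) : 0 ≤ f5 n ε e1 := by
  unfold f5
  have h3 := H.f2_nonneg
  positivity

/-- The trace of `L`. -/
lemma trL_ge (H : PairHyp ε e1 y x y' x' W P) :
    1 - ε - 2 * Real.sqrt (f4 n ε e1) ≤ Tr (fun α => y α.1 ^ 2) W := by
  have h1 : Tr (wt y x) W - 2 * Tr (fun α => wt y x α * |hh y x α|) W ≤
      Tr (fun α => y α.1 ^ 2) W := by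
    have k1 : Tr (wt y x) W - 2 * Tr (fun α => wt y x α * |hh y x α|) W =
        Tr (fun α => wt y x α * (1 - 2 * |hh y x α|)) W := by
      unfold Tr
      rw [Finset.mul_sum, ← Finset.sum_sub_distrib]
      apply Finset.sum_congr rfl; intro α _
      ring
    rw [k1]
    exact Tr_mono (sq_ge_left H.y0 H.x0) W
  have h2 := H.sigmaW
  have h3 := H.tW
  linarith

lemma trL_le (H : PairHyp ε e1 y x y' x' W P) :
    Tr (fun α => y α.1 ^ 2) W * (1 - f5 n ε e1) ≤ 1 := by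
  rcases le_total 0 (1 - f5 n ε e1) with h0 | h0
  · have h1 : Tr (fun α => y α.1 ^ 2) W = ∑ j, y j ^ 2 * ∑ i, ∑ c, ‖W c (j, i)‖ ^ 2 := by
      unfold Tr
      rw [Fintype.sum_prod_type]
      apply Finset.sum_congr rfl; intro j _
      rw [Finset.mul_sum]
    rw [h1, Finset.sum_mul]
    calc ∑ j, y j ^ 2 * (∑ i, ∑ c, ‖W c (j, i)‖ ^ 2) * (1 - f5 n ε e1)
        ≤ ∑ j, y j ^ 2 * 1 := by
          apply Finset.sum_le_sum; intro j _
          rw [mul_assoc]
          exact mul_le_mul_of_nonneg_left (H.rowW j) (by positivity)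
      _ ≤ 1 := by
          simp only [mul_one]
          exact H.ys
  · have h1 : 0 ≤ Tr (fun α => y α.1 ^ 2) W := Tr_nonneg (fun α => by positivity) W
    nlinarith [mul_nonneg h1 (neg_nonneg.mpr h0)]

lemma trR_le (H : PairHyp ε e1 y x y' x' W P) :
    Tr (fun α => x α.2 ^ 2) W * (1 - f5 n ε e1) ≤ 1 := by
  have h := H.transpose.trL_le
  rw [Tr_swap (fun α : J × I => x α.2 ^ 2) (fun α : I × J => x α.1 ^ 2) (fun _ _ => rfl)] at h
  exact h

end PairHyp

end Pool.Agent.Lib.MP_f84017_an
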