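import Pool.Agent.Lib.MP_f84017_an.Basic

open scoped ComplexConjugate BigOperators

noncomputable section

set_option linter.unusedSectionVars false

namespace Pool.Agent.Lib.MP_f84017_an

variable {n : ℕ} {J I J' I' : Type*} [Fintype J] [Fintype I] [Fintype J'] [Fintype I']

/-- product weight -/
def wt (y : J → ℝ) (x : I → ℝ) : J × I → ℝ := fun α => y α.1 * x α.2

/-- relative difference of the weights -/
def hh (y : J → ℝ) (x : I → ℝ) : J × I → ℝ := fun α => (y α.1 - x α.2) / (y α.1 + x α.2)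

/-- The squares of the entries of the tensor `√n ∑ W_c ⊗ conj P_c`. -/
def qq (W : Fin n → J × I → ℂ) (P : Fin n → J' × I' → ℂ) (α : J × I) (α' : J' × I') : ℝ :=
  n * ‖∑ c, W c α * conj (P c α')‖ ^ 2

lemma qq_nonneg (W : Fin n → J × I → ℂ) (P : Fin n → J' × I' → ℂ) (α : J × I) (α' : J' × I') :
    0 ≤ qq W P α α' := by unfold qq; positivity

lemma qq_comm (W : Fin n → J × I → ℂ) (P : Fin n → J' × I' → ℂ) (α : J × I) (α' : J' × I') :
    qq W P α α' = qq P W α' α := by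
  unfold qq
  congr 2
  rw [← RCLike.norm_conj, map_sum]
  congr 1
  apply Finset.sum_congr rfl; intro c _
  rw [map_mul, Complex.conj_conj, mul_comm]

lemma abs_hh_le_one {y : J → ℝ} {x : I → ℝ} (hy : ∀ j, 0 ≤ y j) (hx : ∀ i, 0 ≤ x i) (α : J × I) :
    |hh y x α| ≤ 1 := by
  unfold hh
  have h1 := hy α.1
  have h2 := hx α.2
  rw [abs_div, abs_of_nonneg (add_nonneg h1 h2)]
  apply div_le_one_of_le₀ _ (add_nonneg h1 h2)
  rw [abs_le]
  constructor <;> linarith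

lemma wt_nonneg {y : J → ℝ} {x : I → ℝ} (hy : ∀ j, 0 ≤ y j) (hx : ∀ i, 0 ≤ x i) (α : J × I) :
    0 ≤ wt y x α := mul_nonneg (hy _) (hx _)

lemma sq_ge_left {y : J → ℝ} {x : I → ℝ} (hy : ∀ j, 0 ≤ y j) (hx : ∀ i, 0 ≤ x i) (α : J × I) :
    wt y x α * (1 - 2 * |hh y x α|) ≤ y α.1 ^ 2 := by
  have h1 := hy α.1
  have h2 := hx α.2
  unfold wt hh
  set a := y α.1
  set b := x α.2
  rcases (add_nonneg h1 h2).eq_or_lt with h0 | h0
  · have ha : a = 0 := by linarith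
    rw [ha]; simp
  · rcases le_total b a with hab | hab
    · have : 0 ≤ |(a - b) / (a + b)| := abs_nonneg _
      nlinarith [mul_nonneg h1 h2, mul_nonneg (mul_nonneg h1 h2) this, mul_le_mul_of_nonneg_left hab h1]
    · have e1 : |(a - b) / (a + b)| = (b - a) / (a + b) := by
        rw [abs_div, abs_of_pos h0, abs_of_nonpos (by linarith)]
        ring
      rw [e1]
      have e2 : a * b * (1 - 2 * ((b - a) / (a + b))) = (a * b * (a + b - 2 * (b - a))) / (a + b) := by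
        field_simp
      rw [e2, div_le_iff₀ h0]
      nlinarith [mul_nonneg h1 h2, mul_nonneg h1 (sq_nonneg (a - b))]

lemma sq_ge_right {y : J → ℝ} {x : I → ℝ} (hy : ∀ j, 0 ≤ y j) (hx : ∀ i, 0 ≤ x i) (α : J × I) :
    wt y x α * (1 - 2 * |hh y x α|) ≤ x α.2 ^ 2 := by
  have h := sq_ge_left (y := x) (x := y) hx hy (α.2, α.1)
  have e1 : wt x y (α.2, α.1) = wt y x α := by unfold wt; simp [mul_comm]
  have e2 : |hh x y (α.2, α.1)| = |hh y x α| := by
    unfold hh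
    simp only
    rw [← abs_neg, ← neg_div, neg_sub, add_comm (x α.2)]
  rw [e1, e2] at h
  exact h

lemma four_le {a b a' b' : ℝ} (ha : 0 ≤ a) (hb : 0 ≤ b) (ha' : 0 ≤ a') (hb' : 0 ≤ b') :
    4 * (a * b * (a' * b')) * ((a - b) / (a + b) + (a' - b') / (a' + b')) ^ 2 ≤
      (a * a' - b * b') ^ 2 := by
  rcases (add_nonneg ha hb).eq_or_lt with h0 | h0
  · have h1 : a = 0 := by linarith
    rw [h1]; simp; positivity
  rcases (add_nonneg ha' hb').eq_or_lt with h0' | h0'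
  · have h1 : a' = 0 := by linarith
    rw [h1]; simp; positivity
  have e1 : (a - b) / (a + b) + (a' - b') / (a' + b') =
      2 * (a * a' - b * b') / ((a + b) * (a' + b')) := by
    field_simp
    ring
  rw [e1, div_pow, ← mul_div_assoc, div_le_iff₀ (by positivity)]
  have e2 : 4 * (a * b) ≤ (a + b) ^ 2 := by nlinarith [sq_nonneg (a - b)]
  have e3 : 4 * (a' * b') ≤ (a' + b') ^ 2 := by nlinarith [sq_nonneg (a' - b')]
  have e4 : (4 * (a * b)) * (4 * (a' * b')) ≤ (a + b) ^ 2 * (a' + b') ^ 2 :=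
    mul_le_mul e2 e3 (by positivity) (by positivity)
  have e5 := mul_le_mul_of_nonneg_left e4 (sq_nonneg (a * a' - b * b'))
  nlinarith [e5]

lemma sum_rows (F : J × I → J' × I' → ℝ) :
    ∑ α, ∑ α', F α α' = ∑ j, ∑ j', ∑ i, ∑ i', F (j, i) (j', i') := by
  rw [Fintype.sum_prod_type]
  apply Finset.sum_congr rfl; intro j _
  simp_rw [Fintype.sum_prod_type]
  rw [Finset.sum_comm]

lemma sum_cols (F : J × I → J' × I' → ℝ) :
    ∑ α, ∑ α', F α α' = ∑ i, ∑ i', ∑ j, ∑ j', F (j, i) (j', i') := by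
  rw [Fintype.sum_prod_type, Finset.sum_comm]
  apply Finset.sum_congr rfl; intro i _
  simp_rw [Fintype.sum_prod_type]
  calc ∑ j, ∑ j', ∑ i', F (j, i) (j', i') = ∑ j, ∑ i', ∑ j', F (j, i) (j', i') := by
        apply Finset.sum_congr rfl; intro j _
        rw [Finset.sum_comm]
    _ = _ := by rw [Finset.sum_comm]

lemma wt_swap (y : J → ℝ) (x : I → ℝ) (j : J) (i : I) : wt x y (i, j) = wt y x (j, i) := by
  simp [wt, mul_comm]

lemma wt_hh_swap (y : J → ℝ) (x : I → ℝ) (j : J) (i : I) :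
    wt x y (i, j) * hh x y (i, j) = - (wt y x (j, i) * hh y x (j, i)) := by
  unfold wt hh
  simp only
  rw [show (x i - y j) / (x i + y j) = - ((y j - x i) / (y j + x i)) by
    rw [← neg_div, neg_sub, add_comm]]
  ring

lemma Tr_swap (φ : J × I → ℝ) (ψ : I × J → ℝ) (h : ∀ j i, ψ (i, j) = φ (j, i))
    (W : Fin n → J × I → ℂ) : Tr ψ (fun c α => W c (α.2, α.1)) = Tr φ W := by
  unfold Tr
  rw [Fintype.sum_prod_type, Fintype.sum_prod_type, Finset.sum_comm]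
  simp only [h]

lemma Gr_swap (φ : J × I → ℝ) (ψ : I × J → ℝ) (h : ∀ j i, ψ (i, j) = φ (j, i))
    (W : Fin n → J × I → ℂ) (c d : Fin n) :
    Gr ψ (fun c α => W c (α.2, α.1)) c d = Gr φ W c d := by
  unfold Gr
  rw [Fintype.sum_prod_type, Fintype.sum_prod_type, Finset.sum_comm]
  simp only [h]

lemma Gr_swap_neg (φ : J × I → ℝ) (ψ : I × J → ℝ) (h : ∀ j i, ψ (i, j) = - φ (j, i))
    (W : Fin n → J × I → ℂ) (c d : Fin n) :
    Gr ψ (fun c α => W c (α.2, α.1)) c d = - Gr φ W c d := by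
  unfold Gr
  rw [Fintype.sum_prod_type, Fintype.sum_prod_type, Finset.sum_comm, ← Finset.sum_neg_distrib]
  apply Finset.sum_congr rfl; intro j _
  rw [← Finset.sum_neg_distrib]
  apply Finset.sum_congr rfl; intro i _
  rw [h]
  push_cast
  ring

/-- The hypotheses on a pair of tuples. -/
structure PairHyp (ε e1 : ℝ) (y : J → ℝ) (x : I → ℝ) (y' : J' → ℝ) (x' : I' → ℝ)
    (W : Fin n → J × I → ℂ) (P : Fin n → J' × I' → ℂ) : Prop where
  hn : 1 ≤ n
  he : 0 ≤ ε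
  he1 : 0 ≤ e1
  y0 : ∀ j, 0 ≤ y j
  x0 : ∀ i, 0 ≤ x i
  y0' : ∀ j, 0 ≤ y' j
  x0' : ∀ i, 0 ≤ x' i
  ys : ∑ j, y j ^ 2 ≤ 1
  xs : ∑ i, x i ^ 2 ≤ 1
  ys' : ∑ j, y' j ^ 2 ≤ 1
  xs' : ∑ i, x' i ^ 2 ≤ 1
  rows : ∀ j j', ∑ i, ∑ i', qq W P (j, i) (j', i') ≤ 1
  cols : ∀ i i', ∑ j, ∑ j', qq W P (j, i) (j', i') ≤ 1
  tW : 1 - ε ≤ Tr (wt y x) W
  tW' : Tr (wt y x) W ≤ 1
  tP : 1 - ε ≤ Tr (wt y' x') P
  tP' : Tr (wt y' x') P ≤ 1
  hG : ∀ c d, ‖Gr (wt y x) W c d - Gr (wt y' x') P c d‖ ≤ e1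
  hGh : ∀ c d, ‖Gr (fun α => wt y x α * hh y x α) W c d -
    Gr (fun α => wt y' x' α * hh y' x' α) P c d‖ ≤ e1

/-- error function -/
def f2 (n : ℕ) (ε e1 : ℝ) : ℝ := Real.sqrt (n ^ 2 * e1 + 2 * ε) + e1
/-- error function -/
def f4 (n : ℕ) (ε e1 : ℝ) : ℝ := ε + 3 * n ^ 3 * e1 + 2 * n ^ 3 * f2 n ε e1
/-- error function -/
def f5 (n : ℕ) (ε e1 : ℝ) : ℝ := n ^ 3 * f2 n ε e1 + 2 * n * Real.sqrt (f4 n ε e1)

namespace PairHyp

variable {ε e1 : ℝ} {y : J → ℝ} {x : I → ℝ} {y' : J' → ℝ} {x' : I' → ℝ}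
    {W : Fin n → J × I → ℂ} {P : Fin n → J' × I' → ℂ}

lemma symm (H : PairHyp ε e1 y x y' x' W P) : PairHyp ε e1 y' x' y x P W where
  hn := H.hn
  he := H.he
  he1 := H.he1
  y0 := H.y0'
  x0 := H.x0'
  y0' := H.y0
  x0' := H.x0
  ys := H.ys'
  xs := H.xs'
  ys' := H.ys
  xs' := H.xs
  rows := by
    intro j' j
    rw [Finset.sum_comm]
    simp_rw [qq_comm P W]
    exact H.rows j j'
  cols := by
    intro j' j
    rw [Finset.sum_comm]
    simp_rw [qq_comm P W]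
    exact H.cols j j'
  tW := H.tP
  tW' := H.tP'
  tP := H.tW
  tP' := H.tW'
  hG := by
    intro c d
    rw [norm_sub_rev]
    exact H.hG c d
  hGh := by
    intro c d
    rw [norm_sub_rev]
    exact H.hGh c d

/-- The transposed pair. -/
lemma transpose (H : PairHyp ε e1 y x y' x' W P) :
    PairHyp ε e1 x y x' y' (fun c α => W c (α.2, α.1)) (fun c α => P c (α.2, α.1)) := by
  refine ⟨H.hn, H.he, H.he1, H.x0, H.y0, H.x0', H.y0', H.xs, H.ys, H.xs', H.ys', ?_, ?_, ?_, ?_,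
    ?_, ?_, ?_, ?_⟩
  · intro i i'
    exact H.cols i i'
  · intro j j'
    exact H.rows j j'
  · rw [Tr_swap (wt y x) (wt x y) (wt_swap y x)]
    exact H.tW
  · rw [Tr_swap (wt y x) (wt x y) (wt_swap y x)]
    exact H.tW'
  · rw [Tr_swap (wt y' x') (wt x' y') (wt_swap y' x')]
    exact H.tP
  · rw [Tr_swap (wt y' x') (wt x' y') (wt_swap y' x')]
    exact H.tP'
  · intro c d
    rw [Gr_swap (wt y x) (wt x y) (wt_swap y x), Gr_swap (wt y' x') (wt x' y') (wt_swap y' x')]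
    exact H.hG c d
  · intro c d
    rw [Gr_swap_neg (fun α => wt y x α * hh y x α) (fun α => wt x y α * hh x y α) (wt_hh_swap y x),
      Gr_swap_neg (fun α => wt y' x' α * hh y' x' α) (fun α => wt x' y' α * hh x' y' α)
        (wt_hh_swap y' x'), ← neg_sub', norm_neg]
    exact H.hGh c d

end PairHyp

end Pool.Agent.Lib.MP_f84017_an
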