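import Pool.Agent.Lib.MP_f84017_an.PairDef

open scoped ComplexConjugate BigOperators

noncomputable section

namespace Pool.Agent.Lib.MP_f84017_an

variable {n : ℕ}

/-- the matrix `δ/n` -/
def dn (n : ℕ) (c d : Fin n) : ℂ := if c = d then (((n : ℝ)⁻¹ : ℝ) : ℂ) else 0

lemma re_sum_abs_le (A E : Fin n → Fin n → ℂ) {B e : ℝ} (hB : 0 ≤ B) (hA : ∀ c d, ‖A c d‖ ≤ B)
    (hE : ∀ c d, ‖E c d‖ ≤ e) : |(∑ c, ∑ d, A c d * conj (E c d)).re| ≤ n ^ 2 * (B * e) := by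
  refine (Complex.abs_re_le_norm _).trans ?_
  refine (norm_sum_le _ _).trans ?_
  calc ∑ c, ‖∑ d, A c d * conj (E c d)‖ ≤ ∑ c : Fin n, ∑ d : Fin n, B * e := by
        apply Finset.sum_le_sum; intro c _
        refine (norm_sum_le _ _).trans ?_
        apply Finset.sum_le_sum; intro d _
        rw [norm_mul, RCLike.norm_conj]
        exact mul_le_mul (hA c d) (hE c d) (norm_nonneg _) hB
    _ = n ^ 2 * (B * e) := by
        simp only [Finset.sum_const, Finset.card_univ, Fintype.card_fin, nsmul_eq_mul]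
        ring

lemma re_sum_split (A G G' : Fin n → Fin n → ℂ) :
    (∑ c, ∑ d, A c d * conj (G c d)).re =
      (∑ c, ∑ d, A c d * conj (G' c d)).re + (∑ c, ∑ d, A c d * conj (G c d - G' c d)).re := by
  rw [← Complex.add_re, ← Finset.sum_add_distrib]
  congr 1
  apply Finset.sum_congr rfl; intro c _
  rw [← Finset.sum_add_distrib]
  apply Finset.sum_congr rfl; intro d _
  rw [map_sub]
  ring

lemma re_sum_split' (G G' A : Fin n → Fin n → ℂ) :
    (∑ c, ∑ d, G c d * conj (A c d)).re =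
      (∑ c, ∑ d, G' c d * conj (A c d)).re + (∑ c, ∑ d, (G c d - G' c d) * conj (A c d)).re := by
  rw [← Complex.add_re, ← Finset.sum_add_distrib]
  congr 1
  apply Finset.sum_congr rfl; intro c _
  rw [← Finset.sum_add_distrib]
  apply Finset.sum_congr rfl; intro d _
  ring

lemma re_sum_self (A : Fin n → Fin n → ℂ) :
    (∑ c, ∑ d, A c d * conj (A c d)).re = ∑ c, ∑ d, ‖A c d‖ ^ 2 := by
  rw [Complex.re_sum]
  apply Finset.sum_congr rfl; intro c _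
  rw [Complex.re_sum]
  apply Finset.sum_congr rfl; intro d _
  rw [Complex.mul_conj, Complex.normSq_eq_norm_sq, Complex.ofReal_re]

lemma re_sum_dn (A : Fin n → Fin n → ℂ) :
    (∑ c, ∑ d, A c d * conj (dn n c d)).re = (n : ℝ)⁻¹ * (∑ c, A c c).re := by
  have h1 : ∀ c, ∑ d, A c d * conj (dn n c d) = A c c * (((n : ℝ)⁻¹ : ℝ) : ℂ) := by
    intro c
    rw [Finset.sum_eq_single c]
    · simp only [dn, if_true, Complex.conj_ofReal]
    · intro d _ hd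
      rw [dn, if_neg (fun h => hd h.symm), map_zero, mul_zero]
    · simp
  simp_rw [h1]
  rw [← Finset.sum_mul, mul_comm, Complex.re_ofReal_mul]

/-- Lower bound for `n ⟨A, G⟩` when `G` is close to `δ/n`. -/
lemma re_sum_ge_trace (hn : 1 ≤ n) (A G : Fin n → Fin n → ℂ) {B e : ℝ} (hB : 0 ≤ B)
    (hA : ∀ c d, ‖A c d‖ ≤ B) (hG : ∀ c d, ‖G c d - dn n c d‖ ≤ e) :
    (∑ c, A c c).re - n ^ 3 * e * B ≤ n * (∑ c, ∑ d, A c d * conj (G c d)).re := by
  have hn0 : (0 : ℝ) < n := by exact_mod_cast hn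
  rw [re_sum_split A G (dn n), re_sum_dn]
  have h1 := re_sum_abs_le A (fun c d => G c d - dn n c d) hB hA hG
  have h2 := (abs_le.mp h1).1
  have h3 : (n : ℝ) * ((n : ℝ)⁻¹ * (∑ c, A c c).re) = (∑ c, A c c).re := by
    rw [← mul_assoc, mul_inv_cancel₀ hn0.ne', one_mul]
  rw [mul_add, h3]
  have h4 := mul_le_mul_of_nonneg_left h2 hn0.le
  nlinarith [h4]

/-- Lower bound for `n ⟨G, A⟩` when `G` is close to `δ/n`. -/
lemma re_sum_ge_trace' (hn : 1 ≤ n) (A G : Fin n → Fin n → ℂ) {B e : ℝ} (hB : 0 ≤ B)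
    (hA : ∀ c d, ‖A c d‖ ≤ B) (hG : ∀ c d, ‖G c d - dn n c d‖ ≤ e) :
    (∑ c, A c c).re - n ^ 3 * e * B ≤ n * (∑ c, ∑ d, G c d * conj (A c d)).re := by
  have h1 := re_sum_ge_trace hn A G hB hA hG
  have h2 : (∑ c, ∑ d, G c d * conj (A c d)).re = (∑ c, ∑ d, A c d * conj (G c d)).re := by
    rw [← Complex.conj_re, map_sum]
    congr 1
    apply Finset.sum_congr rfl; intro c _
    rw [map_sum]
    apply Finset.sum_congr rfl; intro d _
    rw [map_mul, Complex.conj_conj, mul_comm]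
  rw [h2]
  exact h1

variable {J I J' I' : Type*} [Fintype J] [Fintype I] [Fintype J'] [Fintype I']

lemma qq_sum_eq (φ : J × I → ℝ) (φ' : J' × I' → ℝ) (W : Fin n → J × I → ℂ)
    (P : Fin n → J' × I' → ℂ) :
    ∑ α, ∑ α', φ α * φ' α' * qq W P α α' =
      n * (∑ c, ∑ d, Gr φ W c d * conj (Gr φ' P c d)).re := by
  rw [← tensor_identity, Finset.mul_sum]
  apply Finset.sum_congr rfl; intro α _
  rw [Finset.mul_sum]
  apply Finset.sum_congr rfl; intro α' _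
  unfold qq
  ring

lemma re_trace_Gr {A : Type*} [Fintype A] (φ : A → ℝ) (W : Fin n → A → ℂ) :
    (∑ c, Gr φ W c c).re = Tr φ W := by
  rw [← Tr_eq, Complex.ofReal_re]

namespace PairHyp

variable {ε e1 : ℝ} {y : J → ℝ} {x : I → ℝ} {y' : J' → ℝ} {x' : I' → ℝ}
    {W : Fin n → J × I → ℂ} {P : Fin n → J' × I' → ℂ}

lemma sum_y (H : PairHyp ε e1 y x y' x' W P) :
    ∑ α, ∑ α', (y α.1 ^ 2 * y' α'.1 ^ 2) * qq W P α α' ≤ 1 := by
  rw [sum_rows (fun α α' => (y α.1 ^ 2 * y' α'.1 ^ 2) * qq W P α α')]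
  calc ∑ j, ∑ j', ∑ i, ∑ i', (y j ^ 2 * y' j' ^ 2) * qq W P (j, i) (j', i')
      = ∑ j, ∑ j', (y j ^ 2 * y' j' ^ 2) * ∑ i, ∑ i', qq W P (j, i) (j', i') := by
        simp_rw [Finset.mul_sum]
    _ ≤ ∑ j, ∑ j', (y j ^ 2 * y' j' ^ 2) * 1 := by
        apply Finset.sum_le_sum; intro j _
        apply Finset.sum_le_sum; intro j' _
        exact mul_le_mul_of_nonneg_left (H.rows j j') (by positivity)
    _ = (∑ j, y j ^ 2) * ∑ j', y' j' ^ 2 := by
        simp_rw [mul_one]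
        rw [Finset.sum_mul_sum]
    _ ≤ 1 * 1 := mul_le_mul H.ys H.ys' (Finset.sum_nonneg fun _ _ => by positivity) zero_le_one
    _ = 1 := one_mul 1

lemma sum_x (H : PairHyp ε e1 y x y' x' W P) :
    ∑ α, ∑ α', (x α.2 ^ 2 * x' α'.2 ^ 2) * qq W P α α' ≤ 1 := by
  rw [sum_cols (fun α α' => (x α.2 ^ 2 * x' α'.2 ^ 2) * qq W P α α')]
  calc ∑ i, ∑ i', ∑ j, ∑ j', (x i ^ 2 * x' i' ^ 2) * qq W P (j, i) (j', i')
      = ∑ i, ∑ i', (x i ^ 2 * x' i' ^ 2) * ∑ j, ∑ j', qq W P (j, i) (j', i') := by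
        simp_rw [Finset.mul_sum]
    _ ≤ ∑ i, ∑ i', (x i ^ 2 * x' i' ^ 2) * 1 := by
        apply Finset.sum_le_sum; intro j _
        apply Finset.sum_le_sum; intro j' _
        exact mul_le_mul_of_nonneg_left (H.cols j j') (by positivity)
    _ = (∑ i, x i ^ 2) * ∑ i', x' i' ^ 2 := by
        simp_rw [mul_one]
        rw [Finset.sum_mul_sum]
    _ ≤ 1 * 1 := mul_le_mul H.xs H.xs' (Finset.sum_nonneg fun _ _ => by positivity) zero_le_one
    _ = 1 := one_mul 1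

/-- the sum `S` -/
lemma sum_diff (H : PairHyp ε e1 y x y' x' W P) :
    ∑ α, ∑ α', ((y α.1 * y' α'.1 - x α.2 * x' α'.2) ^ 2) * qq W P α α' ≤
      2 - 2 * ∑ α, ∑ α', wt y x α * wt y' x' α' * qq W P α α' := by
  have h1 : ∑ α, ∑ α', ((y α.1 * y' α'.1 - x α.2 * x' α'.2) ^ 2) * qq W P α α' =
      ∑ α, ∑ α', (y α.1 ^ 2 * y' α'.1 ^ 2) * qq W P α α' +
      ∑ α, ∑ α', (x α.2 ^ 2 * x' α'.2 ^ 2) * qq W P α α' -
      2 * ∑ α, ∑ α', wt y x α * wt y' x' α' * qq W P α α' := by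
    rw [Finset.mul_sum, ← Finset.sum_add_distrib, ← Finset.sum_sub_distrib]
    apply Finset.sum_congr rfl; intro α _
    rw [Finset.mul_sum, ← Finset.sum_add_distrib, ← Finset.sum_sub_distrib]
    apply Finset.sum_congr rfl; intro α' _
    unfold wt
    ring
  have := H.sum_y
  have := H.sum_x
  linarith

lemma S_le_one (H : PairHyp ε e1 y x y' x' W P) :
    ∑ α, ∑ α', wt y x α * wt y' x' α' * qq W P α α' ≤ 1 := by
  have h := H.sum_diff
  have h0 : 0 ≤ ∑ α, ∑ α', ((y α.1 * y' α'.1 - x α.2 * x' α'.2) ^ 2) * qq W P α α' :=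
    Finset.sum_nonneg fun α _ => Finset.sum_nonneg fun α' _ =>
      mul_nonneg (sq_nonneg _) (qq_nonneg _ _ _ _)
  linarith

lemma GP_le (H : PairHyp ε e1 y x y' x' W P) (c d : Fin n) :
    ‖Gr (wt y' x') P c d‖ ≤ 1 :=
  (norm_Gr_le (fun α => le_of_eq (abs_of_nonneg (wt_nonneg H.y0' H.x0' α))) P c d).trans H.tP'

lemma GhP_le (H : PairHyp ε e1 y x y' x' W P) (c d : Fin n) :
    ‖Gr (fun α => wt y' x' α * hh y' x' α) P c d‖ ≤ 1 := by
  refine (norm_Gr_le (ψ := wt y' x') (fun α => ?_) P c d).trans H.tP'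
  have h1 := wt_nonneg H.y0' H.x0' α
  rw [abs_mul, abs_of_nonneg h1]
  exact mul_le_of_le_one_right h1 (abs_hh_le_one H.y0' H.x0' α)

/-- `S` compared with the Hilbert-Schmidt norm of the Gram matrix. -/
lemma S_bounds (H : PairHyp ε e1 y x y' x' W P) :
    n * ∑ c, ∑ d, ‖Gr (wt y' x') P c d‖ ^ 2 - n ^ 3 * e1 ≤
      ∑ α, ∑ α', wt y x α * wt y' x' α' * qq W P α α' := by
  have hn0 : (0 : ℝ) < n := by exact_mod_cast H.hn
  rw [qq_sum_eq, re_sum_split' _ (Gr (wt y' x') P), re_sum_self]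
  have h1 : |(∑ c, ∑ d, (Gr (wt y x) W c d - Gr (wt y' x') P c d) *
      conj (Gr (wt y' x') P c d)).re| ≤ n ^ 2 * (e1 * 1) :=
    re_sum_abs_le _ _ H.he1 H.hG H.GP_le
  have h2 := (abs_le.mp h1).1
  have h4 := mul_le_mul_of_nonneg_left h2 hn0.le
  nlinarith [h4]

lemma gram_sq (H : PairHyp ε e1 y x y' x' W P) :
    1 - 2 * ε ≤ n * ∑ c, ∑ d, ‖Gr (wt y' x') P c d‖ ^ 2 := by
  have hn0 : (0 : ℝ) < n := by exact_mod_cast H.hn
  set G := Gr (wt y' x') P with hG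
  have h1 : Tr (wt y' x') P = ∑ c, (G c c).re := by
    rw [← re_trace_Gr, Complex.re_sum]
  have h2 : (∑ c, (G c c).re) ^ 2 ≤ n * ∑ c, (G c c).re ^ 2 := by
    have := sq_sum_le_card_mul_sum_sq (s := Finset.univ) (f := fun c => (G c c).re)
    simpa using this
  have h3 : ∑ c, (G c c).re ^ 2 ≤ ∑ c, ∑ d, ‖G c d‖ ^ 2 := by
    apply Finset.sum_le_sum; intro c _
    calc (G c c).re ^ 2 ≤ ‖G c c‖ ^ 2 := by
          rw [← sq_abs]
          gcongr
          exact Complex.abs_re_le_norm _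
      _ ≤ ∑ d, ‖G c d‖ ^ 2 :=
          Finset.single_le_sum (f := fun d => ‖G c d‖ ^ 2) (fun _ _ => by positivity)
            (Finset.mem_univ c)
  have h4 := mul_le_mul_of_nonneg_left h3 hn0.le
  have h5 := H.tP
  rw [h1] at h5
  have h6 : 2 * (∑ c, (G c c).re) - 1 ≤ (∑ c, (G c c).re) ^ 2 := by
    nlinarith [sq_nonneg ((∑ c, (G c c).re) - 1)]
  linarith

lemma S_ge (H : PairHyp ε e1 y x y' x' W P) :
    1 - 2 * ε - n ^ 3 * e1 ≤ ∑ α, ∑ α', wt y x α * wt y' x' α' * qq W P α α' := by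
  have h1 := H.S_bounds
  have h2 := H.gram_sq
  linarith

/-- The Gram matrix of `P` is close to `δ/n`. -/
lemma gramP (H : PairHyp ε e1 y x y' x' W P) (c d : Fin n) :
    ‖Gr (wt y' x') P c d - dn n c d‖ ≤ Real.sqrt (n ^ 2 * e1 + 2 * ε) := by
  have hn0 : (0 : ℝ) < n := by exact_mod_cast H.hn
  have hn1 : (1 : ℝ) ≤ n := by exact_mod_cast H.hn
  apply Real.le_sqrt_of_sq_le
  set G := Gr (wt y' x') P with hG
  have h1 : ‖G c d - dn n c d‖ ^ 2 ≤ ∑ c, ∑ d, ‖G c d - dn n c d‖ ^ 2 := by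
    calc ‖G c d - dn n c d‖ ^ 2 ≤ ∑ d, ‖G c d - dn n c d‖ ^ 2 :=
          Finset.single_le_sum (f := fun d => ‖G c d - dn n c d‖ ^ 2) (fun _ _ => by positivity)
            (Finset.mem_univ d)
      _ ≤ ∑ c, ∑ d, ‖G c d - dn n c d‖ ^ 2 :=
          Finset.single_le_sum (f := fun c => ∑ d, ‖G c d - dn n c d‖ ^ 2)
            (fun _ _ => Finset.sum_nonneg fun _ _ => by positivity) (Finset.mem_univ c)
  refine h1.trans ?_
  have h2 : ∀ z w : ℂ, ‖z - w‖ ^ 2 = (z * conj z).re - 2 * (z * conj w).re + (w * conj w).re := by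
    intro z w
    rw [← Complex.normSq_eq_norm_sq, Complex.normSq_apply]
    simp only [Complex.sub_re, Complex.sub_im, Complex.mul_re, Complex.conj_re, Complex.conj_im]
    ring
  have h3 : ∑ c, ∑ d, ‖G c d - dn n c d‖ ^ 2 = ∑ c, ∑ d, ‖G c d‖ ^ 2 -
      2 * ((n : ℝ)⁻¹ * (∑ c, G c c).re) + (n : ℝ)⁻¹ := by
    simp_rw [h2]
    rw [← re_sum_self G, ← re_sum_dn G]
    have e1 : (n : ℝ)⁻¹ = (∑ c, ∑ d, dn n c d * conj (dn n c d)).re := by
      rw [re_sum_dn]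
      simp only [dn, if_true, Finset.sum_const, Finset.card_univ, Fintype.card_fin, nsmul_eq_mul]
      rw [show ((n : ℂ) * (((n : ℝ)⁻¹ : ℝ) : ℂ)).re = (n : ℝ) * (n : ℝ)⁻¹ by
        rw [show (n : ℂ) = (((n : ℝ)) : ℂ) by push_cast; rfl, ← Complex.ofReal_mul,
          Complex.ofReal_re]]
      field_simp
    conv_rhs => rw [e1]
    simp only [Complex.re_sum]
    rw [Finset.mul_sum, ← Finset.sum_sub_distrib, ← Finset.sum_add_distrib]
    apply Finset.sum_congr rfl; intro c _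
    rw [Finset.mul_sum, ← Finset.sum_sub_distrib, ← Finset.sum_add_distrib]
  rw [h3, re_trace_Gr]
  have h4 := H.S_bounds
  have h5 := H.S_le_one
  have h6 : n * ∑ c, ∑ d, ‖G c d‖ ^ 2 ≤ 1 + n ^ 3 * e1 := by linarith
  have h7 : ∑ c, ∑ d, ‖G c d‖ ^ 2 ≤ (n : ℝ)⁻¹ * (1 + n ^ 3 * e1) := by
    rw [← mul_le_mul_iff_right₀ hn0, ← mul_assoc, mul_inv_cancel₀ hn0.ne', one_mul]
    exact h6
  have h8 : (n : ℝ)⁻¹ * (1 + n ^ 3 * e1) = (n : ℝ)⁻¹ + n ^ 2 * e1 := by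
    field_simp
  have h9 : (n : ℝ)⁻¹ * (1 - ε) ≤ (n : ℝ)⁻¹ * Tr (wt y' x') P :=
    mul_le_mul_of_nonneg_left H.tP (by positivity)
  have h10 : (n : ℝ)⁻¹ ≤ 1 := inv_le_one_of_one_le₀ hn1
  have h11 : (n : ℝ)⁻¹ * ε ≤ 1 * ε := mul_le_mul_of_nonneg_right h10 H.he
  nlinarith

/-- The Gram matrix of `W` is close to `δ/n`. -/
lemma gramW (H : PairHyp ε e1 y x y' x' W P) (c d : Fin n) :
    ‖Gr (wt y x) W c d - dn n c d‖ ≤ f2 n ε e1 := by
  have h1 := H.gramP c d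
  have h2 := H.hG c d
  have h3 := norm_sub_le_norm_sub_add_norm_sub (Gr (wt y x) W c d) (Gr (wt y' x') P c d) (dn n c d)
  unfold f2
  linarith

lemma gramP' (H : PairHyp ε e1 y x y' x' W P) (c d : Fin n) :
    ‖Gr (wt y' x') P c d - dn n c d‖ ≤ f2 n ε e1 := by
  have h1 := H.gramP c d
  have h2 := H.he1
  unfold f2
  linarith

end PairHyp

end Pool.Agent.Lib.MP_f84017_an
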