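import Pool.Agent.Lib.MP_f84017_an.DetMax

open scoped ComplexConjugate BigOperators

noncomputable section

set_option linter.unusedSectionVars false

namespace Pool.Agent.Lib.MP_f84017_an

variable {H : Type*} [NormedAddCommGroup H] [InnerProductSpace ℂ H] {n k m : ℕ}

lemma BlockBound.mono {T : Fin k → Fin k → (H →L[ℂ] H)} {C C' : ℝ} (h : BlockBound T C)
    (h0 : 0 ≤ C) (hC : C ≤ C') : BlockBound T C' := by
  intro ξ
  refine (h ξ).trans ?_
  apply mul_le_mul_of_nonneg_right _ (Finset.sum_nonneg fun _ _ => by positivity)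
  gcongr

/-- Property (b') from maximality, for all `C ≥ 0`. -/
lemma goodB_of_max' {w : Fin n → (H →L[ℂ] H)} (hw : GoodA w)
    (hmax : ∀ K : Matrix (Fin n) (Fin n) ℂ, GoodA (lin w K) → ‖K.det‖ ≤ 1) : GoodB w := by
  intro k s C hC hs x y hx hy
  rcases hC.eq_or_lt with h0 | h0
  · -- limiting argument
    have h1 : ∀ t : ℝ, 0 < t → Tr (wt y x) s ≤ n * t ^ 2 := by
      intro t ht
      exact goodB_of_max hw hmax s ht (hs.mono hC (by linarith)) x y hx hy
    have h2 : Filter.Tendsto (fun t : ℝ => (n : ℝ) * t ^ 2) (nhdsWithin 0 (Set.Ioi 0))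
        (nhds (n * 0 ^ 2)) := by
      apply tendsto_nhdsWithin_of_tendsto_nhds
      have : Continuous (fun t : ℝ => (n : ℝ) * t ^ 2) := by fun_prop
      exact this.tendsto 0
    rw [← h0]
    refine ge_of_tendsto h2 ?_
    filter_upwards [self_mem_nhdsWithin] with t ht
    exact h1 t ht
  · exact goodB_of_max hw hmax s h0 hs x y hx hy

lemma exists_coord_bound {F : Type*} [NormedAddCommGroup F] [NormedSpace ℂ F]
    (v : Module.Basis (Fin n) ℂ F) :
    ∃ M : ℝ, 0 < M ∧ ∀ B : Fin n → ℂ, ‖B‖ ≤ M * ‖∑ b, B b • v b‖ := by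
  classical
  have : FiniteDimensional ℂ F := Module.Finite.of_basis v
  obtain ⟨M, hM0, hM⟩ := (v.equivFunL : F →L[ℂ] (Fin n → ℂ)).bound
  refine ⟨M, hM0, fun B => ?_⟩
  have h1 : v.equivFunL (∑ b, B b • v b) = B := by
    have := v.equivFun.apply_symm_apply B
    rw [Module.Basis.equivFun_symm_apply] at this
    exact this
  have h2 := hM (∑ b, B b • v b)
  rw [ContinuousLinearEquiv.coe_coe, h1] at h2
  exact h2

/-- The existence of a good basis. -/
theorem exists_good_basis (E : Submodule ℂ (H →L[ℂ] H)) (hE : Module.finrank ℂ E = n)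
    (hn : 1 ≤ n) : ∃ b : Module.Basis (Fin n) ℂ E, GoodA (fun a => (b a : H →L[ℂ] H)) ∧
      GoodB (fun a => (b a : H →L[ℂ] H)) := by
  classical
  have : Module.Finite ℂ E := Module.finite_of_finrank_pos (by omega)
  set v : Module.Basis (Fin n) ℂ E := Module.finBasisOfFinrankEq ℂ E hE with hv
  set V : Fin n → (H →L[ℂ] H) := fun b => (v b : H →L[ℂ] H) with hV
  set 𝒜 : Set (Fin n → Fin n → ℂ) := {B | GoodA (lin V B)} with h𝒜
  -- closedness
  have hclosed : IsClosed 𝒜 := by
    have h1 : 𝒜 = ⋂ (k : ℕ) (f : Fin k → H) (g : Fin k → H) (x : Fin k → ℝ) (y : Fin k → ℝ)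
        (_ : CF f) (_ : CF g) (_ : Wts x) (_ : Wts y),
        {B | Tr (wt y x) (compr (lin V B) f g) ≤ 1} := by
      ext B
      simp only [h𝒜, Set.mem_ofPred_eq, Set.mem_iInter, GoodA]
    rw [h1]
    refine isClosed_iInter fun k => isClosed_iInter fun f => isClosed_iInter fun g =>
      isClosed_iInter fun x => isClosed_iInter fun y => isClosed_iInter fun _ =>
      isClosed_iInter fun _ => isClosed_iInter fun _ => isClosed_iInter fun _ => ?_
    apply isClosed_le _ continuous_const
    unfold Tr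
    simp_rw [compr_lin]
    fun_prop
  -- boundedness
  have hbdd : Bornology.IsBounded 𝒜 := by
    obtain ⟨M, hM0, hM⟩ := exists_coord_bound (F := E) v
    rw [Metric.isBounded_iff_subset_closedBall 0]
    refine ⟨M, ?_⟩
    intro B hB
    rw [mem_closedBall_zero_iff, pi_norm_le_iff_of_nonneg hM0.le]
    intro a
    have h2 : ‖(∑ b, B a b • v b : E)‖ ≤ 1 := by
      have h3 := hB.norm_le a
      have h4 : ((∑ b, B a b • v b : E) : H →L[ℂ] H) = lin V B a := by
        unfold lin
        rw [Submodule.coe_sum]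
        rfl
      rw [← h4] at h3
      exact h3
    calc ‖B a‖ ≤ M * ‖(∑ b, B a b • v b : E)‖ := hM _
      _ ≤ M * 1 := mul_le_mul_of_nonneg_left h2 hM0.le
      _ = _ := mul_one _
  have hcomp : IsCompact 𝒜 := Metric.isCompact_of_isClosed_isBounded hclosed hbdd
  -- an element with nonzero determinant
  set N0 : ℝ := ∑ a, ‖V a‖ ^ 2 with hN0
  have hN0 : 0 ≤ N0 := Finset.sum_nonneg fun _ _ => by positivity
  set τ : ℝ := (1 + N0)⁻¹ with hτ
  have hτ0 : 0 < τ := by positivity
  set B1 : Fin n → Fin n → ℂ := fun a b => ((τ : ℂ) • (1 : Matrix (Fin n) (Fin n) ℂ)) a b with hB1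
  have hB1A : B1 ∈ 𝒜 := by
    intro k f g x y hf hg hx hy
    have h1 : ∀ a α, compr (lin V B1) f g a α = (τ : ℂ) * compr V f g a α := by
      intro a α
      rw [compr_lin, Finset.sum_eq_single a]
      · simp [hB1]
      · intro b _ hb
        simp [hB1, Matrix.one_apply_ne hb.symm]
      · simp
    have h2 : Tr (wt y x) (compr (lin V B1) f g) = τ ^ 2 * Tr (wt y x) (compr V f g) := by
      unfold Tr
      rw [Finset.mul_sum]
      apply Finset.sum_congr rfl; intro α _
      simp_rw [h1, norm_mul, mul_pow, Complex.norm_real, Real.norm_eq_abs, sq_abs]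
      rw [← Finset.mul_sum]
      ring
    have h3 : Tr (wt y x) (compr V f g) ≤ N0 := by
      have h4 : Tr (wt y x) (compr V f g) =
          ∑ a, ∑ j, ∑ i, y j * x i * ‖inner ℂ (g j) (V a (f i))‖ ^ 2 := by
        unfold Tr wt compr
        calc ∑ α : Fin k × Fin k, y α.1 * x α.2 * ∑ a, ‖inner ℂ (g α.1) (V a (f α.2))‖ ^ 2
            = ∑ α : Fin k × Fin k, ∑ a, y α.1 * x α.2 * ‖inner ℂ (g α.1) (V a (f α.2))‖ ^ 2 := by
              simp_rw [Finset.mul_sum]
          _ = ∑ a, ∑ α : Fin k × Fin k, y α.1 * x α.2 *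
              ‖inner ℂ (g α.1) (V a (f α.2))‖ ^ 2 := by rw [Finset.sum_comm]
          _ = _ := by
              apply Finset.sum_congr rfl; intro a _
              rw [Fintype.sum_prod_type]
      rw [h4]
      apply Finset.sum_le_sum; intro a _
      exact (compr_contr (V a) le_rfl hf hg).wsum hy hx
    rw [h2]
    calc τ ^ 2 * Tr (wt y x) (compr V f g) ≤ τ ^ 2 * N0 :=
          mul_le_mul_of_nonneg_left h3 (sq_nonneg _)
      _ ≤ τ ^ 2 * (1 + N0) ^ 2 := by
          apply mul_le_mul_of_nonneg_left _ (sq_nonneg _)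
          nlinarith
      _ = 1 := by
          rw [hτ]
          field_simp
  have hB1d : (Matrix.of B1).det ≠ 0 := by
    have : Matrix.of B1 = (τ : ℂ) • (1 : Matrix (Fin n) (Fin n) ℂ) := rfl
    rw [this, Matrix.det_smul, Matrix.det_one, mul_one]
    exact pow_ne_zero _ (by exact_mod_cast hτ0.ne')
  have hcont : Continuous (fun B : Fin n → Fin n → ℂ => ‖(Matrix.of B).det‖) := by
    apply Continuous.norm
    apply Continuous.matrix_det
    exact continuous_id
  obtain ⟨B0, hB0, hmax⟩ := hcomp.exists_isMaxOn ⟨B1, hB1A⟩ hcont.continuousOn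
  have hB0d : (Matrix.of B0).det ≠ 0 := by
    have h1 := hmax hB1A
    simp only [Set.mem_ofPred_eq] at h1
    intro h2
    rw [h2, norm_zero] at h1
    exact hB1d (norm_le_zero_iff.mp h1)
  -- the basis
  set e : Fin n → E := fun a => ∑ b, B0 a b • v b with he
  have hdet : v.det e = (Matrix.of B0).det := by
    rw [Module.Basis.det_apply, ← Matrix.det_transpose]
    congr 1
    ext a b
    rw [Matrix.transpose_apply, Module.Basis.toMatrix_apply]
    simp [he, Finsupp.single_apply]
  have hbas := (Module.Basis.is_basis_iff_det v (v := e)).mpr (by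
    rw [hdet]; exact isUnit_iff_ne_zero.mpr hB0d)
  set b := Module.Basis.mk hbas.1 hbas.2.ge with hb
  have hbe : (fun a => (b a : H →L[ℂ] H)) = lin V B0 := by
    funext a
    rw [hb, Module.Basis.mk_apply]
    simp only [he]
    unfold lin
    rw [Submodule.coe_sum]
    rfl
  refine ⟨b, ?_, ?_⟩
  · rw [hbe]; exact hB0
  · rw [hbe]
    apply goodB_of_max' hB0
    intro K hK
    rw [lin_lin] at hK
    have h1 := hmax (show (fun a c => ∑ b, K a b * B0 b c) ∈ 𝒜 from hK)
    simp only [Set.mem_ofPred_eq] at h1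
    have h2 : Matrix.of (fun a c => ∑ b, K a b * B0 b c) = K * Matrix.of B0 := by
      ext a c
      rw [Matrix.mul_apply]
      rfl
    rw [h2, Matrix.det_mul, norm_mul] at h1
    have h3 : 0 < ‖(Matrix.of B0).det‖ := norm_pos_iff.mpr hB0d
    by_contra h4
    push Not at h4
    nlinarith

end Pool.Agent.Lib.MP_f84017_an
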