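import Pool.Agent.Lib.MP_f84017_an.Position

open scoped ComplexConjugate BigOperators

noncomputable section

set_option linter.unusedSectionVars false

namespace Pool.Agent.Lib.MP_f84017_an

variable {H : Type*} [NormedAddCommGroup H] [InnerProductSpace ℂ H] {n k m : ℕ}

lemma sum_norm_sq_expand (U : Matrix (Fin k) (Fin k) ℂ) (ζ : Fin k → H) :
    ((∑ i, ‖∑ l, U i l • ζ l‖ ^ 2 : ℝ) : ℂ) =
      ∑ l, ∑ p, (U.conjTranspose * U) l p * inner ℂ (ζ l) (ζ p) := by
  have h1 : ∀ i, ((‖∑ l, U i l • ζ l‖ ^ 2 : ℝ) : ℂ) =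
      ∑ l, ∑ p, (conj (U i l) * U i p) * inner ℂ (ζ l) (ζ p) := by
    intro i
    have h2 : ((‖∑ l, U i l • ζ l‖ ^ 2 : ℝ) : ℂ) =
        inner ℂ (∑ l, U i l • ζ l) (∑ p, U i p • ζ p) := by
      rw [inner_self_eq_norm_sq_to_K]
      push_cast; rfl
    rw [h2, sum_inner]
    apply Finset.sum_congr rfl; intro l _
    rw [inner_sum]
    apply Finset.sum_congr rfl; intro p _
    rw [inner_smul_left, inner_smul_right]
    ring
  rw [Complex.ofReal_sum]
  simp_rw [h1]
  rw [Finset.sum_comm]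
  apply Finset.sum_congr rfl; intro l _
  rw [Finset.sum_comm]
  apply Finset.sum_congr rfl; intro p _
  rw [Matrix.mul_apply, Finset.sum_mul]
  apply Finset.sum_congr rfl; intro i _
  rw [Matrix.conjTranspose_apply]
  rfl

lemma sum_norm_sq_unitary {U : Matrix (Fin k) (Fin k) ℂ} (hU : U.conjTranspose * U = 1)
    (ζ : Fin k → H) : ∑ i, ‖∑ l, U i l • ζ l‖ ^ 2 = ∑ l, ‖ζ l‖ ^ 2 := by
  have h := sum_norm_sq_expand U ζ
  rw [hU] at h
  have h2 : ∑ l, ∑ p, (1 : Matrix (Fin k) (Fin k) ℂ) l p * inner ℂ (ζ l) (ζ p) =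
      ((∑ l, ‖ζ l‖ ^ 2 : ℝ) : ℂ) := by
    rw [Complex.ofReal_sum]
    apply Finset.sum_congr rfl; intro l _
    rw [Finset.sum_eq_single l]
    · rw [Matrix.one_apply_eq, one_mul, inner_self_eq_norm_sq_to_K]
      push_cast; rfl
    · intro p _ hp
      rw [Matrix.one_apply_ne hp.symm, zero_mul]
    · simp
  rw [h2] at h
  exact_mod_cast h

lemma cf_of_orthogonal {f : Fin k → H} (h0 : ∀ i j, i ≠ j → inner ℂ (f i) (f j) = 0)
    (h1 : ∀ i, ‖f i‖ ≤ 1) : CF f := by
  intro c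
  have h2 : ((‖∑ i, c i • f i‖ ^ 2 : ℝ) : ℂ) = ((∑ i, ‖c i‖ ^ 2 * ‖f i‖ ^ 2 : ℝ) : ℂ) := by
    have e1 : ((‖∑ i, c i • f i‖ ^ 2 : ℝ) : ℂ) =
        inner ℂ (∑ l, c l • f l) (∑ p, c p • f p) := by
      rw [inner_self_eq_norm_sq_to_K]
      push_cast; rfl
    rw [e1, sum_inner, Complex.ofReal_sum]
    apply Finset.sum_congr rfl; intro l _
    rw [inner_sum, Finset.sum_eq_single l]
    · rw [inner_smul_left, inner_smul_right, inner_self_eq_norm_sq_to_K, ← mul_assoc, mul_comm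
        (conj (c l)), Complex.mul_conj, Complex.normSq_eq_norm_sq]
      push_cast; rfl
    · intro p _ hp
      rw [inner_smul_left, inner_smul_right, h0 l p hp.symm, mul_zero, mul_zero]
    · simp
  have h3 : ‖∑ i, c i • f i‖ ^ 2 = ∑ i, ‖c i‖ ^ 2 * ‖f i‖ ^ 2 := by exact_mod_cast h2
  rw [h3]
  apply Finset.sum_le_sum; intro i _
  have : ‖f i‖ ^ 2 ≤ 1 := by nlinarith [norm_nonneg (f i), h1 i]
  nlinarith [sq_nonneg ‖c i‖]

/-- Schmidt decomposition. -/
lemma schmidt (ξ : Fin k → H) : ∃ (U : Matrix (Fin k) (Fin k) ℂ) (f : Fin k → H) (x : Fin k → ℝ),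
    U * U.conjTranspose = 1 ∧ U.conjTranspose * U = 1 ∧ CF f ∧ (∀ i, 0 ≤ x i) ∧
    ∑ i, x i ^ 2 = ∑ i, ‖ξ i‖ ^ 2 ∧ ∀ i, ξ i = ∑ l, U i l • ((x l : ℂ) • f l) := by
  classical
  set A : Matrix (Fin k) (Fin k) ℂ := Matrix.of fun i j => inner ℂ (ξ i) (ξ j) with hA
  have hAh : A.IsHermitian := by
    ext i j
    rw [Matrix.conjTranspose_apply, hA, Matrix.of_apply, Matrix.of_apply]
    exact inner_conj_symm _ _
  set W : Matrix (Fin k) (Fin k) ℂ := (hAh.eigenvectorUnitary : Matrix (Fin k) (Fin k) ℂ) with hW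
  have hW1 : W.conjTranspose * W = 1 := Unitary.coe_star_mul_self hAh.eigenvectorUnitary
  have hW2 : W * W.conjTranspose = 1 := Unitary.coe_mul_star_self hAh.eigenvectorUnitary
  have hdiag : W.conjTranspose * A * W = Matrix.diagonal (RCLike.ofReal ∘ hAh.eigenvalues) := by
    have := hAh.conjStarAlgAut_star_eigenvectorUnitary
    rw [Unitary.conjStarAlgAut_star_apply] at this
    exact this
  set U : Matrix (Fin k) (Fin k) ℂ := fun i l => conj (W i l) with hU
  have hU1 : U.conjTranspose * U = 1 := by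
    ext l p
    have h1 := congrFun (congrFun hW1 p) l
    rw [Matrix.mul_apply] at h1 ⊢
    rw [show (1 : Matrix (Fin k) (Fin k) ℂ) l p = (1 : Matrix (Fin k) (Fin k) ℂ) p l by
      simp [Matrix.one_apply, eq_comm], ← h1]
    apply Finset.sum_congr rfl; intro i _
    rw [Matrix.conjTranspose_apply, Matrix.conjTranspose_apply]
    simp only [hU, ← starRingEnd_apply, Complex.conj_conj]
    ring
  have hU2 : U * U.conjTranspose = 1 := mul_eq_one_comm.mp hU1
  set ζ : Fin k → H := fun l => ∑ i, W i l • ξ i with hζ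
  have hinner : ∀ l p, inner ℂ (ζ l) (ζ p) = (W.conjTranspose * A * W) l p := by
    intro l p
    simp only [hζ]
    rw [sum_inner, Matrix.mul_apply]
    simp_rw [inner_sum, inner_smul_left, inner_smul_right, Matrix.mul_apply, Finset.sum_mul]
    rw [Finset.sum_comm]
    apply Finset.sum_congr rfl; intro j _
    apply Finset.sum_congr rfl; intro i _
    rw [Matrix.conjTranspose_apply, hA, Matrix.of_apply, ← starRingEnd_apply]
    ring
  have horth : ∀ l p, l ≠ p → inner ℂ (ζ l) (ζ p) = 0 := by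
    intro l p hlp
    rw [hinner, hdiag, Matrix.diagonal_apply_ne _ hlp]
  have hrec : ∀ i, ξ i = ∑ l, U i l • ζ l := by
    intro i
    simp only [hζ, Finset.smul_sum, smul_smul]
    rw [Finset.sum_comm]
    have h1 : ∀ j, ∑ l, (U i l * W j l) • ξ j = ((W * W.conjTranspose) j i) • ξ j := by
      intro j
      rw [← Finset.sum_smul, Matrix.mul_apply]
      congr 1
      apply Finset.sum_congr rfl; intro l _
      rw [Matrix.conjTranspose_apply, ← starRingEnd_apply, mul_comm]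
    simp_rw [h1, hW2]
    rw [Finset.sum_eq_single i]
    · rw [Matrix.one_apply_eq, one_smul]
    · intro j _ hj
      rw [Matrix.one_apply_ne hj, zero_smul]
    · simp
  have hxf : ∀ l, ((‖ζ l‖ : ℝ) : ℂ) • (((‖ζ l‖⁻¹ : ℝ) : ℂ) • ζ l) = ζ l := by
    intro l
    rcases eq_or_ne (ζ l) 0 with h0 | h0
    · rw [h0]; simp
    · rw [smul_smul, ← Complex.ofReal_mul, mul_inv_cancel₀ (norm_ne_zero_iff.mpr h0),
        Complex.ofReal_one, one_smul]
  refine ⟨U, fun l => ((‖ζ l‖⁻¹ : ℝ) : ℂ) • ζ l, fun l => ‖ζ l‖, hU2, hU1, ?_, fun _ =>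
    norm_nonneg _, ?_, ?_⟩
  · apply cf_of_orthogonal
    · intro i j hij
      rw [inner_smul_left, inner_smul_right, horth i j hij, mul_zero, mul_zero]
    · intro i
      rw [norm_smul, Complex.norm_real, norm_inv, norm_norm]
      exact inv_mul_le_one
  · rw [← sum_norm_sq_unitary hU1 ζ]
    apply Finset.sum_congr rfl; intro i _
    rw [← hrec i]
  · intro i
    rw [hrec i]
    apply Finset.sum_congr rfl; intro l _
    rw [hxf l]

/-- Conjugation of the coefficients. -/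
def twist (V U : Matrix (Fin k) (Fin k) ℂ) (s : Fin n → Fin k × Fin k → ℂ) (a : Fin n)
    (α : Fin k × Fin k) : ℂ := ∑ j, ∑ i, conj (V j α.1) * s a (j, i) * U i α.2

lemma blockBound_twist {V U : Matrix (Fin k) (Fin k) ℂ} (hV : V * V.conjTranspose = 1)
    (hU : U.conjTranspose * U = 1) {s : Fin n → Fin k × Fin k → ℂ} {w : Fin n → (H →L[ℂ] H)}
    {C : ℝ} (h : BlockBound (fun j i => ∑ a, s a (j, i) • w a) C) :
    BlockBound (fun j i => ∑ a, twist V U s a (j, i) • w a) C := by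
  intro ζ
  set ζ' : Fin k → H := fun i => ∑ l, U i l • ζ l with hζ'
  set η : Fin k → H := fun j => ∑ i, (∑ a, s a (j, i) • w a) (ζ' i) with hη
  have h1 : ∀ q, ∑ l, (∑ a, twist V U s a (q, l) • w a) (ζ l) =
      ∑ j, V.conjTranspose q j • η j := by
    intro q
    simp only [hη, hζ', twist, _root_.sum_apply, _root_.smul_apply, map_sum, map_smul,
      Finset.smul_sum, smul_smul, Finset.sum_smul]
    -- LHS: ∑ l a j i ; RHS: ∑ j i a l
    calc ∑ l, ∑ a, ∑ j, ∑ i, (conj (V j q) * s a (j, i) * U i l) • (w a) (ζ l)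
        = ∑ l, ∑ j, ∑ a, ∑ i, (conj (V j q) * s a (j, i) * U i l) • (w a) (ζ l) := by
          apply Finset.sum_congr rfl; intro l _
          rw [Finset.sum_comm]
      _ = ∑ j, ∑ l, ∑ i, ∑ a, (conj (V j q) * s a (j, i) * U i l) • (w a) (ζ l) := by
          rw [Finset.sum_comm]
          apply Finset.sum_congr rfl; intro j _
          apply Finset.sum_congr rfl; intro l _
          rw [Finset.sum_comm]
      _ = ∑ j, ∑ i, ∑ l, ∑ a, (conj (V j q) * s a (j, i) * U i l) • (w a) (ζ l) := by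
          apply Finset.sum_congr rfl; intro j _
          rw [Finset.sum_comm]
      _ = _ := by
          apply Finset.sum_congr rfl; intro j _
          apply Finset.sum_congr rfl; intro i _
          apply Finset.sum_congr rfl; intro l _
          apply Finset.sum_congr rfl; intro a _
          rw [Matrix.conjTranspose_apply, ← starRingEnd_apply]
          congr 1
          ring
  simp_rw [h1]
  rw [sum_norm_sq_unitary (by rw [Matrix.conjTranspose_conjTranspose]; exact hV),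
    ← sum_norm_sq_unitary hU ζ]
  exact h ζ'

/-- The pairing after the Schmidt decompositions. -/
lemma pairing {w : Fin n → (H →L[ℂ] H)} (s : Fin n → Fin k × Fin k → ℂ)
    (ξ : Fin k → H) : ∃ (V U : Matrix (Fin k) (Fin k) ℂ) (f g : Fin k → H) (x y : Fin k → ℝ),
    V * V.conjTranspose = 1 ∧ U.conjTranspose * U = 1 ∧ CF f ∧ CF g ∧ (∀ i, 0 ≤ x i) ∧
    (∀ i, 0 ≤ y i) ∧ ∑ i, x i ^ 2 = ∑ i, ‖ξ i‖ ^ 2 ∧
    ∑ j, y j ^ 2 = ∑ j, ‖∑ i, (∑ a, s a (j, i) • w a) (ξ i)‖ ^ 2 ∧
    ((∑ j, ‖∑ i, (∑ a, s a (j, i) • w a) (ξ i)‖ ^ 2 : ℝ) : ℂ) =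
      ∑ α : Fin k × Fin k, (wt y x α : ℂ) * ∑ a, twist V U s a α * compr w f g a α := by
  obtain ⟨U, f, x, -, hU, hf, hx, hxs, hξ⟩ := schmidt ξ
  obtain ⟨V, g, y, hV, -, hg, hy, hys, hη⟩ :=
    schmidt (fun j => ∑ i, (∑ a, s a (j, i) • w a) (ξ i))
  refine ⟨V, U, f, g, x, y, hV, hU, hf, hg, hx, hy, hxs, hys, ?_⟩
  have h1 : ∀ j, ((‖∑ i, (∑ a, s a (j, i) • w a) (ξ i)‖ ^ 2 : ℝ) : ℂ) =
      ∑ m, ∑ l, ∑ i, ∑ a, (y m * x l : ℂ) * (conj (V j m) * s a (j, i) * U i l) *
        inner ℂ (g m) (w a (f l)) := by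
    intro j
    have e1 : ((‖∑ i, (∑ a, s a (j, i) • w a) (ξ i)‖ ^ 2 : ℝ) : ℂ) =
        inner ℂ (∑ i, (∑ a, s a (j, i) • w a) (ξ i)) (∑ i, (∑ a, s a (j, i) • w a) (ξ i)) := by
      rw [inner_self_eq_norm_sq_to_K]
      push_cast; rfl
    rw [e1]
    have e2 := hη j
    conv_lhs =>
      enter [2]
      rw [e2]
    rw [sum_inner]
    apply Finset.sum_congr rfl; intro m _
    rw [inner_smul_left, inner_smul_left]
    simp_rw [hξ, _root_.sum_apply, _root_.smul_apply, map_sum, map_smul, inner_sum,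
      inner_smul_right, inner_sum, inner_smul_right, Finset.mul_sum]
    -- ∑ i a l = ∑ l i a
    calc ∑ i, ∑ a, ∑ l, conj (V j m) * (conj (y m : ℂ) *
          (s a (j, i) * (U i l * (x l * inner ℂ (g m) ((w a) (f l))))))
        = ∑ i, ∑ l, ∑ a, conj (V j m) * (conj (y m : ℂ) *
          (s a (j, i) * (U i l * (x l * inner ℂ (g m) ((w a) (f l)))))) := by
          apply Finset.sum_congr rfl; intro i _
          rw [Finset.sum_comm]
      _ = _ := by
          rw [Finset.sum_comm]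
          apply Finset.sum_congr rfl; intro l _
          apply Finset.sum_congr rfl; intro i _
          apply Finset.sum_congr rfl; intro a _
          rw [Complex.conj_ofReal]
          ring
  rw [Complex.ofReal_sum]
  simp_rw [h1]
  rw [Fintype.sum_prod_type, Finset.sum_comm]
  apply Finset.sum_congr rfl; intro m _
  rw [Finset.sum_comm]
  apply Finset.sum_congr rfl; intro l _
  unfold twist wt compr
  simp only [Finset.mul_sum, Finset.sum_mul]
  -- ∑ j i a = ∑ a j i
  calc ∑ j, ∑ i, ∑ a, (y m * x l : ℂ) * (conj (V j m) * s a (j, i) * U i l) *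
        inner ℂ (g m) (w a (f l))
      = ∑ j, ∑ a, ∑ i, (y m * x l : ℂ) * (conj (V j m) * s a (j, i) * U i l) *
        inner ℂ (g m) (w a (f l)) := by
        apply Finset.sum_congr rfl; intro j _
        rw [Finset.sum_comm]
    _ = _ := by
        rw [Finset.sum_comm]
        apply Finset.sum_congr rfl; intro a _
        apply Finset.sum_congr rfl; intro j _
        apply Finset.sum_congr rfl; intro i _
        push_cast
        ring

end Pool.Agent.Lib.MP_f84017_an
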