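import Pool.Agent.Lib.MP_f84017_an.MBounds

open scoped ComplexConjugate BigOperators

noncomputable section

set_option linter.unusedSectionVars false

namespace Pool.Agent.Lib.MP_f84017_an

variable {n : ℕ} {J I J' I' : Type*} [Fintype J] [Fintype I] [Fintype J'] [Fintype I']

lemma comp_le_Tr {A : Type*} [Fintype A] {φ : A → ℝ} (hφ : ∀ α, 0 ≤ φ α) (V : Fin n → A → ℂ)
    (c : Fin n) : ∑ α, φ α * ‖V c α‖ ^ 2 ≤ Tr φ V := by
  unfold Tr
  apply Finset.sum_le_sum; intro α _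
  apply mul_le_mul_of_nonneg_left _ (hφ α)
  exact Finset.single_le_sum (f := fun c => ‖V c α‖ ^ 2) (fun _ _ => by positivity)
    (Finset.mem_univ c)

lemma norm_add_sq_le' (a b : ℂ) : ‖a + b‖ ^ 2 ≤ 2 * ‖a‖ ^ 2 + 2 * ‖b‖ ^ 2 := by
  have h := norm_add_le a b
  calc ‖a + b‖ ^ 2 ≤ (‖a‖ + ‖b‖) ^ 2 := by gcongr
    _ ≤ _ := by nlinarith [sq_nonneg (‖a‖ - ‖b‖)]

lemma MM_close (y : J → ℝ) (W p : Fin n → J × I → ℂ)
    (hW : ∀ c, Contr 1 (fun j i => W c (j, i))) (hp : ∀ c, Contr 1 (fun j i => p c (j, i)))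
    {e : ℝ} (he : Tr (fun α : J × I => y α.1 ^ 2) (fun c α => W c α - p c α) ≤ e)
    (u : Fin n × Fin n) :
    ∑ q, ‖MM y W u q - MM y p u q‖ ^ 2 ≤ 4 * e := by
  have hB : ∀ c, ∑ j, ∑ i, ‖(y j : ℂ) * (W c (j, i) - p c (j, i))‖ ^ 2 ≤ e := by
    intro c
    refine le_trans (le_of_eq ?_) ((comp_le_Tr (φ := fun α : J × I => y α.1 ^ 2)
      (fun α => sq_nonneg _) (fun c α => W c α - p c α) c).trans he)
    rw [Fintype.sum_prod_type]
    apply Finset.sum_congr rfl; intro j _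
    apply Finset.sum_congr rfl; intro i _
    rw [norm_mul, mul_pow, Complex.norm_real, Real.norm_eq_abs, sq_abs]
  have h1 := (hW u.1).hs_adj (fun j i => (y j : ℂ) * (W u.2 (j, i) - p u.2 (j, i)))
  have h2 := (hp u.2).hs_adj' (fun j i => (y j : ℂ) * (W u.1 (j, i) - p u.1 (j, i)))
  rw [one_pow, one_mul] at h1 h2
  have h3 : ∀ i l, MM y W u (i, l) - MM y p u (i, l) =
      ∑ j, conj (W u.1 (j, i)) * ((y j : ℂ) * (W u.2 (j, l) - p u.2 (j, l))) +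
      ∑ j, conj ((y j : ℂ) * (W u.1 (j, i) - p u.1 (j, i))) * p u.2 (j, l) := by
    intro i l
    unfold MM
    rw [← Finset.sum_sub_distrib, ← Finset.sum_add_distrib]
    apply Finset.sum_congr rfl; intro j _
    simp only [map_mul, map_sub, Complex.conj_ofReal]
    ring
  rw [Fintype.sum_prod_type]
  calc ∑ i, ∑ l, ‖MM y W u (i, l) - MM y p u (i, l)‖ ^ 2
      ≤ ∑ i, ∑ l, (2 * ‖∑ j, conj (W u.1 (j, i)) *
          ((y j : ℂ) * (W u.2 (j, l) - p u.2 (j, l)))‖ ^ 2 +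
        2 * ‖∑ j, conj ((y j : ℂ) * (W u.1 (j, i) - p u.1 (j, i))) * p u.2 (j, l)‖ ^ 2) := by
        apply Finset.sum_le_sum; intro i _
        apply Finset.sum_le_sum; intro l _
        rw [h3]
        exact norm_add_sq_le' _ _
    _ = 2 * ∑ i, ∑ l, ‖∑ j, conj (W u.1 (j, i)) *
          ((y j : ℂ) * (W u.2 (j, l) - p u.2 (j, l)))‖ ^ 2 +
        2 * ∑ i, ∑ l, ‖∑ j, conj ((y j : ℂ) * (W u.1 (j, i) - p u.1 (j, i))) *
          p u.2 (j, l)‖ ^ 2 := by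
        rw [Finset.mul_sum, Finset.mul_sum, ← Finset.sum_add_distrib]
        apply Finset.sum_congr rfl; intro i _
        rw [Finset.mul_sum, Finset.mul_sum, ← Finset.sum_add_distrib]
    _ ≤ 2 * e + 2 * e := by
        have := h1.trans (hB u.2)
        have := h2.trans (hB u.1)
        linarith
    _ = 4 * e := by ring

lemma MM_le_one (y : J → ℝ) (hy : ∑ j, y j ^ 2 ≤ 1) (W : Fin n → J × I → ℂ)
    (hW : ∀ c, Contr 1 (fun j i => W c (j, i))) (u : Fin n × Fin n) :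
    ∑ q, ‖MM y W u q‖ ^ 2 ≤ 1 := by
  have h1 := (hW u.1).hs_adj (fun j i => (y j : ℂ) * W u.2 (j, i))
  rw [one_pow, one_mul] at h1
  rw [Fintype.sum_prod_type]
  refine h1.trans ?_
  calc ∑ j, ∑ i, ‖(y j : ℂ) * W u.2 (j, i)‖ ^ 2 = ∑ j, y j ^ 2 * ∑ i, ‖W u.2 (j, i)‖ ^ 2 := by
        apply Finset.sum_congr rfl; intro j _
        rw [Finset.mul_sum]
        apply Finset.sum_congr rfl; intro i _
        rw [norm_mul, mul_pow, Complex.norm_real, Real.norm_eq_abs, sq_abs]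
    _ ≤ ∑ j, y j ^ 2 * 1 := by
        apply Finset.sum_le_sum; intro j _
        apply mul_le_mul_of_nonneg_left _ (sq_nonneg _)
        have := (hW u.2).row j
        simpa using this
    _ ≤ 1 := by simpa using hy

lemma inner_close {Q : Type*} [Fintype Q] (A B C D : Q → ℂ) {k : ℝ} (hk : 0 ≤ k)
    (hB : ∑ q, ‖B q‖ ^ 2 ≤ 1) (hC : ∑ q, ‖C q‖ ^ 2 ≤ 1) (hAC : ∑ q, ‖A q - C q‖ ^ 2 ≤ k ^ 2)
    (hBD : ∑ q, ‖B q - D q‖ ^ 2 ≤ k ^ 2) :
    ‖∑ q, A q * conj (B q) - ∑ q, C q * conj (D q)‖ ≤ 2 * k := by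
  have e1 : ∑ q, A q * conj (B q) - ∑ q, C q * conj (D q) =
      ∑ q, (A q - C q) * conj (B q) + ∑ q, C q * conj (B q - D q) := by
    rw [← Finset.sum_sub_distrib, ← Finset.sum_add_distrib]
    apply Finset.sum_congr rfl; intro q _
    rw [map_sub]; ring
  have key : ∀ (U V : Q → ℂ) , ∑ q, ‖U q‖ ^ 2 * 1 ≤ k ^ 2 → ∑ q, ‖V q‖ ^ 2 ≤ 1 →
      ‖∑ q, U q * V q‖ ≤ k := by
    intro U V hU hV
    simp only [mul_one] at hU
    have h1 := norm_sum_mul_sq_le Finset.univ U V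
    have h2 : 0 ≤ ∑ q, ‖V q‖ ^ 2 := Finset.sum_nonneg fun _ _ => by positivity
    have h3 : ‖∑ q, U q * V q‖ ^ 2 ≤ k ^ 2 := by
      calc _ ≤ _ := h1
        _ ≤ k ^ 2 * 1 := mul_le_mul hU hV h2 (by positivity)
        _ = _ := mul_one _
    exact le_of_sq_le_sq h3 hk
  rw [e1]
  refine (norm_add_le _ _).trans ?_
  have k1 := key (fun q => A q - C q) (fun q => conj (B q)) (by simpa using hAC)
    (by simpa using hB)
  have k2 := key (fun q => conj (B q - D q)) C (by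
    simp only [RCLike.norm_conj, mul_one]; exact hBD) hC
  have k3 : ∑ q, C q * conj (B q - D q) = ∑ q, conj (B q - D q) * C q := by
    apply Finset.sum_congr rfl; intro q _
    rw [mul_comm]
  rw [k3]
  linarith

lemma Mm_close (y : J → ℝ) (hy : ∑ j, y j ^ 2 ≤ 1) (W p : Fin n → J × I → ℂ)
    (hW : ∀ c, Contr 1 (fun j i => W c (j, i))) (hp : ∀ c, Contr 1 (fun j i => p c (j, i)))
    {e : ℝ} (he0 : 0 ≤ e)
    (he : Tr (fun α : J × I => y α.1 ^ 2) (fun c α => W c α - p c α) ≤ e)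
    (u v : Fin n × Fin n) :
    ‖Mm y W u v - Mm y p u v‖ ≤ 4 * Real.sqrt e := by
  rw [Mm_eq, Mm_eq]
  have hs : (2 * Real.sqrt e) ^ 2 = 4 * e := by
    rw [mul_pow, Real.sq_sqrt he0]; norm_num
  have := inner_close (MM y W u) (MM y W v) (MM y p u) (MM y p v)
    (k := 2 * Real.sqrt e) (by positivity) (MM_le_one y hy W hW v) (MM_le_one y hy p hp u)
    (by rw [hs]; exact MM_close y W p hW hp he u) (by rw [hs]; exact MM_close y W p hW hp he v)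
  linarith

lemma Mm_norm_le (y : J → ℝ) (hy : ∑ j, y j ^ 2 ≤ 1) (W : Fin n → J × I → ℂ)
    (hW : ∀ c, Contr 1 (fun j i => W c (j, i))) (u v : Fin n × Fin n) : ‖Mm y W u v‖ ≤ 1 := by
  rw [Mm_eq]
  have h1 := norm_sum_mul_sq_le Finset.univ (MM y W u) (fun q => conj (MM y W v q))
  simp only [RCLike.norm_conj] at h1
  have h2 := MM_le_one y hy W hW u
  have h3 := MM_le_one y hy W hW v
  have h4 : ‖∑ q, MM y W u q * conj (MM y W v q)‖ ^ 2 ≤ 1 ^ 2 := by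
    calc _ ≤ _ := h1
      _ ≤ 1 * 1 := mul_le_mul h2 h3 (Finset.sum_nonneg fun _ _ => by positivity) zero_le_one
      _ = _ := by norm_num
  exact le_of_sq_le_sq h4 zero_le_one

/-- The distance between `W` and `p` in the row-weighted norm. -/
lemma weighted_close {ε f : ℝ} (y : J → ℝ) (x : I → ℝ) (W p : Fin n → J × I → ℂ)
    (h1 : Tr (fun α : J × I => y α.1 ^ 2) W ≤ 1 + 2 * f)
    (h2 : Tr (fun α : J × I => x α.2 ^ 2) p ≤ 1 + 2 * f)
    (h3 : Tr (fun α : J × I => y α.1 ^ 2) p ≤ 1 + 2 * f)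
    (h4 : 1 - ε ≤ Tr (wt y x) p)
    (h5 : 1 - ε ≤ ∑ α, wt y x α * (∑ c, W c α * conj (p c α)).re) :
    Tr (fun α : J × I => y α.1 ^ 2) (fun c α => W c α - p c α) ≤ 16 * f + 8 * ε := by
  have hA : ∀ V : Fin n → J × I → ℂ, Tr (fun _ : J × I => 1)
      (fun c α => (y α.1 : ℂ) * V c α - (x α.2 : ℂ) * p c α) =
      Tr (fun α : J × I => y α.1 ^ 2) V + Tr (fun α : J × I => x α.2 ^ 2) p -
        2 * ∑ α, wt y x α * (∑ c, V c α * conj (p c α)).re := by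
    intro V
    unfold Tr wt
    rw [Finset.mul_sum, ← Finset.sum_add_distrib, ← Finset.sum_sub_distrib]
    apply Finset.sum_congr rfl; intro α _
    rw [one_mul, Finset.mul_sum, Finset.mul_sum, Complex.re_sum, Finset.mul_sum, Finset.mul_sum,
      ← Finset.sum_add_distrib, ← Finset.sum_sub_distrib]
    apply Finset.sum_congr rfl; intro c _
    have h2 : ∀ z w : ℂ, ‖z - w‖ ^ 2 = ‖z‖ ^ 2 + ‖w‖ ^ 2 - 2 * (z * conj w).re := by
      intro z w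
      rw [← Complex.normSq_eq_norm_sq, ← Complex.normSq_eq_norm_sq, ← Complex.normSq_eq_norm_sq,
        Complex.normSq_apply, Complex.normSq_apply, Complex.normSq_apply]
      simp only [Complex.sub_re, Complex.sub_im, Complex.mul_re, Complex.conj_re, Complex.conj_im]
      ring
    rw [h2]
    simp only [norm_mul, mul_pow, Complex.norm_real, Real.norm_eq_abs, sq_abs, map_mul,
      Complex.conj_ofReal]
    have h3 : ((y α.1 : ℂ) * V c α * ((x α.2 : ℂ) * conj (p c α))).re =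
        y α.1 * x α.2 * (V c α * conj (p c α)).re := by
      rw [show (y α.1 : ℂ) * V c α * ((x α.2 : ℂ) * conj (p c α)) =
        ((y α.1 * x α.2 : ℝ) : ℂ) * (V c α * conj (p c α)) by push_cast; ring,
        Complex.re_ofReal_mul]
    rw [h3]
  have hp : ∑ α, wt y x α * (∑ c, p c α * conj (p c α)).re = Tr (wt y x) p := by
    unfold Tr
    apply Finset.sum_congr rfl; intro α _
    rw [Complex.re_sum]
    congr 1
    apply Finset.sum_congr rfl; intro c _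
    rw [Complex.mul_conj, Complex.normSq_eq_norm_sq, Complex.ofReal_re]
  have k1 := hA W
  have k2 := hA p
  rw [hp] at k2
  have k3 : Tr (fun α : J × I => y α.1 ^ 2) (fun c α => W c α - p c α) ≤
      2 * Tr (fun _ : J × I => 1) (fun c α => (y α.1 : ℂ) * W c α - (x α.2 : ℂ) * p c α) +
      2 * Tr (fun _ : J × I => 1) (fun c α => (y α.1 : ℂ) * p c α - (x α.2 : ℂ) * p c α) := by
    unfold Tr
    rw [Finset.mul_sum, Finset.mul_sum, ← Finset.sum_add_distrib]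
    apply Finset.sum_le_sum; intro α _
    rw [one_mul, one_mul, Finset.mul_sum, Finset.mul_sum, Finset.mul_sum, ← Finset.sum_add_distrib]
    apply Finset.sum_le_sum; intro c _
    have e1 : y α.1 ^ 2 * ‖W c α - p c α‖ ^ 2 =
        ‖((y α.1 : ℂ) * W c α - (x α.2 : ℂ) * p c α) +
          (-((y α.1 : ℂ) * p c α - (x α.2 : ℂ) * p c α))‖ ^ 2 := by
      have : ((y α.1 : ℂ) * W c α - (x α.2 : ℂ) * p c α) +
          (-((y α.1 : ℂ) * p c α - (x α.2 : ℂ) * p c α)) = (y α.1 : ℂ) * (W c α - p c α) := by ring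
      rw [this, norm_mul, mul_pow, Complex.norm_real, Real.norm_eq_abs, sq_abs]
    rw [e1]
    have e2 := norm_add_sq_le' ((y α.1 : ℂ) * W c α - (x α.2 : ℂ) * p c α)
      (-((y α.1 : ℂ) * p c α - (x α.2 : ℂ) * p c α))
    rw [norm_neg] at e2
    exact e2
  rw [k1, k2] at k3
  linarith

lemma le_of_mul_one_sub {t f : ℝ} (hf0 : 0 ≤ f) (hf : f ≤ 1 / 2) (h : t * (1 - f) ≤ 1) :
    t ≤ 1 + 2 * f := by
  have h1 : 1 ≤ (1 + 2 * f) * (1 - f) := by nlinarith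
  have h2 : 0 < 1 - f := by linarith
  exact le_of_mul_le_mul_right (h.trans h1) h2

/-- The main inequality. -/
lemma triple {ε e1 e' : ℝ} {J0 I0 J1 I1 J2 I2 : Type*} [Fintype J0] [Fintype I0] [Fintype J1]
    [Fintype I1] [Fintype J2] [Fintype I2]
    {y0 : J0 → ℝ} {x0 : I0 → ℝ} {y1 : J1 → ℝ} {x1 : I1 → ℝ} {y2 : J2 → ℝ} {x2 : I2 → ℝ}
    {W0 : Fin n → J0 × I0 → ℂ} {W1 p1 : Fin n → J1 × I1 → ℂ} {p2 : Fin n → J2 × I2 → ℂ}
    (H01 : PairHyp ε e1 y0 x0 y1 x1 W0 p1) (H12 : PairHyp ε e1 y1 x1 y2 x2 W1 p2)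
    (hov : 1 - ε ≤ ∑ α, wt y1 x1 α * (∑ c, W1 c α * conj (p1 c α)).re)
    (ht : Contr 1 (tt W1 p2))
    (hW : ∀ c, Contr 1 (fun j i => W1 c (j, i))) (hp : ∀ c, Contr 1 (fun j i => p1 c (j, i)))
    (he' : 0 ≤ e') (hM : ∀ u v, ‖Mm y1 p1 u v - Mm y2 p2 u v‖ ≤ e')
    (hf : f5 n ε e1 ≤ 1 / 2) (ha : 0 ≤ 1 - ε - 2 * Real.sqrt (f4 n ε e1)) (hb : 0 ≤ 1 - ε) :
    n ^ 2 * ((1 - ε - 2 * Real.sqrt (f4 n ε e1)) ^ 2 + (1 - ε) ^ 2) ^ 2 ≤
      (2 * n ^ 2 + 2 * n) *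
        (1 + n ^ 6 * (4 * Real.sqrt (16 * f5 n ε e1 + 8 * ε) + e')) := by
  have hf0 := H01.f5_nonneg
  have hε := H01.he
  have hn0 : (0 : ℝ) < n := by exact_mod_cast H01.hn
  have k1 : Tr (fun α : J1 × I1 => y1 α.1 ^ 2) W1 ≤ 1 + 2 * f5 n ε e1 :=
    le_of_mul_one_sub hf0 hf H12.trL_le
  have k2 : Tr (fun α : J1 × I1 => x1 α.2 ^ 2) p1 ≤ 1 + 2 * f5 n ε e1 :=
    le_of_mul_one_sub hf0 hf H01.symm.trR_le
  have k3 : Tr (fun α : J1 × I1 => y1 α.1 ^ 2) p1 ≤ 1 + 2 * f5 n ε e1 :=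
    le_of_mul_one_sub hf0 hf H01.symm.trL_le
  have hclose := weighted_close y1 x1 W1 p1 k1 k2 k3 H01.tP hov
  have hM1 : ∀ u v, ‖Mm y1 W1 u v - Mm y2 p2 u v‖ ≤
      4 * Real.sqrt (16 * f5 n ε e1 + 8 * ε) + e' := by
    intro u v
    have c1 := Mm_close y1 H12.ys W1 p1 hW hp (by positivity) hclose u v
    have c2 := hM u v
    have c3 := norm_sub_le_norm_sub_add_norm_sub (Mm y1 W1 u v) (Mm y1 p1 u v) (Mm y2 p2 u v)
    linarith
  set e8 : ℝ := 4 * Real.sqrt (16 * f5 n ε e1 + 8 * ε) + e' with he8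
  have he80 : 0 ≤ e8 := by positivity
  -- the Hilbert-Schmidt inequality
  have m1 := M_le_one y1 y2 W1 p2 H12.ys H12.ys' ht
  have m2 : ∑ u, ∑ v, ‖Mm y1 W1 u v‖ ^ 2 - n ^ 4 * e8 ≤
      (∑ u, ∑ v, Mm y1 W1 u v * conj (Mm y2 p2 u v)).re := by
    have c1 : (∑ u, ∑ v, Mm y1 W1 u v * conj (Mm y2 p2 u v)).re =
        ∑ u, ∑ v, ‖Mm y1 W1 u v‖ ^ 2 -
          (∑ u, ∑ v, Mm y1 W1 u v * conj (Mm y1 W1 u v - Mm y2 p2 u v)).re := by
      simp only [Complex.re_sum]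
      rw [← Finset.sum_sub_distrib]
      apply Finset.sum_congr rfl; intro u _
      rw [← Finset.sum_sub_distrib]
      apply Finset.sum_congr rfl; intro v _
      rw [map_sub, mul_sub, Complex.sub_re, Complex.mul_conj, Complex.normSq_eq_norm_sq,
        Complex.ofReal_re]
      ring
    have c2 : (∑ u, ∑ v, Mm y1 W1 u v * conj (Mm y1 W1 u v - Mm y2 p2 u v)).re ≤ n ^ 4 * e8 := by
      refine (Complex.re_le_norm _).trans ?_
      refine (norm_sum_le _ _).trans ?_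
      calc ∑ u, ‖∑ v, Mm y1 W1 u v * conj (Mm y1 W1 u v - Mm y2 p2 u v)‖
          ≤ ∑ u : Fin n × Fin n, ∑ v : Fin n × Fin n, 1 * e8 := by
            apply Finset.sum_le_sum; intro u _
            refine (norm_sum_le _ _).trans ?_
            apply Finset.sum_le_sum; intro v _
            rw [norm_mul, RCLike.norm_conj]
            exact mul_le_mul (Mm_norm_le y1 H12.ys W1 hW u v) (hM1 u v) (norm_nonneg _)
              zero_le_one
        _ = n ^ 4 * e8 := by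
            simp only [Finset.sum_const, Finset.card_univ, Fintype.card_prod, Fintype.card_fin,
              nsmul_eq_mul, Nat.cast_mul]
            ring
    rw [c1]
    linarith
  have m3 := cs_final (Mm y1 W1)
  have m4 := trM_ge y1 H12.y0 H12.ys W1
  have m5 := Mdd_ge y1 x1 H12.xs W1
  have m6 := H12.trL_ge
  have m7 := H12.tW
  have m8 : (1 - ε - 2 * Real.sqrt (f4 n ε e1)) ^ 2 ≤ (∑ u, Mm y1 W1 u u).re :=
    le_trans (by gcongr) m4
  have m9 : (1 - ε) ^ 2 ≤ (∑ a, ∑ c, Mm y1 W1 (a, a) (c, c)).re := le_trans (by gcongr) m5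
  have m10 : ((1 - ε - 2 * Real.sqrt (f4 n ε e1)) ^ 2 + (1 - ε) ^ 2) ^ 2 ≤
      (2 * n ^ 2 + 2 * n) * ∑ u, ∑ v, ‖Mm y1 W1 u v‖ ^ 2 := by
    refine le_trans ?_ m3
    have : (1 - ε - 2 * Real.sqrt (f4 n ε e1)) ^ 2 + (1 - ε) ^ 2 ≤
      (∑ a, ∑ c, Mm y1 W1 (a, a) (c, c)).re + (∑ u, Mm y1 W1 u u).re := by linarith
    gcongr
  have m11 : n ^ 2 * ∑ u, ∑ v, ‖Mm y1 W1 u v‖ ^ 2 ≤ 1 + n ^ 6 * e8 := by
    have c1 := mul_le_mul_of_nonneg_left m2 (by positivity : (0 : ℝ) ≤ n ^ 2)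
    nlinarith
  calc n ^ 2 * ((1 - ε - 2 * Real.sqrt (f4 n ε e1)) ^ 2 + (1 - ε) ^ 2) ^ 2
      ≤ n ^ 2 * ((2 * n ^ 2 + 2 * n) * ∑ u, ∑ v, ‖Mm y1 W1 u v‖ ^ 2) :=
        mul_le_mul_of_nonneg_left m10 (by positivity)
    _ = (2 * n ^ 2 + 2 * n) * (n ^ 2 * ∑ u, ∑ v, ‖Mm y1 W1 u v‖ ^ 2) := by ring
    _ ≤ (2 * n ^ 2 + 2 * n) * (1 + n ^ 6 * e8) :=
        mul_le_mul_of_nonneg_left m11 (by positivity)

/-- For `n ≥ 2` the main inequality fails when all errors are small. -/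
lemma exists_eps (hn : 2 ≤ n) : ∃ ε : ℝ, 0 < ε ∧ ε < 1 ∧ f5 n ε (5 * Real.sqrt ε) ≤ 1 / 2 ∧
    0 ≤ 1 - ε - 2 * Real.sqrt (f4 n ε (5 * Real.sqrt ε)) ∧
    (2 * n ^ 2 + 2 * n) * (1 + n ^ 6 * (4 * Real.sqrt (16 * f5 n ε (5 * Real.sqrt ε) + 8 * ε) + ε))
      < n ^ 2 * ((1 - ε - 2 * Real.sqrt (f4 n ε (5 * Real.sqrt ε))) ^ 2 + (1 - ε) ^ 2) ^ 2 := by
  have hn2 : (2 : ℝ) ≤ n := by exact_mod_cast hn
  have c5 : Continuous (fun ε : ℝ => f5 n ε (5 * Real.sqrt ε)) := by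
    unfold f5 f4 f2; fun_prop
  have c4 : Continuous (fun ε : ℝ => 1 - ε - 2 * Real.sqrt (f4 n ε (5 * Real.sqrt ε))) := by
    unfold f4 f2; fun_prop
  have cl : Continuous (fun ε : ℝ => (2 * (n : ℝ) ^ 2 + 2 * n) *
      (1 + n ^ 6 * (4 * Real.sqrt (16 * f5 n ε (5 * Real.sqrt ε) + 8 * ε) + ε))) := by
    unfold f5 f4 f2; fun_prop
  have cr : Continuous (fun ε : ℝ => (n : ℝ) ^ 2 *
      ((1 - ε - 2 * Real.sqrt (f4 n ε (5 * Real.sqrt ε))) ^ 2 + (1 - ε) ^ 2) ^ 2) := by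
    unfold f4 f2; fun_prop
  have z4 : f4 n 0 (5 * Real.sqrt 0) = 0 := by simp [f4, f2]
  have z5 : f5 n 0 (5 * Real.sqrt 0) = 0 := by simp [f5, f4, f2]
  have o1 : ∀ᶠ ε in nhds (0 : ℝ), f5 n ε (5 * Real.sqrt ε) < 1 / 2 := by
    apply c5.continuousAt.eventually_lt continuousAt_const
    simp only [z5]; norm_num
  have o2 : ∀ᶠ ε in nhds (0 : ℝ), 0 < 1 - ε - 2 * Real.sqrt (f4 n ε (5 * Real.sqrt ε)) := by
    apply continuousAt_const.eventually_lt c4.continuousAt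
    simp only [z4]; norm_num
  have o3 : ∀ᶠ ε in nhds (0 : ℝ), (2 * (n : ℝ) ^ 2 + 2 * n) *
      (1 + n ^ 6 * (4 * Real.sqrt (16 * f5 n ε (5 * Real.sqrt ε) + 8 * ε) + ε)) < (n : ℝ) ^ 2 *
      ((1 - ε - 2 * Real.sqrt (f4 n ε (5 * Real.sqrt ε))) ^ 2 + (1 - ε) ^ 2) ^ 2 := by
    apply cl.continuousAt.eventually_lt cr.continuousAt
    simp only [z4, z5]
    norm_num
    nlinarith
  have o4 : ∀ᶠ ε in nhds (0 : ℝ), ε < 1 := Iio_mem_nhds zero_lt_one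
  obtain ⟨δ, hδ, h⟩ := Metric.eventually_nhds_iff.mp (((o1.and o2).and o3).and o4)
  have := h (y := δ / 2) (by
    rw [Real.dist_eq, sub_zero, abs_of_pos (by positivity)]; linarith)
  exact ⟨δ / 2, by positivity, this.2, this.1.1.1.le, this.1.1.2.le, this.1.2⟩

end Pool.Agent.Lib.MP_f84017_an
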