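import Pool.Agent.Lib.MP_f84017_an.Link
import Pool.Agent.Lib.MP_f84017_an.Triple

open scoped ComplexConjugate BigOperators ENNReal

noncomputable section

set_option linter.unusedSectionVars false

namespace Pool.Agent.Lib.MP_f84017_an

universe u v

/-- The space of data. -/
abbrev Dat (n k : ℕ) : Type :=
  (Fin n → Fin k × Fin k → ℂ) × (Fin k → ℝ) × (Fin k → ℝ)

section one

variable {H : Type*} [NormedAddCommGroup H] [InnerProductSpace ℂ H] {n k m : ℕ}

/-- `d` is admissible for `w`. -/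
def Valid (w : Fin n → (H →L[ℂ] H)) (d : Dat n k) : Prop :=
  Wts d.2.1 ∧ Wts d.2.2 ∧ BlockBound (fun j i => ∑ a, d.1 a (j, i) • w a) (1 / Real.sqrt n)

/-- `w` nearly norms the datum `d`. -/
def Match (w : Fin n → (H →L[ℂ] H)) (d : Dat n k) (e : ℝ) : Prop :=
  ∃ f g : Fin k → H, CF f ∧ CF g ∧ 1 - e < (∑ α : Fin k × Fin k, (wt d.2.2 d.2.1 α : ℂ) *
    ∑ a, d.1 a α * compr w f g a α).re

lemma Wts.le_one {J : Type*} [Fintype J] {x : J → ℝ} (h : Wts x) (i : J) : x i ≤ 1 := by
  have h1 : x i ^ 2 ≤ ∑ i, x i ^ 2 :=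
    Finset.single_le_sum (f := fun i => x i ^ 2) (fun _ _ => by positivity) (Finset.mem_univ i)
  have h2 : x i ^ 2 ≤ 1 ^ 2 := by
    rw [one_pow]; exact h1.trans h.sum
  exact le_of_sq_le_sq h2 zero_le_one

lemma Match.perturb {w : Fin n → (H →L[ℂ] H)} (hw : GoodA w) {d d' : Dat n k} {e κ : ℝ}
    (hκ : 0 ≤ κ)
    (hm : Match w d e) (hx : Wts d.2.1) (hy : Wts d.2.2) (hx' : Wts d'.2.1) (hy' : Wts d'.2.2)
    (hs : ∀ a α, ‖d.1 a α‖ ≤ 1) (hdist : dist d d' ≤ κ) :
    Match w d' (e + (k * k) * (n * (3 * κ))) := by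
  obtain ⟨f, g, hf, hg, h⟩ := hm
  refine ⟨f, g, hf, hg, ?_⟩
  have hmle : ∀ a α, ‖compr w f g a α‖ ≤ 1 := by
    intro a α
    exact (compr_contr (w a) (hw.norm_le a) hf hg).entry α.1 α.2
  obtain ⟨s, x, y⟩ := d
  obtain ⟨s', x', y'⟩ := d'
  simp only at h hx hy hx' hy' hs ⊢
  have d1 : ∀ a α, ‖s a α - s' a α‖ ≤ κ := by
    intro a α
    have h1 : dist s s' ≤ κ := (le_max_left _ _).trans hdist
    have h2 := (dist_le_pi_dist s s' a).trans h1
    have h3 := (dist_le_pi_dist (s a) (s' a) α).trans h2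
    rwa [dist_eq_norm] at h3
  have d2 : ∀ i, |x i - x' i| ≤ κ := by
    intro i
    have h1 : dist x x' ≤ κ := ((le_max_left _ _).trans (le_max_right _ _)).trans hdist
    have h2 := (dist_le_pi_dist x x' i).trans h1
    rwa [Real.dist_eq] at h2
  have d3 : ∀ i, |y i - y' i| ≤ κ := by
    intro i
    have h1 : dist y y' ≤ κ := ((le_max_right _ _).trans (le_max_right _ _)).trans hdist
    have h2 := (dist_le_pi_dist y y' i).trans h1
    rwa [Real.dist_eq] at h2
  have key : ‖∑ α : Fin k × Fin k, (wt y x α : ℂ) * ∑ a, s a α * compr w f g a α -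
      ∑ α : Fin k × Fin k, (wt y' x' α : ℂ) * ∑ a, s' a α * compr w f g a α‖ ≤
      (k * k) * (n * (3 * κ)) := by
    rw [← Finset.sum_sub_distrib]
    calc ‖∑ α : Fin k × Fin k, ((wt y x α : ℂ) * ∑ a, s a α * compr w f g a α -
          (wt y' x' α : ℂ) * ∑ a, s' a α * compr w f g a α)‖
        ≤ ∑ α : Fin k × Fin k, ∑ a : Fin n, 3 * κ := by
          refine (norm_sum_le _ _).trans (Finset.sum_le_sum fun α _ => ?_)
          rw [Finset.mul_sum, Finset.mul_sum, ← Finset.sum_sub_distrib]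
          refine (norm_sum_le _ _).trans (Finset.sum_le_sum fun a _ => ?_)
          have e1 : (wt y x α : ℂ) * (s a α * compr w f g a α) -
              (wt y' x' α : ℂ) * (s' a α * compr w f g a α) =
              (((y α.1 - y' α.1 : ℝ) : ℂ) * ((x α.2 : ℝ) : ℂ) * s a α +
                ((y' α.1 : ℝ) : ℂ) * ((x α.2 - x' α.2 : ℝ) : ℂ) * s a α +
                ((y' α.1 : ℝ) : ℂ) * ((x' α.2 : ℝ) : ℂ) * (s a α - s' a α)) *
                compr w f g a α := by
            unfold wt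
            push_cast
            ring
          rw [e1, norm_mul]
          have n1 : |x α.2| ≤ 1 := by rw [abs_of_nonneg (hx.nonneg _)]; exact hx.le_one _
          have n2 : |y' α.1| ≤ 1 := by rw [abs_of_nonneg (hy'.nonneg _)]; exact hy'.le_one _
          have n3 : |x' α.2| ≤ 1 := by rw [abs_of_nonneg (hx'.nonneg _)]; exact hx'.le_one _
          have t1 : ‖((y α.1 - y' α.1 : ℝ) : ℂ) * ((x α.2 : ℝ) : ℂ) * s a α‖ ≤ κ := by
            rw [norm_mul, norm_mul, Complex.norm_real, Complex.norm_real, Real.norm_eq_abs,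
              Real.norm_eq_abs]
            calc |y α.1 - y' α.1| * |x α.2| * ‖s a α‖ ≤ κ * 1 * 1 := by
                  gcongr
                  · exact d3 _
                  · exact hs _ _
              _ = κ := by ring
          have t2 : ‖((y' α.1 : ℝ) : ℂ) * ((x α.2 - x' α.2 : ℝ) : ℂ) * s a α‖ ≤ κ := by
            rw [norm_mul, norm_mul, Complex.norm_real, Complex.norm_real, Real.norm_eq_abs,
              Real.norm_eq_abs]
            calc |y' α.1| * |x α.2 - x' α.2| * ‖s a α‖ ≤ 1 * κ * 1 := by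
                  gcongr
                  · exact d2 _
                  · exact hs _ _
              _ = κ := by ring
          have t3 : ‖((y' α.1 : ℝ) : ℂ) * ((x' α.2 : ℝ) : ℂ) * (s a α - s' a α)‖ ≤ κ := by
            rw [norm_mul, norm_mul, Complex.norm_real, Complex.norm_real, Real.norm_eq_abs,
              Real.norm_eq_abs]
            calc |y' α.1| * |x' α.2| * ‖s a α - s' a α‖ ≤ 1 * 1 * κ := by
                  gcongr
                  exact d1 _ _
              _ = κ := by ring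
          have t4 : ‖((y α.1 - y' α.1 : ℝ) : ℂ) * ((x α.2 : ℝ) : ℂ) * s a α +
                ((y' α.1 : ℝ) : ℂ) * ((x α.2 - x' α.2 : ℝ) : ℂ) * s a α +
                ((y' α.1 : ℝ) : ℂ) * ((x' α.2 : ℝ) : ℂ) * (s a α - s' a α)‖ ≤ 3 * κ := by
            refine (norm_add₃_le).trans ?_
            linarith
          calc _ ≤ (3 * κ) * 1 := mul_le_mul t4 (hmle a α) (norm_nonneg _) (by positivity)
            _ = 3 * κ := mul_one _
      _ = (k * k) * (n * (3 * κ)) := by
          simp only [Finset.sum_const, Finset.card_univ, Fintype.card_prod, Fintype.card_fin,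
            nsmul_eq_mul, Nat.cast_mul]
  have h2 := (Complex.abs_re_le_norm _).trans key
  rw [Complex.sub_re] at h2
  have h3 := (abs_le.mp h2).2
  linarith

end one

section step

variable {n : ℕ} {ι : Type v} {H : ι → Type u} [∀ i, NormedAddCommGroup (H i)]
  [∀ i, InnerProductSpace ℂ (H i)]

/-- The step lemma: passing to an uncountable subfamily with a common datum. -/
lemma step (hn : 1 ≤ n) (w : ∀ i, Fin n → (H i →L[ℂ] H i)) (hA : ∀ i, GoodA (w i))
    (hB : ∀ i, GoodB (w i)) {e : ℝ} (he : 0 < e)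
    (hgap : ∀ i j, i ≠ j → ∃ (k : ℕ) (d : Dat n k), Valid (w i) d ∧ Match (w j) d e)
    (S : Set ι) (hS : ¬ S.Countable) :
    ∃ i ∈ S, ∃ (k : ℕ) (d : Dat n k), Valid (w i) d ∧ ∃ S' ⊆ S, ¬ S'.Countable ∧
      ∀ j ∈ S', Match (w j) d (2 * e) := by
  classical
  obtain ⟨i, hi⟩ : S.Nonempty := by
    rw [Set.nonempty_iff_ne_empty]
    intro h
    rw [h] at hS
    exact hS Set.countable_empty
  have hS1 : ¬ (S \ {i}).Countable := by
    intro h
    apply hS
    have : S ⊆ (S \ {i}) ∪ {i} := by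
      intro j hj
      by_cases h' : j = i
      · exact Or.inr h'
      · exact Or.inl ⟨hj, h'⟩
    exact (h.union (Set.countable_singleton i)).mono this
  -- fix `k`
  set Sk : ℕ → Set ι := fun k => {j ∈ S \ {i} | ∃ d : Dat n k, Valid (w i) d ∧ Match (w j) d e}
    with hSk
  obtain ⟨k, hk⟩ : ∃ k, ¬ (Sk k).Countable := by
    by_contra hcon
    push Not at hcon
    apply hS1
    refine (Set.countable_iUnion hcon).mono ?_
    intro j hj
    obtain ⟨k, d, h1, h2⟩ := hgap i j (fun h => hj.2 h.symm)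
    exact Set.mem_iUnion.mpr ⟨k, hj, d, h1, h2⟩
  choose! d hdV hdM using fun (j : ι) (hj : j ∈ Sk k) => hj.2
  set κ : ℝ := e / ((k * k) * (n * 3) + 1) with hκ
  have hκ0 : 0 < κ := by positivity
  -- fix a small ball
  set T : ℕ → Set ι := fun m => {j ∈ Sk k | dist (d j) (TopologicalSpace.denseSeq (Dat n k) m) < κ / 2}
    with hT
  obtain ⟨m, hm⟩ : ∃ m, ¬ (T m).Countable := by
    by_contra hcon
    push Not at hcon
    apply hk
    refine (Set.countable_iUnion hcon).mono ?_
    intro j hj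
    obtain ⟨y, hy, hdist⟩ := Metric.mem_closure_range_iff.mp
      ((TopologicalSpace.denseRange_denseSeq (Dat n k)) (d j)) (κ / 2) (by positivity) |>
      fun ⟨m, hm⟩ => (⟨TopologicalSpace.denseSeq (Dat n k) m, ⟨m, rfl⟩, hm⟩ :
        ∃ y ∈ Set.range (TopologicalSpace.denseSeq (Dat n k)), dist (d j) y < κ / 2)
    obtain ⟨m, rfl⟩ := hy
    exact Set.mem_iUnion.mpr ⟨m, hj, hdist⟩
  obtain ⟨j0, hj0⟩ : (T m).Nonempty := by
    rw [Set.nonempty_iff_ne_empty]
    intro h
    rw [h] at hm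
    exact hm Set.countable_empty
  refine ⟨i, hi, k, d j0, hdV j0 hj0.1, T m, ?_, hm, ?_⟩
  · intro j hj
    exact hj.1.1.1
  · intro j hj
    have hV := hdV j hj.1
    have hV0 := hdV j0 hj0.1
    have hdist : dist (d j) (d j0) ≤ κ := by
      have h1 := dist_triangle_right (d j) (d j0) (TopologicalSpace.denseSeq (Dat n k) m)
      have h2 := hj.2
      have h3 := hj0.2
      linarith
    have h1 := (hdM j hj.1).perturb (hA j) hκ0.le hV.1 hV.2.1 hV0.1 hV0.2.1
      (fun a α => (coeff_contr hn (hB i) hV.2.2 a).entry α.1 α.2) hdist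
    obtain ⟨f, g, hf, hg, h2⟩ := h1
    refine ⟨f, g, hf, hg, ?_⟩
    have h3 : (k * k : ℝ) * (n * (3 * κ)) ≤ e := by
      have h4 : (k * k : ℝ) * (n * (3 * κ)) = ((k * k) * (n * 3)) * κ := by ring
      rw [h4, hκ, mul_div_assoc', div_le_iff₀ (by positivity)]
      nlinarith
    linarith

/-- The sequence of data. -/
lemma exists_sequence (hn : 1 ≤ n) (w : ∀ i, Fin n → (H i →L[ℂ] H i)) (hA : ∀ i, GoodA (w i))
    (hB : ∀ i, GoodB (w i)) {e : ℝ} (he : 0 < e)
    (hgap : ∀ i j, i ≠ j → ∃ (k : ℕ) (d : Dat n k), Valid (w i) d ∧ Match (w j) d e)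
    (hι : ¬ Countable ι) :
    ∃ (i : ℕ → ι) (k : ℕ → ℕ) (d : ∀ t, Dat n (k t)), (∀ t, Valid (w (i t)) (d t)) ∧
      ∀ t t', t < t' → Match (w (i t')) (d t) (2 * e) := by
  classical
  have hstep := fun S : {S : Set ι // ¬ S.Countable} => step hn w hA hB he hgap S.1 S.2
  choose fi hfi fk fd hfV fS hfS hfc hfM using hstep
  let next : {S : Set ι // ¬ S.Countable} → {S : Set ι // ¬ S.Countable} :=
    fun S => ⟨fS S, hfc S⟩
  let Sq : ℕ → {S : Set ι // ¬ S.Countable} := fun t =>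
    Nat.rec ⟨Set.univ, fun h => hι (Set.countable_univ_iff.mp h)⟩ (fun _ S => next S) t
  have hSq : ∀ t, Sq (t + 1) = next (Sq t) := fun t => rfl
  have hanti : ∀ t t', t ≤ t' → (Sq t').1 ⊆ (Sq t).1 := by
    intro t t' h
    induction h with
    | refl => exact subset_rfl
    | step h ih =>
      rw [hSq]
      exact (hfS _).trans ih
  refine ⟨fun t => fi (Sq t), fun t => fk (Sq t), fun t => fd (Sq t), fun t => hfV (Sq t), ?_⟩
  intro t t' h
  apply hfM (Sq t)
  have h1 : fi (Sq t') ∈ (Sq t').1 := hfi (Sq t')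
  have h2 := hanti (t + 1) t' h h1
  rw [hSq] at h2
  exact h2

end step

end Pool.Agent.Lib.MP_f84017_an
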